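import Mathlib

/-!
# Two quadratic forms: a subspace of at least half the dimension on which one is large and the other
is small
-/

open Matrix

namespace Pool.Agent.N899.YM

set_option linter.unusedSectionVars false
set_option linter.unusedVariables false

noncomputable section

variable {ι : Type*} [Fintype ι] [DecidableEq ι]

/-- the quadratic form of a matrix -/
def qf (A : Matrix ι ι ℝ) (a : ι → ℝ) : ℝ := ∑ i, ∑ j, a i * a j * A i j

lemma qf_eq (A : Matrix ι ι ℝ) (a : ι → ℝ) : qf A a = a ⬝ᵥ A *ᵥ a := by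
  unfold qf dotProduct mulVec dotProduct
  refine Finset.sum_congr rfl fun i _ => ?_
  rw [Finset.mul_sum]
  exact Finset.sum_congr rfl fun j _ => by ring

/-- diagonal form: an orthonormal system of vectors `u k` and numbers `e k` -/
theorem diag {A : Matrix ι ι ℝ} (hA : ∀ i j, A i j = A j i) :
    ∃ (u : ι → ι → ℝ) (e : ι → ℝ), (∀ k k', ∑ i, u k i * u k' i = if k = k' then 1 else 0) ∧
      (∀ a : ι → ℝ, ∀ i, a i = ∑ k, (∑ j, u k j * a j) * u k i) ∧
      ∀ a : ι → ℝ, qf A a = ∑ k, e k * (∑ j, u k j * a j) ^ 2 := by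
  have hH : A.IsHermitian := by
    ext i j
    simp [conjTranspose, hA i j]
  obtain ⟨b, hb⟩ : ∃ b : OrthonormalBasis ι ℝ (EuclideanSpace ℝ ι), b = hH.eigenvectorBasis :=
    ⟨_, rfl⟩
  have hin : ∀ (x y : EuclideanSpace ℝ ι), inner ℝ x y = ∑ i, x i * y i := by
    intro x y
    rw [PiLp.inner_apply]
    exact Finset.sum_congr rfl fun i _ => by simp [mul_comm]
  refine ⟨fun k i => b k i, hH.eigenvalues, fun k k' => ?_, fun a i => ?_, fun a => ?_⟩
  · rw [← hin]
    exact orthonormal_iff_ite.1 b.orthonormal k k'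
  · have h := b.sum_repr (WithLp.toLp 2 a)
    have h1 := congrArg (fun x : EuclideanSpace ℝ ι => x i) h
    simp only [WithLp.ofLp_sum, WithLp.ofLp_smul, Finset.sum_apply, Pi.smul_apply,
      smul_eq_mul] at h1
    rw [← h1]
    refine Finset.sum_congr rfl fun k _ => ?_
    congr 1
    rw [b.repr_apply_apply, hin]
  · -- the quadratic form
    obtain ⟨c, hc⟩ : ∃ c : ι → ℝ, c = fun k => ∑ j, b k j * a j := ⟨_, rfl⟩
    have ha : ∀ i, a i = ∑ k, c k * b k i := by
      intro i
      have h := b.sum_repr (WithLp.toLp 2 a)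
      have h1 := congrArg (fun x : EuclideanSpace ℝ ι => x i) h
      simp only [WithLp.ofLp_sum, WithLp.ofLp_smul, Finset.sum_apply, Pi.smul_apply,
        smul_eq_mul] at h1
      rw [← h1]
      refine Finset.sum_congr rfl fun k _ => ?_
      congr 1
      rw [b.repr_apply_apply, hin, hc]
    have hAb : ∀ k i, ∑ j, A i j * b k j = hH.eigenvalues k * b k i := by
      intro k i
      have h := hH.mulVec_eigenvectorBasis k
      have h1 := congrFun h i
      rw [← hb] at h1
      simpa [mulVec, dotProduct] using h1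
    have h2 : ∀ i, ∑ j, A i j * a j = ∑ k, c k * (hH.eigenvalues k * b k i) := by
      intro i
      have e1 : ∀ j, A i j * a j = ∑ k, c k * (A i j * b k j) := by
        intro j
        rw [ha j, Finset.mul_sum]
        exact Finset.sum_congr rfl fun k _ => by ring
      rw [Finset.sum_congr rfl fun j _ => e1 j, Finset.sum_comm]
      refine Finset.sum_congr rfl fun k _ => ?_
      rw [← Finset.mul_sum, hAb]
    have h3 : qf A a = ∑ i, a i * ∑ k, c k * (hH.eigenvalues k * b k i) := by
      unfold qf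
      refine Finset.sum_congr rfl fun i _ => ?_
      rw [← h2, Finset.mul_sum]
      exact Finset.sum_congr rfl fun j _ => by ring
    rw [h3]
    have h4 : ∀ i, a i * ∑ k, c k * (hH.eigenvalues k * b k i) =
        ∑ k, hH.eigenvalues k * c k * (b k i * a i) := by
      intro i
      rw [Finset.mul_sum]
      exact Finset.sum_congr rfl fun k _ => by ring
    rw [Finset.sum_congr rfl fun i _ => h4 i, Finset.sum_comm]
    refine Finset.sum_congr rfl fun k _ => ?_
    rw [← Finset.mul_sum]
    have h5 : ∑ i, b k i * a i = c k := by rw [hc]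
    rw [h5]
    ring

lemma qf_single (A : Matrix ι ι ℝ) (i : ι) : qf A (Pi.single i 1) = A i i := by
  unfold qf
  rw [Finset.sum_eq_single i, Finset.sum_eq_single i]
  · simp
  · intro j _ hj; simp [Pi.single_eq_of_ne hj]
  · simp
  · intro j _ hj; simp [Pi.single_eq_of_ne hj]
  · simp

/-- **the subspace** -/
theorem subspace {A B : Matrix ι ι ℝ} (hA : ∀ i j, A i j = A j i) (hB : ∀ i j, B i j = B j i)
    {c b : ℝ} (hc : 0 < c) (hb : 0 < b) (hAc : ∀ (a : ι → ℝ) (i : ι), c * a i ^ 2 ≤ qf A a)
    (hB0 : ∀ a : ι → ℝ, 0 ≤ qf B a) (hBb : ∑ i, B i i ≤ Fintype.card ι * b) :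
    ∃ W : Submodule ℝ (ι → ℝ), Fintype.card ι ≤ 2 * Module.finrank ℝ W ∧
      ∀ a ∈ W, c / 4 * ∑ i, a i ^ 2 ≤ qf A a ∧ qf B a ≤ 4 * b * ∑ i, a i ^ 2 := by
  classical
  obtain ⟨u, e, u1, u2, u3⟩ := diag hA
  obtain ⟨v, f, v1, v2, v3⟩ := diag hB
  have norm : ∀ (u : ι → ι → ℝ), (∀ k k', ∑ i, u k i * u k' i = if k = k' then 1 else 0) →
      (∀ a : ι → ℝ, ∀ i, a i = ∑ k, (∑ j, u k j * a j) * u k i) → ∀ a : ι → ℝ,
      ∑ i, a i ^ 2 = ∑ k, (∑ j, u k j * a j) ^ 2 := by
    intro u u1 u2 a
    have h1 : ∀ i, a i ^ 2 = ∑ k, (∑ j, u k j * a j) * (u k i * a i) := by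
      intro i
      rw [pow_two]
      nth_rewrite 1 [u2 a i]
      rw [Finset.sum_mul]
      exact Finset.sum_congr rfl fun k _ => by ring
    rw [Finset.sum_congr rfl fun i _ => h1 i, Finset.sum_comm]
    refine Finset.sum_congr rfl fun k _ => ?_
    rw [← Finset.mul_sum]
    ring
  -- the small eigenvalues of `A`
  obtain ⟨S, hS⟩ : ∃ S : Finset ι, S = Finset.univ.filter fun k => e k < c / 4 := ⟨_, rfl⟩
  obtain ⟨T, hT⟩ : ∃ T : Finset ι, T = Finset.univ.filter fun k => 4 * b < f k := ⟨_, rfl⟩
  have hScard : (4 * S.card : ℝ) ≤ Fintype.card ι := by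
    have key : ∀ i, ∑ k ∈ S, u k i ^ 2 ≤ 1 / 4 := by
      intro i
      obtain ⟨p, hp⟩ : ∃ p : ℝ, p = ∑ k ∈ S, u k i ^ 2 := ⟨_, rfl⟩
      have hp0 : 0 ≤ p := by rw [hp]; exact Finset.sum_nonneg fun _ _ => sq_nonneg _
      obtain ⟨a, ha⟩ : ∃ a : ι → ℝ, a = fun j => ∑ k ∈ S, u k i * u k j := ⟨_, rfl⟩
      have hai : a i = p := by
        rw [ha, hp]
        exact Finset.sum_congr rfl fun k _ => by ring
      have hco : ∀ k, ∑ j, u k j * a j = if k ∈ S then u k i else 0 := by
        intro k
        rw [ha]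
        have h1 : ∀ j, u k j * ∑ k' ∈ S, u k' i * u k' j = ∑ k' ∈ S, u k' i * (u k j * u k' j) := by
          intro j
          rw [Finset.mul_sum]
          exact Finset.sum_congr rfl fun k' _ => by ring
        rw [Finset.sum_congr rfl fun j _ => h1 j, Finset.sum_comm]
        simp_rw [← Finset.mul_sum, u1]
        simp
      have h2 : qf A a ≤ c / 4 * p := by
        rw [u3, hp, Finset.mul_sum]
        have h3 : ∑ k, e k * (∑ j, u k j * a j) ^ 2 = ∑ k ∈ S, e k * u k i ^ 2 := by
          simp_rw [hco]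
          rw [← Finset.sum_filter_add_sum_filter_not Finset.univ (fun k => k ∈ S)]
          have h4 : ∑ k ∈ Finset.univ.filter (fun k => ¬k ∈ S),
              e k * (if k ∈ S then u k i else 0) ^ 2 = 0 := by
            refine Finset.sum_eq_zero fun k hk => ?_
            rw [if_neg (Finset.mem_filter.1 hk).2]
            ring
          rw [h4, add_zero]
          have h5 : Finset.univ.filter (fun k => k ∈ S) = S := by
            ext k; simp
          rw [h5]
          exact Finset.sum_congr rfl fun k hk => by rw [if_pos hk]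
        rw [h3]
        refine Finset.sum_le_sum fun k hk => ?_
        rw [hS] at hk
        exact mul_le_mul_of_nonneg_right (Finset.mem_filter.1 hk).2.le (sq_nonneg _)
      have h3 := hAc a i
      rw [hai] at h3
      rw [← hp]
      by_contra hcon
      push Not at hcon
      have h4 : c * p ^ 2 ≤ c / 4 * p := h3.trans h2
      nlinarith [mul_pos hc (lt_trans (by norm_num : (0 : ℝ) < 1 / 4) hcon)]
    have h1 : ∑ i, ∑ k ∈ S, u k i ^ 2 = S.card := by
      rw [Finset.sum_comm]
      have h2 : ∀ k ∈ S, ∑ i, u k i ^ 2 = 1 := by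
        intro k _
        have := u1 k k
        rw [if_pos rfl] at this
        rw [← this]
        exact Finset.sum_congr rfl fun i _ => by ring
      rw [Finset.sum_congr rfl h2]
      simp
    have h2 : ∑ i, ∑ k ∈ S, u k i ^ 2 ≤ ∑ _i : ι, (1 / 4 : ℝ) := Finset.sum_le_sum fun i _ => key i
    rw [h1, Finset.sum_const, Finset.card_univ, nsmul_eq_mul] at h2
    linarith
  have hf0 : ∀ k, 0 ≤ f k := by
    intro k
    have h1 := hB0 (v k)
    rw [v3] at h1
    have h2 : ∑ k', f k' * (∑ j, v k' j * v k j) ^ 2 = f k := by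
      simp_rw [v1]
      rw [Finset.sum_eq_single k]
      · simp
      · intro k' _ hk; simp [hk]
      · simp
    rwa [h2] at h1
  have hTcard : (4 * T.card : ℝ) ≤ Fintype.card ι := by
    have h1 : ∑ i, B i i = ∑ k, f k := by
      have h2 : ∀ i, B i i = ∑ k, f k * v k i ^ 2 := by
        intro i
        rw [← qf_single B i, v3]
        refine Finset.sum_congr rfl fun k _ => ?_
        congr 2
        rw [Finset.sum_eq_single i]
        · simp
        · intro j _ hj; simp [Pi.single_eq_of_ne hj]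
        · simp
      rw [Finset.sum_congr rfl fun i _ => h2 i, Finset.sum_comm]
      refine Finset.sum_congr rfl fun k _ => ?_
      rw [← Finset.mul_sum]
      have := v1 k k
      rw [if_pos rfl] at this
      have h3 : ∑ i, v k i ^ 2 = 1 := by
        rw [← this]
        exact Finset.sum_congr rfl fun i _ => by ring
      rw [h3, mul_one]
    have h2 : T.card * (4 * b) ≤ ∑ k, f k := by
      calc (T.card : ℝ) * (4 * b) = ∑ _k ∈ T, 4 * b := by simp
        _ ≤ ∑ k ∈ T, f k := Finset.sum_le_sum fun k hk => by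
            rw [hT] at hk; exact (Finset.mem_filter.1 hk).2.le
        _ ≤ ∑ k, f k := Finset.sum_le_sum_of_subset_of_nonneg (Finset.subset_univ _)
            fun k _ _ => hf0 k
    rw [h1] at hBb
    have h3 := h2.trans hBb
    have h4 : b * (4 * T.card) ≤ b * Fintype.card ι := by linarith
    exact le_of_mul_le_mul_left h4 hb
  -- the subspace
  obtain ⟨M, hM⟩ : ∃ M : (ι → ℝ) →ₗ[ℝ] (S ⊕ T → ℝ), ∀ a x, M a x =
      Sum.elim (fun k : S => ∑ j, u k.1 j * a j) (fun k : T => ∑ j, v k.1 j * a j) x := by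
    refine ⟨LinearMap.pi fun x => Sum.elim (fun k : S => ∑ j, u k.1 j • LinearMap.proj j)
      (fun k : T => ∑ j, v k.1 j • LinearMap.proj j) x, fun a x => ?_⟩
    rcases x with k | k <;> simp
  refine ⟨LinearMap.ker M, ?_, fun a ha => ?_⟩
  · have h1 := LinearMap.finrank_range_add_finrank_ker M
    have h2 : Module.finrank ℝ (LinearMap.range M) ≤ Module.finrank ℝ (S ⊕ T → ℝ) :=
      Submodule.finrank_le _
    rw [Module.finrank_fintype_fun_eq_card, Fintype.card_sum, Fintype.card_coe,
      Fintype.card_coe] at h2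
    rw [Module.finrank_fintype_fun_eq_card] at h1
    have h3 : 4 * S.card ≤ Fintype.card ι := by exact_mod_cast hScard
    have h4 : 4 * T.card ≤ Fintype.card ι := by exact_mod_cast hTcard
    omega
  · rw [LinearMap.mem_ker] at ha
    have hu : ∀ k ∈ S, ∑ j, u k j * a j = 0 := fun k hk => by
      have h1 := hM a (Sum.inl ⟨k, hk⟩)
      rw [ha] at h1
      exact h1.symm
    have hv : ∀ k ∈ T, ∑ j, v k j * a j = 0 := fun k hk => by
      have h1 := hM a (Sum.inr ⟨k, hk⟩)
      rw [ha] at h1
      exact h1.symm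
    constructor
    · rw [u3, norm u u1 u2 a, Finset.mul_sum]
      refine Finset.sum_le_sum fun k _ => ?_
      by_cases hk : k ∈ S
      · rw [hu k hk]; simp
      · rw [hS, Finset.mem_filter] at hk
        push Not at hk
        exact mul_le_mul_of_nonneg_right (hk (Finset.mem_univ _)) (sq_nonneg _)
    · rw [v3, norm v v1 v2 a, Finset.mul_sum]
      refine Finset.sum_le_sum fun k _ => ?_
      by_cases hk : k ∈ T
      · rw [hv k hk]; simp
      · rw [hT, Finset.mem_filter] at hk
        push Not at hk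
        exact mul_le_mul_of_nonneg_right (hk (Finset.mem_univ _)) (sq_nonneg _)

end

end Pool.Agent.N899.YM
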