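import Mathlib
import Pool.Agent.W793.YM.Corr
import Pool.Agent.W793.YM.Char

/-!
# Signed permutations of the axes
-/

open MeasureTheory Matrix
open scoped Matrix.Norms.Frobenius
open Pool.Agent.H906R3.YM hiding Pl
open Pool.Agent.W793.YM

namespace Pool.Agent.N899.YM

set_option linter.unusedSectionVars false
set_option linter.unusedVariables false

noncomputable section

section gen

variable {A : Type*} [Ring A] {d : ℕ} {G : Type*} [Group G]

/-- the image of a point: permutation of the axes `p` followed by the reflections `x ↦ a - x` of the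
axes with `r j = true` -/
def pt (a : A) (p : Equiv.Perm (Fin d)) (r : Fin d → Bool) (x : Fin d → A) : Fin d → A :=
  fun j => if r j then a - x (p.symm j) else x (p.symm j)

/-- the image of a link, up to orientation -/
def lt' (a : A) (p : Equiv.Perm (Fin d)) (r : Fin d → Bool) (e : (Fin d → A) × Fin d) :
    (Fin d → A) × Fin d :=
  (if r (p e.2) then pt a p r e.1 - Pi.single (p e.2) 1 else pt a p r e.1, p e.2)

/-- the configuration seen after the symmetry -/
def rot (a : A) (p : Equiv.Perm (Fin d)) (r : Fin d → Bool) (U : (Fin d → A) × Fin d → G) :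
    (Fin d → A) × Fin d → G :=
  fun e => if r (p e.2) then (U (lt' a p r e))⁻¹ else U (lt' a p r e)

variable {a : A} {p : Equiv.Perm (Fin d)} {r : Fin d → Bool}

lemma pt_inj : Function.Injective (pt a p r) := by
  intro x y h
  funext j
  have h1 := congrFun h (p j)
  unfold pt at h1
  rw [Equiv.symm_apply_apply] at h1
  split_ifs at h1
  · exact sub_right_injective h1
  · exact h1

lemma lt_inj : Function.Injective (lt' a p r) := by
  rintro ⟨x, i⟩ ⟨y, j⟩ h
  unfold lt' at h
  obtain ⟨h1, h2⟩ := Prod.ext_iff.1 h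
  simp only at h1 h2
  have h3 : i = j := p.injective h2
  subst h3
  split_ifs at h1
  · rw [pt_inj (sub_left_injective h1)]
  · rw [pt_inj h1]

lemma pt_single (x : Fin d → A) (i : Fin d) : pt a p r (x + Pi.single i 1) =
    if r (p i) then pt a p r x - Pi.single (p i) 1 else pt a p r x + Pi.single (p i) 1 := by
  funext j
  by_cases hj : j = p i
  · subst hj
    split_ifs with h <;> simp [pt, h]
    abel
  · have h1 : p.symm j ≠ i := fun h => hj (by rw [← h, Equiv.apply_symm_apply])
    split_ifs with h <;> simp [pt, h1, hj]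

lemma rot_gauge (γ : (Fin d → A) → G) (U : (Fin d → A) × Fin d → G) :
    rot a p r (fun e => γ e.1 * U e * (γ (e.1 + Pi.single e.2 1))⁻¹) =
      fun e => γ (pt a p r e.1) * rot a p r U e * (γ (pt a p r (e.1 + Pi.single e.2 1)))⁻¹ := by
  funext e
  unfold rot lt'
  simp only
  rw [pt_single]
  split_ifs with h
  · rw [sub_add_cancel]
    group
  · rfl

/-- the inverse -/
lemma rot_rot (U : (Fin d → A) × Fin d → G) :
    rot a p r (rot a p.symm (fun j => r (p j)) U) = U := by
  have h0 : ∀ x, pt a p.symm (fun j => r (p j)) (pt a p r x) = x := by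
    intro x
    funext j
    show (if r (p j) then a - (if r (p j) then a - x (p.symm (p j)) else x (p.symm (p j)))
      else (if r (p j) then a - x (p.symm (p j)) else x (p.symm (p j)))) = x j
    rw [Equiv.symm_apply_apply]
    split_ifs <;> simp
  have h00 : ∀ x (k : Fin d), r k = true → pt a p.symm (fun j => r (p j)) (pt a p r x - Pi.single k 1) =
      x + Pi.single (p.symm k) 1 := by
    intro x k hk
    have h1 := pt_single (a := a) (p := p) (r := r) x (p.symm k)
    rw [Equiv.apply_symm_apply, if_pos hk] at h1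
    rw [← h1, h0]
  funext e
  obtain ⟨x, i⟩ := e
  unfold rot lt'
  simp only [Equiv.symm_apply_apply]
  by_cases h : r (p i) = true
  · simp only [h, if_true]
    rw [h00 x (p i) h, Equiv.symm_apply_apply, add_sub_cancel_right, inv_inv]
  · simp only [h, if_false, Bool.false_eq_true, h0]

end gen

/-! ### the torus -/

variable {G : Type*} [Group G] [TopologicalSpace G] [IsTopologicalGroup G] [CompactSpace G]
  [SecondCountableTopology G] [MeasurableSpace G] [BorelSpace G] (μ : Measure G)
  [IsProbabilityMeasure μ] [μ.IsMulLeftInvariant] [μ.IsMulRightInvariant] [μ.IsInvInvariant]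
  {N n : ℕ} {L : LD G N n} {d l : ℕ} [NeZero l]
  {a : ZMod l} {p : Equiv.Perm (Fin d)} {r : Fin d → Bool}

lemma rot_cont : Continuous fun U : Ed d l → G => (rot a p r U : Ed d l → G) := by
  refine continuous_pi fun e => ?_
  unfold rot
  split_ifs
  · exact (continuous_apply _).inv
  · exact continuous_apply _

/-- the map of the links -/
def ltE (a : ZMod l) (p : Equiv.Perm (Fin d)) (r : Fin d → Bool) : Ed d l ≃ Ed d l :=
  Equiv.ofBijective (lt' a p r) (Finite.injective_iff_bijective.1 lt_inj)

lemma integral_rot (F : (Ed d l → G) → ℝ) :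
    ∫ U, F (rot a p r U) ∂(ME μ (Ed d l)) = ∫ U, F U ∂(ME μ (Ed d l)) := by
  -- the inverses
  obtain ⟨s, hs⟩ : ∃ s : Ed d l → G ≃ᵐ G, s = fun e : Ed d l =>
      if r (p e.2) then MeasurableEquiv.inv G else MeasurableEquiv.refl G := ⟨_, rfl⟩
  have h1 := measurePreserving_piCongrLeft (fun _ : Ed d l => μ) (ltE a p r).symm
  have h1' : ∀ (U : Ed d l → G) (e : Ed d l),
      (MeasurableEquiv.piCongrLeft (fun _ : Ed d l => G) (ltE a p r).symm) U e =
        U (lt' a p r e) := by
    intro U e
    have h6 : e = (ltE a p r).symm (lt' a p r e) := by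
      rw [Equiv.eq_symm_apply]; rfl
    conv_lhs => rw [h6]
    exact Equiv.piCongrLeft_apply_apply (fun _ : Ed d l => G) (ltE a p r).symm U (lt' a p r e)
  have h2 : MeasurePreserving (MeasurableEquiv.piCongrRight s) (ME μ (Ed d l)) (ME μ (Ed d l)) := by
    refine measurePreserving_pi (fun _ => μ) (fun _ => μ) fun e => ?_
    rw [hs]
    simp only
    split_ifs
    · exact Measure.measurePreserving_inv μ
    · exact MeasurePreserving.id μ
  have h3 := (h2.comp h1).integral_comp
    ((MeasurableEquiv.piCongrRight s).measurableEmbedding.comp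
      (MeasurableEquiv.measurableEmbedding _)) F
  rw [← h3]
  refine integral_congr_ae (Filter.Eventually.of_forall fun U => ?_)
  simp only [Function.comp_apply]
  congr 1
  funext e
  show _ = s e ((MeasurableEquiv.piCongrLeft (fun _ : Ed d l => G) (ltE a p r).symm) U e)
  rw [h1', hs]
  unfold rot
  simp only
  split_ifs
  · rfl
  · rfl

/-- the sum over the plaquettes in two directions -/
def PS (L : LD G N n) (U : Ed d l → G) (i j : Fin d) : ℝ := ∑ x, we L (plqT U x i j)

lemma PS_symm (U : Ed d l → G) (i j : Fin d) : PS L U i j = PS L U j i := by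
  unfold PS
  refine Finset.sum_congr rfl fun x _ => ?_
  rw [plqT_swap U x i j, we_inv]

lemma act_PS (U : Ed d l → G) :
    2 * act L U = ∑ i, ∑ j, if i ≠ j then PS L U i j else 0 := by
  have h0 : act L U = ∑ i, ∑ j, if i < j then PS L U i j else 0 := by
    unfold act
    rw [Finset.sum_comm]
    refine Finset.sum_congr rfl fun i _ => ?_
    rw [Finset.sum_comm]
    refine Finset.sum_congr rfl fun j _ => ?_
    split_ifs
    · rfl
    · simp
  have h1 : act L U = ∑ i, ∑ j, if j < i then PS L U i j else 0 := by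
    rw [h0, Finset.sum_comm]
    refine Finset.sum_congr rfl fun i _ => Finset.sum_congr rfl fun j _ => ?_
    rw [PS_symm]
  rw [two_mul]
  nth_rewrite 1 [h0]
  rw [h1, ← Finset.sum_add_distrib]
  refine Finset.sum_congr rfl fun i _ => ?_
  rw [← Finset.sum_add_distrib]
  refine Finset.sum_congr rfl fun j _ => ?_
  rcases lt_trichotomy i j with h | h | h
  · rw [if_pos h, if_neg (not_lt.2 h.le), if_pos h.ne, add_zero]
  · subst h; simp
  · rw [if_neg (not_lt.2 h.le), if_pos h, if_pos h.ne', zero_add]

lemma PS_rot (U : Ed d l → G) {i j : Fin d} (hij : i ≠ j) :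
    PS L (rot a p r U) i j = PS L U (p i) (p j) := by
  have hpij : p i ≠ p j := fun h => hij (p.injective h)
  -- the shift of the base point
  obtain ⟨z, hz⟩ : ∃ z : Fin d → ZMod l, z = (if r (p i) then Pi.single (p i) 1 else 0) +
      (if r (p j) then Pi.single (p j) 1 else 0) := ⟨_, rfl⟩
  have key : ∀ x, we L (plqT (rot a p r U) x i j) = we L (plqT U (pt a p r x - z) (p i) (p j)) := by
    intro x
    obtain ⟨y, hy⟩ : ∃ y, y = pt a p r x := ⟨_, rfl⟩
    have e1 : pt a p r (x + eT i) = if r (p i) then y - eT (p i) else y + eT (p i) := by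
      rw [hy]; exact pt_single x i
    have e2 : pt a p r (x + eT j) = if r (p j) then y - eT (p j) else y + eT (p j) := by
      rw [hy]; exact pt_single x j
    have hl : ∀ (x' : Fin d → ZMod l) (k : Fin d), rot a p r U (x', k) =
        if r (p k) then (U (pt a p r x' - eT (p k), p k))⁻¹ else U (pt a p r x', p k) := by
      intro x' k
      unfold rot lt'
      simp only
      split_ifs <;> rfl
    unfold plqT
    rw [hl, hl, hl, hl, e1, e2, ← hy, hz]
    by_cases hi : r (p i) = true <;> by_cases hj : r (p j) = true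
    · simp only [hi, hj, if_true]
      have w : ∀ A B C D : G, we L (A⁻¹ * B⁻¹ * (C⁻¹)⁻¹ * (D⁻¹)⁻¹) = we L (C * D * A⁻¹ * B⁻¹) := by
        intro A B C D
        have : A⁻¹ * B⁻¹ * (C⁻¹)⁻¹ * (D⁻¹)⁻¹ =
            (C * D)⁻¹ * (C * D * A⁻¹ * B⁻¹) * ((C * D)⁻¹)⁻¹ := by group
        rw [this, we_conj]
      rw [w]
      have a1 : y - eT (p j) - eT (p i) = y - (Pi.single (p i) 1 + Pi.single (p j) 1) := by
        unfold eT; abel
      have a2 : y - eT (p j) = y - (Pi.single (p i) 1 + Pi.single (p j) 1) + eT (p i) := by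
        unfold eT; abel
      have a3 : y - eT (p i) = y - (Pi.single (p i) 1 + Pi.single (p j) 1) + eT (p j) := by
        unfold eT; abel
      have a4 : y - eT (p i) - eT (p j) = y - (Pi.single (p i) 1 + Pi.single (p j) 1) := by
        unfold eT; abel
      rw [a4, a1, a2, a3]
    · simp only [hi, hj, if_true, if_false, Bool.false_eq_true, add_zero]
      have w : ∀ A B C D : G, we L (A⁻¹ * B * (C⁻¹)⁻¹ * D⁻¹) = we L (A * D * C⁻¹ * B⁻¹) := by
        intro A B C D
        have h1 : A⁻¹ * B * (C⁻¹)⁻¹ * D⁻¹ = A⁻¹ * (A * D * C⁻¹ * B⁻¹)⁻¹ * (A⁻¹)⁻¹ := by group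
        rw [h1, we_conj, we_inv]
      rw [w]
      have a1 : y - eT (p i) = y - Pi.single (p i) 1 := rfl
      have a2 : y = y - Pi.single (p i) 1 + eT (p i) := by unfold eT; abel
      have a3 : y + eT (p j) - eT (p i) = y - Pi.single (p i) 1 + eT (p j) := by unfold eT; abel
      rw [a3, a1]
      nth_rewrite 2 [a2]
      rfl
    · simp only [hi, hj, if_true, if_false, Bool.false_eq_true, zero_add]
      have w : ∀ A B C D : G, we L (A * B⁻¹ * C⁻¹ * (D⁻¹)⁻¹) = we L (C * B * A⁻¹ * D⁻¹) := by
        intro A B C D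
        have h1 : A * B⁻¹ * C⁻¹ * (D⁻¹)⁻¹ = D⁻¹ * (C * B * A⁻¹ * D⁻¹)⁻¹ * (D⁻¹)⁻¹ := by group
        rw [h1, we_conj, we_inv]
      rw [w]
      have a1 : y - eT (p j) = y - Pi.single (p j) 1 := rfl
      have a2 : y = y - Pi.single (p j) 1 + eT (p j) := by unfold eT; abel
      have a3 : y + eT (p i) - eT (p j) = y - Pi.single (p j) 1 + eT (p i) := by unfold eT; abel
      rw [a3, a1]
      nth_rewrite 3 [a2]
      rfl
    · simp only [hi, hj, if_false, Bool.false_eq_true, add_zero, sub_zero]
  unfold PS
  rw [Finset.sum_congr rfl fun x _ => key x]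
  have hb : Function.Bijective fun x : Fin d → ZMod l => pt a p r x - z :=
    Finite.injective_iff_bijective.1 fun x y h => pt_inj (sub_left_injective h)
  exact (Function.Bijective.sum_comp hb fun y => we L (plqT U y (p i) (p j)))

lemma act_rot (U : Ed d l → G) : act L (rot a p r U) = act L U := by
  have h1 := act_PS (L := L) (rot a p r U)
  have h2 := act_PS (L := L) U
  have h3 : (∑ i, ∑ j, if i ≠ j then PS L (rot a p r U) i j else 0) =
      ∑ i, ∑ j, if i ≠ j then PS L U i j else 0 := by
    have e1 : ∀ i j, (if i ≠ j then PS L (rot a p r U) i j else 0) =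
        if p i ≠ p j then PS L U (p i) (p j) else 0 := by
      intro i j
      by_cases h : i = j
      · subst h; simp
      · rw [if_pos h, if_pos fun h' => h (p.injective h'), PS_rot U h]
    simp_rw [e1]
    rw [Equiv.sum_comp p fun i => ∑ j, if i ≠ p j then PS L U i (p j) else 0]
    refine Finset.sum_congr rfl fun i _ => ?_
    exact Equiv.sum_comp p fun j => if i ≠ j then PS L U i j else 0
  rw [h3] at h1
  linarith

lemma Zt_rot (β : ℝ) (F : (Ed d l → G) → ℝ) :
    Zt μ L β (fun U => F (rot a p r U)) = Zt μ L β F := by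
  unfold Zt
  rw [← integral_rot μ (a := a) (p := p) (r := r) (fun U => F U * Real.exp (-(β * act L U)))]
  simp only [act_rot]

lemma EX_rot {β : ℝ} (F : (Ed d l → G) → ℝ) :
    EX μ L β (fun U => F (rot a p r U)) = EX μ L β F := by
  unfold EX; rw [Zt_rot]

lemma GI_rot {F : (Ed d l → G) → ℝ} (hF : GI F) : GI fun U => F (rot a p r U) := by
  intro γ U
  show F (rot a p r (gt γ U)) = F (rot a p r U)
  have h1 : rot a p r (gt γ U) = gt (fun x => γ (pt a p r x)) (rot a p r U) := rot_gauge γ U
  rw [h1, hF]

lemma GI_tr {F : (Ed d l → G) → ℝ} (hF : GI F) (z : Fin d → ZMod l) : GI fun U => F (tr z U) := by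
  intro γ U
  show F (tr z (gt γ U)) = F (tr z U)
  have h1 : tr z (gt γ U) = gt (fun x => γ (x + z)) (tr z U) := by
    funext e
    unfold tr gt
    simp only
    rw [add_right_comm]
  rw [h1, hF]

variable {τ : Fin d}

lemma pt_time (hp : p τ = τ) (hr : r τ = false) (x : Fin d → ZMod l) : pt a p r x τ = x τ := by
  have h1 : p.symm τ = τ := by rw [Equiv.symm_apply_eq]; exact hp.symm
  unfold pt
  simp [hr, h1]

lemma rot_tr_time (hp : p τ = τ) (hr : r τ = false) (t : ZMod l) (U : Ed d l → G) :
    rot a p r (tr (sv τ t) U) = tr (sv τ t) (rot a p r U) := by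
  have h1 : p.symm τ = τ := by rw [Equiv.symm_apply_eq]; exact hp.symm
  have h2 : ∀ x, pt a p r (x + sv τ t) = pt a p r x + sv τ t := by
    intro x
    funext j
    by_cases hj : j = τ
    · subst hj
      rw [pt_time hp hr, Pi.add_apply, Pi.add_apply, pt_time hp hr]
    · have h3 : p.symm j ≠ τ := fun h => hj (by rw [← h1] at h; exact p.symm.injective h)
      unfold pt sv
      simp [h3, hj]
  funext e
  unfold rot lt' tr
  simp only
  rw [h2]
  split_ifs
  · congr 3
    abel
  · rfl

lemma Sp_rot (hp : p τ = τ) (hr : r τ = false) {F : (Ed d l → G) → ℝ} (hF : Sp τ F) :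
    Sp τ fun U => F (rot a p r U) := by
  intro U U' h
  refine hF _ _ fun x k hx hk => ?_
  have hk' : p k ≠ τ := fun h => hk (by rw [← hp] at h; exact p.injective h)
  have h0 : (lt' a p r (x, k)).1 τ = 0 := by
    unfold lt'
    simp only
    split_ifs
    · rw [Pi.sub_apply, pt_time hp hr, hx, Pi.single_eq_of_ne (Ne.symm hk'), sub_zero]
    · rw [pt_time hp hr, hx]
  have h1 : U (lt' a p r (x, k)) = U' (lt' a p r (x, k)) := h _ _ h0 hk'
  unfold rot
  simp only [h1]

lemma Sp_tr {F : (Ed d l → G) → ℝ} (hF : Sp τ F) {z : Fin d → ZMod l} (hz : z τ = 0) :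
    Sp τ fun U => F (tr z U) := by
  intro U U' h
  refine hF _ _ fun x k hx hk => ?_
  unfold tr
  simp only
  refine h _ _ ?_ hk
  rw [Pi.add_apply, hx, hz, add_zero]

end

end Pool.Agent.N899.YM
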