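import Mathlib
import Pool.Agent.R990.MG.Fin
import Pool.Agent.N899.YM.Rot
import Pool.Agent.N899.YM.CVar

/-!
# Separated copies of the observable
-/

open MeasureTheory Matrix Filter
open scoped Matrix.Norms.Frobenius Topology
open Pool.Agent.H906R3.YM hiding Pl
open Pool.Agent.W793.YM Pool.Agent.TH618.YM Pool.Agent.Y14
open Pool.Agent.N899.YM

namespace Pool.Agent.MG990.N899

set_option linter.unusedSectionVars false
set_option linter.unusedVariables false

noncomputable section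

/-- the positions of the observables -/
def zN {e : ℕ} (q M : ℕ) (t : Fin (e + 2) → Fin M) (j : Fin (e + 3)) : ℕ :=
  if h : j.val < e + 2 then 16 * q * (j.val * M + (t ⟨j.val, h⟩).val) else 0

lemma zN_last {e : ℕ} (q M : ℕ) (t : Fin (e + 2) → Fin M) : zN q M t (Fin.last (e + 2)) = 0 := by
  unfold zN
  rw [dif_neg]
  simp

lemma zN_le {e : ℕ} {q M : ℕ} (hq : 1 ≤ q) (t : Fin (e + 2) → Fin M) (j : Fin (e + 3)) :
    zN q M t j + 7 * q ≤ 16 * q * ((e + 2) * M) + 7 * q ∧ (j ≠ Fin.last (e + 2) →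
      zN q M t j + 16 * q ≤ 16 * q * ((e + 2) * M)) := by
  unfold zN
  split_ifs with h
  · have h1 := (t ⟨j.val, h⟩).isLt
    have h2 : j.val * M + (t ⟨j.val, h⟩).val + 1 ≤ (e + 2) * M := by
      calc j.val * M + (t ⟨j.val, h⟩).val + 1 ≤ j.val * M + M := by omega
        _ = (j.val + 1) * M := by ring
        _ ≤ (e + 2) * M := Nat.mul_le_mul_right _ (by omega)
    have h3 := Nat.mul_le_mul_left (16 * q) h2
    rw [mul_add, mul_one] at h3
    constructor
    · omega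
    · intro _; exact h3
  · refine ⟨by omega, fun h1 => absurd (Fin.ext ?_) h1⟩
    have := j.isLt
    simp only [Fin.val_last]
    omega

lemma blk {c a b x y : ℕ} (hx : x < c) (hy : y < c) (h : c * a + x = c * b + y) :
    a = b ∧ x = y := by
  have h1 : (c * a + x) / c = a := by
    rw [Nat.mul_add_div (by omega), Nat.div_eq_of_lt hx, add_zero]
  have h2 : (c * b + y) / c = b := by
    rw [Nat.mul_add_div (by omega), Nat.div_eq_of_lt hy, add_zero]
  have h3 : a = b := by rw [← h1, ← h2, h]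
  subst h3
  exact ⟨rfl, by omega⟩

lemma lt_fst {A : Type*} [Ring A] {d : ℕ} {a : A} {p : Equiv.Perm (Fin d)} {r : Fin d → Bool}
    (x : Fin d → A) (i k : Fin d) : (lt' a p r (x, i)).1 k =
      (if r k then a - x (p.symm k) - (if k = p i then 1 else 0) else x (p.symm k)) := by
  unfold lt'
  simp only
  by_cases hk : k = p i
  · subst hk
    by_cases hr : r (p i) = true
    · simp [hr, pt]
    · simp [hr, pt]
  · by_cases hr : r (p i) = true <;> by_cases hr' : r k = true <;> simp [hr, hr', pt, hk]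

lemma lt_comp {A : Type*} [Ring A] {d : ℕ} {a : A} {p p0 : Equiv.Perm (Fin d)}
    {r r0 : Fin d → Bool} (x : Fin d → A) (i k : Fin d) :
    (lt' a p0.symm (fun j => r0 (p0 j)) (lt' a p r (x, i))).1 k =
      (if r0 (p0 k) = r (p0 k) then x (p.symm (p0 k)) else
        a - x (p.symm (p0 k)) - (if p0 k = p i then 1 else 0)) := by
  have h1 : lt' a p r (x, i) = ((lt' a p r (x, i)).1, p i) := rfl
  rw [h1, lt_fst, Equiv.symm_symm, lt_fst]
  have h2 : (k = p0.symm (p i)) = (p0 k = p i) := by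
    rw [Equiv.eq_symm_apply]
  simp only [h2]
  by_cases hr : r (p0 k) = true <;> by_cases hr0 : r0 (p0 k) = true
  · simp only [hr, hr0, if_true]
    abel
  · simp [hr, hr0]
  · simp [hr, hr0]
  · simp [hr, hr0]

lemma cast_lt_inj {m a b : ℕ} (ha : a < m) (hb : b < m) (h : (a : ZMod m) = b) : a = b := by
  rw [ZMod.natCast_eq_natCast_iff'] at h
  rwa [Nat.mod_eq_of_lt ha, Nat.mod_eq_of_lt hb] at h

/-- **separation of the supports** -/
theorem sep_core {e m q M a0 : ℕ} [NeZero m] (hq : 1 ≤ q)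
    (ha : 32 * q * ((e + 2) * M) + 4 * q + 1 ≤ a0) (ham : a0 < 2 * m)
    {p p0 : Equiv.Perm (Fin (e + 3))} {r r0 : Fin (e + 3) → Bool}
    (hp : p (Fin.last (e + 2)) = Fin.last (e + 2)) (hp0 : p0 (Fin.last (e + 2)) = Fin.last (e + 2))
    (hr : r (Fin.last (e + 2)) = false) (hr0 : r0 (Fin.last (e + 2)) = false)
    {t t0 : Fin (e + 2) → Fin M} {y : Fin (e + 3) → ℕ} (hy : ∀ j, y j ≤ 7 * q) {i : Fin (e + 3)}
    {x : Fin (e + 3) → ZMod (2 * m)}
    (hx : ∀ j, x j = ((zN q M t j + y j : ℕ) : ZMod (2 * m)))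
    (H : ∀ k, k ≠ Fin.last (e + 2) →
      ((lt' (a0 : ZMod (2 * m)) p0.symm (fun j => r0 (p0 j)) (lt' (a0 : ZMod (2 * m)) p r (x, i))).1
        k - ((zN q M t0 k : ℕ) : ZMod (2 * m))).val < 4 * q) :
    p = p0 ∧ r = r0 ∧ t = t0 := by
  have hpl : ∀ k, k ≠ Fin.last (e + 2) → p.symm (p0 k) ≠ Fin.last (e + 2) := by
    intro k hk h
    rw [Equiv.symm_apply_eq, hp] at h
    exact hk (p0.injective (h.trans hp0.symm))
  have key : ∀ (k : Fin (e + 3)) (hk : k ≠ Fin.last (e + 2)), p.symm (p0 k) = k ∧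
      r0 (p0 k) = r (p0 k) ∧ ∀ h : k.val < e + 2, t ⟨k.val, h⟩ = t0 ⟨k.val, h⟩ := by
    intro k hk
    have hk' := hpl k hk
    obtain ⟨k', hkk⟩ : ∃ k', k' = p.symm (p0 k) := ⟨_, rfl⟩
    have h1 := H k hk
    rw [lt_comp, ← hkk, hx k'] at h1
    rw [← hkk] at hk'
    have hyk := hy k'
    have hz := (zN_le hq t k').2 hk'
    have hz0 := (zN_le hq t0 k).2 hk
    have hS : 16 * q * ((e + 2) * M) + 16 * q * ((e + 2) * M) = 32 * q * ((e + 2) * M) := by ring
    split_ifs at h1 with h2 h3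
    · -- the same reflection
      obtain ⟨n', hn'⟩ : ∃ n', n' = ((((zN q M t k' + y k' : ℕ) : ZMod (2 * m)) -
        ((zN q M t0 k : ℕ) : ZMod (2 * m)))).val := ⟨_, rfl⟩
      have h4 : (((zN q M t k' + y k' : ℕ) : ZMod (2 * m))) =
          ((zN q M t0 k + n' : ℕ) : ZMod (2 * m)) := by
        rw [Nat.cast_add (zN q M t0 k), hn', ZMod.natCast_zmod_val]
        ring
      rw [← hn'] at h1
      have h5 := cast_lt_inj (by omega) (by omega) h4
      have hkl : k.val < e + 2 := by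
        have := k.isLt
        rcases Nat.lt_or_ge k.val (e + 2) with h | h
        · exact h
        · exact absurd (Fin.ext (by simp only [Fin.val_last]; omega)) hk
      have hkl' : k'.val < e + 2 := by
        have := k'.isLt
        rcases Nat.lt_or_ge k'.val (e + 2) with h | h
        · exact h
        · exact absurd (Fin.ext (by simp only [Fin.val_last]; omega)) hk'
      unfold zN at h5
      rw [dif_pos hkl, dif_pos hkl'] at h5
      obtain ⟨h6, -⟩ := blk (by omega) (by omega) h5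
      rw [mul_comm k'.val, mul_comm k.val] at h6
      obtain ⟨h7, h8⟩ := blk (t ⟨k'.val, hkl'⟩).isLt (t0 ⟨k.val, hkl⟩).isLt h6
      have h9 : k' = k := Fin.ext h7
      subst h9
      exact ⟨hkk.symm, h2, fun _ => Fin.ext h8⟩
    · exfalso
      obtain ⟨n', hn'⟩ : ∃ n', n' = ((((a0 : ZMod (2 * m)) -
        ((zN q M t k' + y k' : ℕ) : ZMod (2 * m)) - 1 -
        ((zN q M t0 k : ℕ) : ZMod (2 * m)))).val) := ⟨_, rfl⟩
      have h4 : ((a0 : ℕ) : ZMod (2 * m)) =
          ((zN q M t k' + y k' + 1 + zN q M t0 k + n' : ℕ) : ZMod (2 * m)) := by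
        rw [Nat.cast_add _ n', hn', ZMod.natCast_zmod_val, Nat.cast_add (zN q M t k' + y k' + 1),
          Nat.cast_add (zN q M t k' + y k') 1]
        push_cast
        ring
      rw [← hn'] at h1
      have h5 := cast_lt_inj (by omega) (by omega) h4
      omega
    · exfalso
      rw [sub_zero] at h1
      obtain ⟨n', hn'⟩ : ∃ n', n' = ((((a0 : ZMod (2 * m)) -
        ((zN q M t k' + y k' : ℕ) : ZMod (2 * m)) -
        ((zN q M t0 k : ℕ) : ZMod (2 * m)))).val) := ⟨_, rfl⟩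
      have h4 : ((a0 : ℕ) : ZMod (2 * m)) =
          ((zN q M t k' + y k' + zN q M t0 k + n' : ℕ) : ZMod (2 * m)) := by
        rw [Nat.cast_add _ n', hn', ZMod.natCast_zmod_val, Nat.cast_add (zN q M t k' + y k')]
        push_cast
        ring
      rw [← hn'] at h1
      have h5 := cast_lt_inj (by omega) (by omega) h4
      omega
  refine ⟨?_, ?_, ?_⟩
  · refine Equiv.ext fun k => ?_
    by_cases hk : k = Fin.last (e + 2)
    · rw [hk, hp, hp0]
    · have h1 := (key k hk).1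
      rw [Equiv.symm_apply_eq] at h1
      exact h1.symm
  · funext k
    by_cases hk : k = Fin.last (e + 2)
    · rw [hk, hr, hr0]
    · have hk0 : p0.symm k ≠ Fin.last (e + 2) := by
        intro h
        rw [Equiv.symm_apply_eq, hp0] at h
        exact hk h
      have h1 := (key _ hk0).2.1
      rw [Equiv.apply_symm_apply] at h1
      exact h1.symm
  · funext s
    have hs := s.isLt
    obtain ⟨k, hk⟩ : ∃ k : Fin (e + 3), k = ⟨s.val, by omega⟩ := ⟨_, rfl⟩
    have hkl : k ≠ Fin.last (e + 2) := by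
      intro h
      have := congrArg Fin.val h
      rw [hk] at this
      simp only [Fin.val_last] at this
      omega
    have h1 := (key k hkl).2.2 (by rw [hk]; exact hs)
    subst hk
    exact h1

section obs

variable {G : Type*} [Group G] [TopologicalSpace G] [IsTopologicalGroup G] [CompactSpace G]
  [SecondCountableTopology G] [MeasurableSpace G] [BorelSpace G] (μ : Measure G)
  [IsProbabilityMeasure μ] [μ.IsMulLeftInvariant] [μ.IsMulRightInvariant] [μ.IsInvInvariant]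
  {N n : ℕ} {L : LD G N n} {e m : ℕ} [NeZero m] {q r M : ℕ} {β : ℝ} {a : ZMod (2 * m)}

/-- the symmetries of the space axes -/
abbrev PG (e : ℕ) := {g : Equiv.Perm (Fin (e + 3)) × (Fin (e + 3) → Bool) //
  g.1 (Fin.last (e + 2)) = Fin.last (e + 2) ∧ g.2 (Fin.last (e + 2)) = false}

/-- the position as a point of the torus -/
def zc {e : ℕ} (m q M : ℕ) (t : Fin (e + 2) → Fin M) : Fin (e + 3) → ZMod (2 * m) :=
  fun j => ((zN q M t j : ℕ) : ZMod (2 * m))

omit [NeZero m] in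
lemma zc_last (t : Fin (e + 2) → Fin M) : zc m q M t (Fin.last (e + 2)) = 0 := by
  unfold zc
  rw [zN_last, Nat.cast_zero]

variable (L) in
/-- the copies of the observable -/
def AO (r q M : ℕ) (a : ZMod (2 * m)) (x : PG e × (Fin (e + 2) → Fin M))
    (U : Ed (e + 3) (2 * m) → G) : ℝ :=
  Fq L r q (tr (zc m q M x.2) (rot a x.1.1.1 x.1.1.2 U))

lemma AO_cont (x : PG e × (Fin (e + 2) → Fin M)) : Continuous (AO L r q M a x) :=
  Fq_cont.comp ((tr_cont _).comp rot_cont)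

lemma AO_GI (hqr : q = 2 ^ r) (x : PG e × (Fin (e + 2) → Fin M)) : GI (AO L r q M a x) :=
  GI_rot (a := a) (p := x.1.1.1) (r := x.1.1.2)
    (N899.YM.GI_tr (Fq_GI (L := L) (e := e) (m := m) hqr) (zc m q M x.2))

lemma AO_Sp (hqr : q = 2 ^ r) (x : PG e × (Fin (e + 2) → Fin M)) :
    Sp (Fin.last (e + 2)) (AO L r q M a x) :=
  Sp_rot (a := a) x.1.2.1 x.1.2.2 (Sp_tr (Fq_Sp (L := L) (e := e) (m := m) hqr) (zc_last x.2))

lemma AO_time (x : PG e × (Fin (e + 2) → Fin M)) (s : ZMod (2 * m))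
    (U : Ed (e + 3) (2 * m) → G) : AO L r q M a x (tr (sv (Fin.last (e + 2)) s) U) =
      Fq L r q (tr (sv (Fin.last (e + 2)) s) (tr (zc m q M x.2) (rot a x.1.1.1 x.1.1.2 U))) := by
  unfold AO
  rw [rot_tr_time x.1.2.1 x.1.2.2, tr_tr, tr_tr, add_comm (zc m q M x.2)]

/-- the variation of the copies -/
lemma AO_dif (x : PG e × (Fin (e + 2) → Fin M)) :
    EX μ L β (fun U : Ed (e + 3) (2 * m) → G =>
      (AO L r q M a x (tr (eT (Fin.last (e + 2))) U) - AO L r q M a x U) ^ 2) =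
    EX μ L β (fun U : Ed (e + 3) (2 * m) → G =>
      (Fq L r q (tr (eT (Fin.last (e + 2))) U) - Fq L r q U) ^ 2) := by
  have h1 := EX_tr μ (L := L) (β := β) (zc m q M x.2) (fun U : Ed (e + 3) (2 * m) → G =>
      (Fq L r q (tr (eT (Fin.last (e + 2))) U) - Fq L r q U) ^ 2)
  have h2 := EX_rot μ (L := L) (β := β) (a := a) (p := x.1.1.1) (r := x.1.1.2)
    (fun U : Ed (e + 3) (2 * m) → G =>
      (Fq L r q (tr (eT (Fin.last (e + 2))) (tr (zc m q M x.2) U)) -
        Fq L r q (tr (zc m q M x.2) U)) ^ 2)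
  have h3 : (fun U : Ed (e + 3) (2 * m) → G =>
      (AO L r q M a x (tr (eT (Fin.last (e + 2))) U) - AO L r q M a x U) ^ 2) =
      fun U => (Fq L r q (tr (eT (Fin.last (e + 2))) (tr (zc m q M x.2)
        (N899.YM.rot a x.1.1.1 x.1.1.2 U))) -
        Fq L r q (tr (zc m q M x.2) (N899.YM.rot a x.1.1.1 x.1.1.2 U))) ^ 2 := by
    funext U
    have h4 := AO_time (L := L) (r := r) (q := q) (a := a) x 1 U
    rw [sv_one] at h4
    rw [h4]
    rfl
  rw [h3]
  exact h2.trans h1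

/-- the change of variables -/
def Phi (r : ℕ) (q M : ℕ) (a : ZMod (2 * m)) (x : PG e × (Fin (e + 2) → Fin M))
    (W : Ed (e + 3) (2 * m) → G) : Ed (e + 3) (2 * m) → G :=
  rot a x.1.1.1.symm (fun j => x.1.1.2 (x.1.1.1 j))
    (tr ((2 * q) • eT (Fin.last (e + 2)) - zc m q M x.2) W)

lemma EX_Phi (x : PG e × (Fin (e + 2) → Fin M)) (F : (Ed (e + 3) (2 * m) → G) → ℝ) :
    EX μ L β (fun W => F (Phi r q M a x W)) = EX μ L β F := by
  have h1 := EX_tr μ (L := L) (β := β) ((2 * q) • eT (Fin.last (e + 2)) - zc m q M x.2)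
    (fun U : Ed (e + 3) (2 * m) → G =>
      F (rot a x.1.1.1.symm (fun j => x.1.1.2 (x.1.1.1 j)) U))
  exact h1.trans (EX_rot μ F)

lemma AO_Phi (x : PG e × (Fin (e + 2) → Fin M)) (W : Ed (e + 3) (2 * m) → G) :
    AO L r q M a x (Phi r q M a x W) = ‖psi L r q W‖ := by
  unfold AO Phi
  rw [rot_rot, tr_tr, norm_psi, Fq_tr]
  congr 2
  abel

lemma Phi_cont (x : PG e × (Fin (e + 2) → Fin M)) :
    Continuous (Phi r q M a x : (Ed (e + 3) (2 * m) → G) → Ed (e + 3) (2 * m) → G) :=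
  rot_cont.comp (tr_cont _)

/-- the other copies are not affected by the shift -/
lemma AO_inv (hq : 1 ≤ q) (hqr : q = 2 ^ r) {a0 : ℕ}
    (ha : 32 * q * ((e + 2) * M) + 4 * q + 1 ≤ a0) (ham : a0 < 2 * m)
    {x x0 : PG e × (Fin (e + 2) → Fin M)} (hx : x ≠ x0) (b : Fin n) (s : ℝ)
    (W : Ed (e + 3) (2 * m) → G) :
    AO L r q M (a0 : ZMod (2 * m)) x (Phi r q M (a0 : ZMod (2 * m)) x0 (Ps L q b s W)) =
      AO L r q M (a0 : ZMod (2 * m)) x (Phi r q M (a0 : ZMod (2 * m)) x0 W) := by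
  unfold AO
  rw [Fq_tr, Fq_tr]
  rw [phi_congr hqr (U' := rot (a0 : ZMod (2 * m)) x.1.1.1 x.1.1.2
    (Phi r q M (a0 : ZMod (2 * m)) x0 W)) fun w1 hw1 hl i hi => ?_]
  obtain ⟨ℓ, hℓ⟩ : ∃ ℓ, ℓ = lt' (a0 : ZMod (2 * m)) x.1.1.1 x.1.1.2
    (zc m q M x.2 + dsp eT w1, i) := ⟨_, rfl⟩
  obtain ⟨ℓ', hℓ'⟩ : ∃ ℓ', ℓ' = lt' (a0 : ZMod (2 * m)) x0.1.1.1.symm
    (fun j => x0.1.1.2 (x0.1.1.1 j)) ℓ := ⟨_, rfl⟩
  have h1 : Ps L q b s W (ℓ'.1 + ((2 * q) • eT (Fin.last (e + 2)) - zc m q M x0.2), ℓ'.2) =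
      W (ℓ'.1 + ((2 * q) • eT (Fin.last (e + 2)) - zc m q M x0.2), ℓ'.2) := by
    refine Ps_eq ?_
    rintro ⟨-, h2⟩
    have h3 := kk_ne hq h2
    have h4 := sep_core (e := e) (m := m) (q := q) (M := M) (a0 := a0) hq ha ham
      (p := x.1.1.1) (p0 := x0.1.1.1) (r := x.1.1.2) (r0 := x0.1.1.2) x.1.2.1 x0.1.2.1 x.1.2.2
      x0.1.2.2 (t := x.2) (t0 := x0.2) (y := fun j => w1.count j) hw1 (i := i)
      (x := zc m q M x.2 + dsp eT w1) (fun j => by
        rw [Pi.add_apply, dsp_apply]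
        unfold zc
        rw [Nat.cast_add]) (fun k hk => by
        rw [← hℓ, ← hℓ']
        have h5 : ℓ'.1 k - ((zN q M x0.2 k : ℕ) : ZMod (2 * m)) =
            (ℓ'.1 + ((2 * q) • eT (Fin.last (e + 2)) - zc m q M x0.2) :
              Fin (e + 3) → ZMod (2 * m)) k := by
          rw [Pi.add_apply, Pi.sub_apply]
          have h6 : ((2 * q) • eT (Fin.last (e + 2)) : Fin (e + 3) → ZMod (2 * m)) k = 0 := by
            simp [eT, hk]
          rw [h6, zero_sub]
          unfold zc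
          ring
        rw [h5]
        by_cases hk0 : k = 0
        · rw [hk0]
          exact h3.1.2.trans (by omega)
        · exact (h3.2 k hk0).2)
    exact hx (Prod.ext (Subtype.ext (Prod.ext h4.1 h4.2.1)) h4.2.2)
  have h2 : Phi r q M (a0 : ZMod (2 * m)) x0 (Ps L q b s W) ℓ =
      Phi r q M (a0 : ZMod (2 * m)) x0 W ℓ := by
    unfold Phi N899.YM.rot
    rw [← hℓ']
    unfold tr
    simp only [h1]
  unfold N899.YM.rot
  rw [← hℓ]
  simp only [h2]

/-- **the variance of the linear combinations of the copies** -/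
theorem var_AO (hq : 1 ≤ q) (hqr : q = 2 ^ r) {a0 : ℕ}
    (ha : 32 * q * ((e + 2) * M) + 4 * q + 1 ≤ a0) (ham : a0 < 2 * m) {v : ℝ}
    (hvar : ∀ Y : (Ed (e + 3) (2 * m) → G) → ℝ, Continuous Y →
      (∀ (a : Fin n) (s : ℝ) (U : Ed (e + 3) (2 * m) → G), Y (Ps L q a s U) = Y U) →
      v ≤ EX μ L β (fun U : Ed (e + 3) (2 * m) → G => (‖psi L r q U‖ - Y U) ^ 2))
    (α : PG e × (Fin (e + 2) → Fin M) → ℝ) (c0 : ℝ) (x0 : PG e × (Fin (e + 2) → Fin M)) :
    α x0 ^ 2 * v ≤ EX μ L β (fun U : Ed (e + 3) (2 * m) → G =>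
      (∑ x, α x * AO L r q M (a0 : ZMod (2 * m)) x U - c0) ^ 2) := by
  classical
  by_cases hα : α x0 = 0
  · rw [hα, zero_pow two_ne_zero, zero_mul]
    exact EX_nonneg μ fun U => sq_nonneg _
  have h1 := EX_Phi μ (L := L) (β := β) (r := r) (q := q) (a := (a0 : ZMod (2 * m))) x0
    (fun U : Ed (e + 3) (2 * m) → G =>
      (∑ x, α x * AO L r q M (a0 : ZMod (2 * m)) x U - c0) ^ 2)
  rw [← h1]
  obtain ⟨Y, hY⟩ : ∃ Y : (Ed (e + 3) (2 * m) → G) → ℝ, Y = fun W => (c0 -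
    ∑ x ∈ Finset.univ.erase x0, α x * AO L r q M (a0 : ZMod (2 * m)) x
      (Phi r q M (a0 : ZMod (2 * m)) x0 W)) / α x0 := ⟨_, rfl⟩
  have hYc : Continuous Y := by
    rw [hY]
    exact (continuous_const.sub (continuous_finsetSum _ fun x _ => continuous_const.mul
      ((AO_cont x).comp (Phi_cont x0)))).div_const _
  have hYi : ∀ (a : Fin n) (s : ℝ) (U : Ed (e + 3) (2 * m) → G), Y (Ps L q a s U) = Y U := by
    intro b s U
    have h0 : ∀ x ∈ Finset.univ.erase x0, α x * AO L r q M (a0 : ZMod (2 * m)) x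
        (Phi r q M (a0 : ZMod (2 * m)) x0 (Ps L q b s U)) =
        α x * AO L r q M (a0 : ZMod (2 * m)) x (Phi r q M (a0 : ZMod (2 * m)) x0 U) := fun x hx =>
      congrArg (fun y => α x * y)
        (AO_inv (L := L) (r := r) hq hqr ha ham (Finset.ne_of_mem_erase hx) b s U)
    rw [hY]
    show (c0 - _) / _ = (c0 - _) / _
    rw [Finset.sum_congr rfl h0]
  have h2 := hvar Y hYc hYi
  have h3 : (fun W : Ed (e + 3) (2 * m) → G => (∑ x, α x * AO L r q M (a0 : ZMod (2 * m)) x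
      (Phi r q M (a0 : ZMod (2 * m)) x0 W) - c0) ^ 2) =
      fun W => α x0 ^ 2 * (‖psi L r q W‖ - Y W) ^ 2 := by
    funext W
    rw [← Finset.add_sum_erase _ _ (Finset.mem_univ x0), AO_Phi, hY, ← mul_pow, mul_sub,
      mul_div_cancel₀ _ hα]
    congr 1
    ring
  rw [h3, EX_smul]
  exact mul_le_mul_of_nonneg_left h2 (sq_nonneg _)

end obs

end

end Pool.Agent.MG990.N899
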