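import Mathlib
import Pool.Agent.N899.YM.Lin
import Pool.Agent.N899.YM.Sep

/-!
# The variance and the variation of the linear combinations
-/

open MeasureTheory Matrix Filter
open scoped Matrix.Norms.Frobenius Topology
open Pool.Agent.H906R3.YM hiding Pl
open Pool.Agent.W793.YM Pool.Agent.TH618.YM Pool.Agent.Y14
open Pool.Agent.N899.YM

namespace Pool.Agent.MG990.N899

set_option linter.unusedSectionVars false
set_option linter.unusedVariables false

noncomputable section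

variable {G : Type*} [Group G] [TopologicalSpace G] [IsTopologicalGroup G] [CompactSpace G]
  [SecondCountableTopology G] [MeasurableSpace G] [BorelSpace G] (μ : Measure G)
  [IsProbabilityMeasure μ] [μ.IsMulLeftInvariant] [μ.IsMulRightInvariant] [μ.IsInvInvariant]
  {N n : ℕ} {L : LD G N n}

/-- the bounds for one observable -/
theorem core (hn : 1 ≤ n) (hN : 1 ≤ N) (e : ℕ) {C0 : ℝ} (hC0 : 0 < C0)
    (hcar : ∀ g : G, dv L g ^ 2 ≤ ∑ a, fi L a g ^ 2 + C0 * dv L g ^ 4) :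
    ∃ c2 C3 cv : ℝ, 0 < c2 ∧ 0 < C3 ∧ 0 < cv ∧
    ∀ j q : ℕ, q = 2 ^ (j + 1) → ∀ β : ℝ, 0 < β →
      c2 * ((q : ℝ) ^ kap e * ((j : ℝ) + 5) ^ nul e) ≤ β → ∀ (m : ℕ) [NeZero m],
      5 * (e + 3) * q < 2 * m → 32 * q ≤ 2 * m →
      (∀ Y : (Ed (e + 3) (2 * m) → G) → ℝ, Continuous Y →
        (∀ (a : Fin n) (s : ℝ) (U : Ed (e + 3) (2 * m) → G), Y (Ps L q a s U) = Y U) →
        cv * ((q : ℝ) ^ 2 / (β * (q : ℝ) ^ (e + 1))) ≤
          EX μ L β (fun U : Ed (e + 3) (2 * m) → G => (‖psi L (j + 1) q U‖ - Y U) ^ 2)) ∧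
      EX μ L β (fun U : Ed (e + 3) (2 * m) → G =>
        (Fq L (j + 1) q (tr (eT (Fin.last (e + 2))) U) - Fq L (j + 1) q U) ^ 2) ≤
        C3 * (q / (β * (q : ℝ) ^ (e + 1))) := by
  have hN1 : (1 : ℝ) ≤ N := by exact_mod_cast hN
  obtain ⟨A, hA⟩ : ∃ A : ℝ, A = (30000 * N) ^ 2 := ⟨_, rfl⟩
  have hA1 : 1 ≤ A := by rw [hA]; nlinarith
  obtain ⟨c1, cv, hc1, hc11, hcv, hvar⟩ := var_Y μ (L := L) hn hN e hC0 hcar hA1
  have hCD := CD_pos (e := e) hA1 hN
  refine ⟨1 / c1 + 20 * N * (e + 3), CD e N A, cv, by positivity, by positivity, hcv,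
    fun j q hqr β hβ0 hqβ m _ hm hm32 => ?_⟩
  have hq : 1 ≤ q := by rw [hqr]; exact Nat.one_le_two_pow
  have hq1 : (1 : ℝ) ≤ q := by exact_mod_cast hq
  have hq0 : (0 : ℝ) < q := by linarith
  have hm5 : 5 * q < 2 * m := by nlinarith
  have hm2 : 2 ≤ m := by omega
  have hj0 : (0 : ℝ) ≤ j := Nat.cast_nonneg j
  have he0 : (0 : ℝ) ≤ e := Nat.cast_nonneg e
  obtain ⟨lam, hlam⟩ : ∃ lam : ℝ, lam = lm e (j + 1) := ⟨_, rfl⟩
  have hlam1 : 1 ≤ lam := by rw [hlam]; exact lm_ge _ _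
  obtain ⟨a0, ha0⟩ : ∃ a0 : ℝ, a0 = 30000 * N * Real.sqrt lam / Real.sqrt β := ⟨_, rfl⟩
  have ha00 : 0 ≤ a0 := by rw [ha0]; positivity
  have haA : a0 ^ 2 ≤ A * lam / β := by
    rw [ha0, div_pow, mul_pow, Real.sq_sqrt (by linarith), Real.sq_sqrt hβ0.le, hA]
  have hS : SB μ L (e + 3) m β (fun k => a0 * Real.sqrt (2 ^ k)) (j + 1 + 3) := by
    rw [ha0, hlam]
    exact SB_all μ hN hβ0 (by rw [← hqr]; exact hm32)
  obtain ⟨Q, hQ⟩ : ∃ Q : ℝ, Q = (q : ℝ) ^ kap e * ((j : ℝ) + 5) ^ nul e := ⟨_, rfl⟩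
  rw [← hQ] at hqβ
  -- the powers
  have hk2 : (q : ℝ) ^ 2 ≤ (q : ℝ) ^ kap e := pow_le_pow_right₀ hq1 (le_max_left _ _)
  have hke : (q : ℝ) ^ (e + 1) ≤ (q : ℝ) ^ kap e := pow_le_pow_right₀ hq1 (le_max_right _ _)
  have hkq : (q : ℝ) ≤ (q : ℝ) ^ kap e := by
    calc (q : ℝ) = q ^ 1 := (pow_one _).symm
      _ ≤ q ^ kap e := pow_le_pow_right₀ hq1 (by unfold kap; omega)
  have hQ0 : 0 < Q := by rw [hQ]; positivity
  have l1 : ((j : ℝ) + 5) * lam ≤ ((j : ℝ) + 5) ^ nul e := by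
    rw [hlam]
    unfold lm nul
    split_ifs with h
    · push_cast
      nlinarith
    · rw [pow_one, mul_one]
  have l2 : lam ^ 2 ≤ ((j : ℝ) + 5) ^ nul e := by
    rw [hlam]
    unfold lm nul
    split_ifs with h
    · push_cast
      nlinarith
    · rw [pow_one, one_pow]
      linarith
  have l0 : 1 ≤ ((j : ℝ) + 5) ^ nul e := one_le_pow₀ (by linarith)
  have b1 : (q : ℝ) ^ 2 * ((j + 1 + 3 : ℕ) * lam) ≤ Q := by
    rw [hQ]
    refine mul_le_mul hk2 (le_trans ?_ l1) (by positivity) (by positivity)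
    refine mul_le_mul_of_nonneg_right ?_ (by linarith)
    push_cast
    linarith
  have b2 : (q : ℝ) ^ (e + 1) * lam ^ 2 ≤ Q := by
    rw [hQ]
    exact mul_le_mul hke l2 (by positivity) (by positivity)
  have b3 : (q : ℝ) ^ (e + 1) * ((j + 2 : ℕ) * lam) ≤ Q := by
    rw [hQ]
    refine mul_le_mul hke (le_trans ?_ l1) (by positivity) (by positivity)
    refine mul_le_mul_of_nonneg_right ?_ (by linarith)
    push_cast
    linarith
  have b4 : (q : ℝ) ≤ Q := by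
    rw [hQ]
    calc (q : ℝ) = q * 1 := (mul_one _).symm
      _ ≤ _ := mul_le_mul hkq l0 (by norm_num) (by positivity)
  have hc1Q : Q ≤ c1 * β := by
    have h1 : 1 / c1 * Q ≤ β := by
      refine le_trans (mul_le_mul_of_nonneg_right ?_ hQ0.le) hqβ
      have : (0 : ℝ) ≤ 20 * N * (e + 3) := by positivity
      linarith
    have h2 := mul_le_mul_of_nonneg_left h1 hc1.le
    rw [← mul_assoc, mul_one_div_cancel hc1.ne', one_mul] at h2
    exact h2
  have hQβ : Q ≤ β := by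
    refine hc1Q.trans ?_
    calc c1 * β ≤ 1 * β := mul_le_mul_of_nonneg_right hc11 hβ0.le
      _ = β := one_mul _
  have hNQ : 20 * N * (e + 3) * q ≤ β := by
    refine le_trans ?_ hqβ
    refine mul_le_mul ?_ b4 (by positivity) (by positivity)
    have : 0 < 1 / c1 := by positivity
    linarith
  exact ⟨hvar (j + 1) q β lam a0 hqr hβ0 hlam1 ha00 haA (b1.trans hc1Q) (b2.trans hc1Q) m hm5
    hS, dif_bound μ (L := L) (n := n) (e := e) hm2 hN hβ0 hqr hm hA1 hlam1 haA hS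
    (b3.trans hQβ) hNQ⟩

section comb

variable {e m : ℕ} [NeZero m] {q r M : ℕ} {β : ℝ} {a : ZMod (2 * m)}

variable (L) in
/-- the observable in the channel `f`, at the position `t` -/
def OT (β : ℝ) (r q M : ℕ) (a : ZMod (2 * m)) (f : PG e → ℝ) (t : Fin (e + 2) → Fin M)
    (U : Ed (e + 3) (2 * m) → G) : ℝ :=
  ∑ g : PG e, f g * (nc e q β * AO L r q M a (g, t) U)

lemma OT_cont (f : PG e → ℝ) (t : Fin (e + 2) → Fin M) : Continuous (OT L β r q M a f t) :=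
  continuous_finsetSum _ fun g _ => continuous_const.mul (continuous_const.mul (AO_cont _))

/-- lower bound of the variance -/
theorem OT_var (hq : 1 ≤ q) (hβ : 0 < β) (hqr : q = 2 ^ r) {a0 : ℕ}
    (ha : 32 * q * ((e + 2) * M) + 4 * q + 1 ≤ a0) (ham : a0 < 2 * m) {cv : ℝ}
    (hvar : ∀ Y : (Ed (e + 3) (2 * m) → G) → ℝ, Continuous Y →
      (∀ (a : Fin n) (s : ℝ) (U : Ed (e + 3) (2 * m) → G), Y (Ps L q a s U) = Y U) →
      cv * ((q : ℝ) ^ 2 / (β * (q : ℝ) ^ (e + 1))) ≤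
        EX μ L β (fun U : Ed (e + 3) (2 * m) → G => (‖psi L r q U‖ - Y U) ^ 2))
    (f : PG e → ℝ) (α : (Fin (e + 2) → Fin M) → ℝ) (c0 : ℝ) (g0 : PG e)
    (t0 : Fin (e + 2) → Fin M) :
    cv * f g0 ^ 2 * α t0 ^ 2 ≤ EX μ L β (fun U : Ed (e + 3) (2 * m) → G =>
      (∑ t, α t * OT L β r q M (a0 : ZMod (2 * m)) f t U - c0) ^ 2) := by
  have h1 := var_AO μ (L := L) (β := β) (r := r) hq hqr ha ham hvar
    (fun x => α x.2 * (f x.1 * nc e q β)) c0 (g0, t0)
  have h2 : (fun U : Ed (e + 3) (2 * m) → G =>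
      (∑ t, α t * OT L β r q M (a0 : ZMod (2 * m)) f t U - c0) ^ 2) =
      fun U => (∑ x : PG e × (Fin (e + 2) → Fin M), α x.2 * (f x.1 * nc e q β) *
        AO L r q M (a0 : ZMod (2 * m)) x U - c0) ^ 2 := by
    funext U
    congr 2
    rw [Fintype.sum_prod_type_right]
    refine Finset.sum_congr rfl fun t _ => ?_
    unfold OT
    rw [Finset.mul_sum]
    exact Finset.sum_congr rfl fun g _ => by ring
  rw [h2]
  refine le_trans (le_of_eq ?_) h1
  simp only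
  have h3 := nc_sq (e := e) hq hβ
  calc cv * f g0 ^ 2 * α t0 ^ 2 = cv * f g0 ^ 2 * α t0 ^ 2 *
        (nc e q β ^ 2 * ((q : ℝ) ^ 2 / (β * (q : ℝ) ^ (e + 1)))) := by rw [h3, mul_one]
    _ = _ := by ring

/-- upper bound of the variation -/
theorem OT_dif (hq : 1 ≤ q) (hβ : 0 < β) {C3 : ℝ}
    (hD : EX μ L β (fun U : Ed (e + 3) (2 * m) → G =>
        (Fq L r q (tr (eT (Fin.last (e + 2))) U) - Fq L r q U) ^ 2) ≤
        C3 * (q / (β * (q : ℝ) ^ (e + 1))))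
    (f : PG e → ℝ) (g0 : PG e) (hg0 : ∀ g, |f g| ≤ |f g0|) (t : Fin (e + 2) → Fin M) :
    EX μ L β (fun U : Ed (e + 3) (2 * m) → G =>
      (OT L β r q M a f t (tr (eT (Fin.last (e + 2))) U) - OT L β r q M a f t U) ^ 2) ≤
      (Fintype.card (PG e) : ℝ) ^ 2 * f g0 ^ 2 * (C3 / q) := by
  have hcA : ∀ g : PG e, Continuous fun U : Ed (e + 3) (2 * m) → G =>
      (AO L r q M a (g, t) (tr (eT (Fin.last (e + 2))) U) - AO L r q M a (g, t) U) ^ 2 := fun g =>
    (((AO_cont (L := L) (r := r) (q := q) (a := a) (g, t)).comp (tr_cont _)).sub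
      (AO_cont (g, t))).pow 2
  have hcO : Continuous fun U : Ed (e + 3) (2 * m) → G =>
      (OT L β r q M a f t (tr (eT (Fin.last (e + 2))) U) - OT L β r q M a f t U) ^ 2 :=
    (((OT_cont (L := L) (β := β) (r := r) (q := q) (a := a) f t).comp (tr_cont _)).sub
      (OT_cont f t)).pow 2
  have hcS : Continuous fun U : Ed (e + 3) (2 * m) → G => ∑ g : PG e,
      (AO L r q M a (g, t) (tr (eT (Fin.last (e + 2))) U) - AO L r q M a (g, t) U) ^ 2 :=
    continuous_finsetSum _ fun g _ => hcA g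
  obtain ⟨K, hK⟩ : ∃ K : ℝ, K = Fintype.card (PG e) := ⟨_, rfl⟩
  have hK0 : 0 ≤ K := by rw [hK]; exact Nat.cast_nonneg _
  have hf : ∑ g, f g ^ 2 ≤ K * f g0 ^ 2 := by
    calc ∑ g, f g ^ 2 ≤ ∑ _g : PG e, f g0 ^ 2 :=
          Finset.sum_le_sum fun g _ => sq_le_sq.2 (hg0 g)
      _ = K * f g0 ^ 2 := by rw [Finset.sum_const, Finset.card_univ, nsmul_eq_mul, hK]
  have hcR : Continuous fun U : Ed (e + 3) (2 * m) → G =>
      (K * f g0 ^ 2 * nc e q β ^ 2) * ∑ g : PG e,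
      (AO L r q M a (g, t) (tr (eT (Fin.last (e + 2))) U) - AO L r q M a (g, t) U) ^ 2 :=
    continuous_const.mul hcS
  have h1 := EX_mono μ (L := L) (β := β) hcO hcR
    (fun U => by
      have e1 : OT L β r q M a f t (tr (eT (Fin.last (e + 2))) U) - OT L β r q M a f t U =
          ∑ g : PG e, f g * (nc e q β * (AO L r q M a (g, t) (tr (eT (Fin.last (e + 2))) U) -
            AO L r q M a (g, t) U)) := by
        unfold OT
        rw [← Finset.sum_sub_distrib]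
        exact Finset.sum_congr rfl fun g _ => by ring
      rw [e1]
      refine (Finset.sum_mul_sq_le_sq_mul_sq _ _ _).trans ?_
      have e2 : ∑ g : PG e, (nc e q β * (AO L r q M a (g, t) (tr (eT (Fin.last (e + 2))) U) -
            AO L r q M a (g, t) U)) ^ 2 = nc e q β ^ 2 * ∑ g : PG e,
            (AO L r q M a (g, t) (tr (eT (Fin.last (e + 2))) U) - AO L r q M a (g, t) U) ^ 2 := by
        rw [Finset.mul_sum]
        exact Finset.sum_congr rfl fun g _ => by ring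
      rw [e2, mul_assoc (K * f g0 ^ 2)]
      refine mul_le_mul_of_nonneg_right hf (mul_nonneg (sq_nonneg _) ?_)
      exact Finset.sum_nonneg fun g _ => sq_nonneg _)
  refine h1.trans ?_
  rw [EX_smul, EX_fsum μ _ hcA]
  simp only [AO_dif]
  rw [Finset.sum_const, Finset.card_univ, nsmul_eq_mul, ← hK]
  have h3 := nc_sq' (e := e) hq hβ
  calc _ ≤ K * f g0 ^ 2 * nc e q β ^ 2 * (K * (C3 * (q / (β * (q : ℝ) ^ (e + 1))))) := by
        refine mul_le_mul_of_nonneg_left (mul_le_mul_of_nonneg_left hD hK0) (by positivity)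
    _ = K ^ 2 * f g0 ^ 2 * (C3 * (nc e q β ^ 2 * (q / (β * (q : ℝ) ^ (e + 1))))) := by ring
    _ = _ := by rw [h3, mul_one_div]

end comb

end

end Pool.Agent.MG990.N899
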