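import Mathlib
import Pool.Agent.Y14.Defs

/-!
# Lattice Yang-Mills theory: the symmetry channels
-/

open MeasureTheory Matrix Filter
open scoped Matrix.Norms.Frobenius Topology
open Pool.Agent.Y14.Wilson

namespace Pool.Agent.N899.Channel

noncomputable section

/-- The symmetries of the spatial lattice directions: a permutation of the axes, followed by
reflections of some of the axes (those marked `true`). The last axis, the time, is fixed. There are
`2 ^ D * D!` of them; for `D = 3` they form the full octahedral group. -/
abbrev PointGroup (D : ℕ) := {g : Equiv.Perm (Fin (D + 1)) × (Fin (D + 1) → Bool) //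
  g.1 (Fin.last D) = Fin.last D ∧ g.2 (Fin.last D) = false}

variable {N n D : ℕ} {G : Subgroup (UU N)}

/-- The image of a point under the symmetry of the cube `{0, ..., R - 1}^(D + 1)`: the axes are
permuted, and `x_j` becomes `R - 1 - x_j` for the reflected axes. -/
def image (R : ℕ) (g : PointGroup D) (x : Fin (D + 1) → ℤ) : Fin (D + 1) → ℤ :=
  fun j => if g.1.2 j then (R : ℤ) - 1 - x (g.1.1.symm j) else x (g.1.1.symm j)

/-- The configuration seen after the symmetry: the variable of the link from `x` to `x + e_i` is the
variable of `V` on the link from the image of `x` to the image of `x + e_i` (the inverse, if this link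
is traversed backwards). -/
def rotate (R : ℕ) (g : PointGroup D) (V : LinkZ (D + 1) → G) : LinkZ (D + 1) → G := fun e =>
  if g.1.2 (g.1.1 e.2) then (V (image R g e.1 - Pi.single (g.1.1 e.2) 1, g.1.1 e.2))⁻¹
  else V (image R g e.1, g.1.1 e.2)

/-- Local observables at time `0` in the channel `f`: those of the form `∑_g f(g) F(rotate g V)` with
a local observable `F` at time `0`. -/
structure InChannel (f : PointGroup D → ℝ) (R : ℕ) (O : (LinkZ (D + 1) → G) → ℝ) : Prop where
  isLocal : IsLocal R O
  time : AtTimeZero O
  chan : ∃ F : (LinkZ (D + 1) → G) → ℝ, IsLocal R F ∧ AtTimeZero F ∧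
    ∀ V, O V = ∑ g, f g * F (rotate R g V)

/-- Exponential clustering in the channel `f` with the rate `M`, uniform in the volume. -/
def Clusters (f : PointGroup D → ℝ) [MeasurableSpace G] (μ : Measure G) (β M : ℝ) : Prop :=
  ∀ (R : ℕ) (O : (LinkZ (D + 1) → G) → ℝ), InChannel f R O →
    ∃ (K : ℝ) (l₀ : ℕ), ∀ (l : ℕ) [NeZero l], Even l → l₀ ≤ l → ∀ t : ℕ, 2 * t ≤ l →
      |corr l μ β O t| ≤ K * Real.exp (-(M * t))

/-- Exponential clustering in the channel `f` of the infinite volume state `ν` with the rate `M`. -/
def ClustersZ (f : PointGroup D → ℝ) [MeasurableSpace G] (ν : Measure (LinkZ (D + 1) → G))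
    (M : ℝ) : Prop :=
  ∀ (R : ℕ) (O : (LinkZ (D + 1) → G) → ℝ), InChannel f R O →
    ∃ K : ℝ, ∀ t : ℕ, |corrZ ν O t| ≤ K * Real.exp (-(M * t))

end

end Pool.Agent.N899.Channel
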