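import Mathlib
import Pool.Agent.N899.YM.Lin

/-!
# Expectations
-/

open Matrix

namespace Pool.Agent.N899.YM

noncomputable section

/-- an expectation -/
structure Ex {X : Type*} [TopologicalSpace X] (E : (X → ℝ) → ℝ) : Prop where
  add : ∀ F H : X → ℝ, Continuous F → Continuous H → E (fun x => F x + H x) = E F + E H
  smul : ∀ (c : ℝ) (F : X → ℝ), E (fun x => c * F x) = c * E F
  nonneg : ∀ F : X → ℝ, (∀ x, 0 ≤ F x) → 0 ≤ E F
  one : E (fun _ => 1) = 1

variable {X : Type*} [TopologicalSpace X] {E : (X → ℝ) → ℝ} (hE : Ex E)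

include hE

lemma Ex.const (c : ℝ) : E (fun _ => c) = c := by
  have h := hE.smul c (fun _ => 1)
  simp only [mul_one] at h
  rw [h, hE.one, mul_one]

lemma Ex.neg (F : X → ℝ) : E (fun x => -F x) = -E F := by
  have h := hE.smul (-1) F
  simpa using h

lemma Ex.sub {F H : X → ℝ} (hF : Continuous F) (hH : Continuous H) :
    E (fun x => F x - H x) = E F - E H := by
  have h := hE.add F (fun x => -H x) hF hH.neg
  rw [hE.neg] at h
  simp only [sub_eq_add_neg]
  exact h

lemma Ex.sum {κ : Type*} (s : Finset κ) {F : κ → X → ℝ} (hF : ∀ i, Continuous (F i)) :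
    E (fun x => ∑ i ∈ s, F i x) = ∑ i ∈ s, E (F i) := by
  classical
  induction s using Finset.induction_on with
  | empty =>
    simp only [Finset.sum_empty]
    exact hE.const 0
  | insert i s hi ih =>
    simp only [Finset.sum_insert hi]
    rw [hE.add (F i) (fun x => ∑ i ∈ s, F i x) (hF i) (continuous_finsetSum _ fun i _ => hF i), ih]

/-- the variance around another point -/
lemma Ex.var {F : X → ℝ} (hF : Continuous F) (c : ℝ) :
    E (fun x => (F x - c) ^ 2) = (E (fun x => F x * F x) - E F * E F) + (E F - c) ^ 2 := by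
  have h1 : (fun x => (F x - c) ^ 2) = fun x => (F x * F x + (-(2 * c)) * F x) + c ^ 2 := by
    funext x; ring
  have c1 : Continuous fun x => F x * F x := hF.mul hF
  have c2 : Continuous fun x => (-(2 * c)) * F x := continuous_const.mul hF
  rw [h1, hE.add (fun x => F x * F x + (-(2 * c)) * F x) (fun _ => c ^ 2) (c1.add c2)
    continuous_const, hE.add _ _ c1 c2, hE.smul, hE.const]
  ring

variable {ι : Type*} [Fintype ι] [DecidableEq ι]

omit [DecidableEq ι] in
lemma Ex.bil {P : ι → X → ℝ} (hP : ∀ i, Continuous (P i)) (a : ι → ℝ) :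
    E (fun x => (∑ t, a t * P t x) * ∑ t, a t * P t x) =
      ∑ i, ∑ j, a i * a j * E (fun x => P i x * P j x) := by
  have h1 : (fun x => (∑ t, a t * P t x) * ∑ t, a t * P t x) =
      fun x => ∑ i, ∑ j, (a i * a j) * (P i x * P j x) := by
    funext x
    rw [Finset.sum_mul_sum]
    exact Finset.sum_congr rfl fun i _ => Finset.sum_congr rfl fun j _ => by ring
  have c1 : ∀ i j, Continuous fun x => (a i * a j) * (P i x * P j x) := fun i j =>
    continuous_const.mul ((hP i).mul (hP j))
  rw [h1, hE.sum _ fun i => continuous_finsetSum _ fun j _ => c1 i j]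
  refine Finset.sum_congr rfl fun i _ => ?_
  rw [hE.sum _ fun j => c1 i j]
  exact Finset.sum_congr rfl fun j _ => hE.smul _ _

/-- **the subspace of observables which are slowly varying** -/
theorem Ex.sub_space {O : ι → X → ℝ} (hO : ∀ i, Continuous (O i)) {S : X → X} (hS : Continuous S)
    {c b : ℝ} (hc : 0 < c) (hb : 0 < b)
    (h1 : ∀ (a : ι → ℝ) (i : ι), c * a i ^ 2 ≤
      E (fun x => (∑ t, a t * O t x) * ∑ t, a t * O t x) -
        E (fun x => ∑ t, a t * O t x) * E (fun x => ∑ t, a t * O t x))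
    (h2 : ∀ i, E (fun x => (O i (S x) - O i x) ^ 2) ≤ b) :
    ∃ W : Submodule ℝ (ι → ℝ), Fintype.card ι ≤ 2 * Module.finrank ℝ W ∧ ∀ a ∈ W,
      c / 4 * ∑ i, a i ^ 2 ≤ E (fun x => (∑ t, a t * O t x) * ∑ t, a t * O t x) -
        E (fun x => ∑ t, a t * O t x) * E (fun x => ∑ t, a t * O t x) ∧
      E (fun x => ((∑ t, a t * O t (S x)) - ∑ t, a t * O t x) ^ 2) ≤ 4 * b * ∑ i, a i ^ 2 := by
  obtain ⟨A, hA⟩ : ∃ A : Matrix ι ι ℝ, A = fun i j => E (fun x => O i x * O j x) - E (O i) * E (O j) :=
    ⟨_, rfl⟩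
  obtain ⟨B, hB⟩ : ∃ B : Matrix ι ι ℝ, B = fun i j =>
    E (fun x => (O i (S x) - O i x) * (O j (S x) - O j x)) := ⟨_, rfl⟩
  have hOS : ∀ i, Continuous fun x => O i (S x) - O i x := fun i => ((hO i).comp hS).sub (hO i)
  have qA : ∀ a, qf A a = E (fun x => (∑ t, a t * O t x) * ∑ t, a t * O t x) -
        E (fun x => ∑ t, a t * O t x) * E (fun x => ∑ t, a t * O t x) := by
    intro a
    have e1 : E (fun x => ∑ t, a t * O t x) = ∑ t, a t * E (O t) := by
      rw [hE.sum (F := fun i x => a i * O i x) _ fun i => continuous_const.mul (hO i)]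
      exact Finset.sum_congr rfl fun i _ => hE.smul _ _
    rw [hE.bil hO, e1, hA]
    unfold qf
    rw [Finset.sum_mul_sum, ← Finset.sum_sub_distrib]
    refine Finset.sum_congr rfl fun i _ => ?_
    rw [← Finset.sum_sub_distrib]
    exact Finset.sum_congr rfl fun j _ => by ring
  have qB : ∀ a, qf B a = E (fun x => ((∑ t, a t * O t (S x)) - ∑ t, a t * O t x) ^ 2) := by
    intro a
    have e1 : (fun x => ((∑ t, a t * O t (S x)) - ∑ t, a t * O t x) ^ 2) =
        fun x => (∑ t, a t * (O t (S x) - O t x)) * ∑ t, a t * (O t (S x) - O t x) := by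
      funext x
      rw [← Finset.sum_sub_distrib, sq]
      simp only [mul_sub]
    rw [e1, hE.bil hOS, hB]
    rfl
  obtain ⟨W, hW1, hW2⟩ := subspace (A := A) (B := B) (c := c) (b := b)
    (fun i j => by
      rw [hA]
      show E _ - _ = E _ - _
      have : (fun x => O i x * O j x) = fun x => O j x * O i x := by funext x; ring
      rw [this, mul_comm (E (O i))])
    (fun i j => by
      rw [hB]
      show E _ = E _
      congr 1
      funext x; ring) hc hb
    (fun a i => by rw [qA]; exact h1 a i)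
    (fun a => by rw [qB]; exact hE.nonneg _ fun x => sq_nonneg _)
    (by
      calc ∑ i, B i i ≤ ∑ _i : ι, b := by
            refine Finset.sum_le_sum fun i _ => ?_
            refine le_trans (le_of_eq ?_) (h2 i)
            rw [hB]
            show E _ = E _
            congr 1
            funext x; ring
        _ = Fintype.card ι * b := by rw [Finset.sum_const, Finset.card_univ, nsmul_eq_mul])
  refine ⟨W, hW1, fun a ha => ?_⟩
  have h3 := hW2 a ha
  rw [qA, qB] at h3
  exact h3

end

end Pool.Agent.N899.YM
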