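import Mathlib
import Pool.Agent.W793.YM.Corr
import Pool.Agent.Y14.Fin
import Pool.Agent.TH618.YM.SiteRP

/-!
# Logarithmic convexity of the time correlations, for all times
-/

open MeasureTheory Matrix Filter
open scoped Matrix.Norms.Frobenius Topology
open Pool.Agent.H906R3.YM hiding Pl
open Pool.Agent.W793.YM Pool.Agent.TH618.YM

namespace Pool.Agent.N899.YM

set_option linter.unusedSectionVars false
set_option linter.unusedVariables false

noncomputable section

/-- growth of logarithmically convex sequences -/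
lemma logconv_all {a : ℕ → ℝ} {m : ℕ} {r : ℝ} (hr : 0 < r) (h0 : 0 < a 0)
    (h : ∀ k, k + 2 ≤ m → a (k + 1) ^ 2 ≤ a k * a (k + 2)) (h1 : r * a 0 ≤ a 1) :
    ∀ k ≤ m, r ^ k * a 0 ≤ a k := by
  have key : ∀ k, k + 1 ≤ m → 0 < a k ∧ r ^ k * a 0 ≤ a k ∧ r * a k ≤ a (k + 1) := by
    intro k
    induction k with
    | zero =>
      intro _
      refine ⟨h0, by rw [pow_zero, one_mul], h1⟩
    | succ k ih =>
      intro hkm
      obtain ⟨i0, i1, i2⟩ := ih (by omega)
      have hpos' : 0 < a (k + 1) := lt_of_lt_of_le (by positivity) i2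
      refine ⟨hpos', ?_, ?_⟩
      · calc r ^ (k + 1) * a 0 = r * (r ^ k * a 0) := by ring
          _ ≤ r * a k := mul_le_mul_of_nonneg_left i1 hr.le
          _ ≤ _ := i2
      · have h3 := h k (by omega)
        have h4 : a k * (r * a (k + 1)) ≤ a k * a (k + 2) := by
          calc a k * (r * a (k + 1)) = (r * a k) * a (k + 1) := by ring
            _ ≤ a (k + 1) * a (k + 1) := mul_le_mul_of_nonneg_right i2 hpos'.le
            _ = a (k + 1) ^ 2 := by ring
            _ ≤ _ := h3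
        exact le_of_mul_le_mul_left h4 i0
  intro k hkm
  rcases Nat.eq_zero_or_pos k with h2 | h2
  · subst h2; rw [pow_zero, one_mul]
  · obtain ⟨j, rfl⟩ : ∃ j, k = j + 1 := ⟨k - 1, by omega⟩
    obtain ⟨i0, i1, i2⟩ := key j (by omega)
    calc r ^ (j + 1) * a 0 = r * (r ^ j * a 0) := by ring
      _ ≤ r * a j := mul_le_mul_of_nonneg_left i1 hr.le
      _ ≤ _ := i2

variable {G : Type*} [Group G] [TopologicalSpace G] [IsTopologicalGroup G] [CompactSpace G]
  [SecondCountableTopology G] [MeasurableSpace G] [BorelSpace G] (μ : Measure G)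
  [IsProbabilityMeasure μ] [μ.IsMulLeftInvariant] [μ.IsMulRightInvariant] [μ.IsInvInvariant]
  {N n : ℕ} {L : LD G N n} {d m : ℕ} [NeZero m] {τ : Fin d}

lemma sp_srefl (hm : 2 ≤ m) {F : (Ed d (2 * m) → G) → ℝ} (hF : Sp τ F) (k : ZMod (2 * m))
    (U : Ed d (2 * m) → G) :
    F (tr (sv τ k) ((SR hm τ).tU U)) = F (tr (sv τ (-k)) U) := by
  refine hF _ _ fun x i hx hi => ?_
  unfold tr
  simp only
  rw [sU_ne _ _ hi]
  congr 2
  unfold rB sv
  funext j
  by_cases hj : j = τ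
  · subst hj
    simp [hx]
  · simp [hj]

lemma sp_sdep {F : (Ed d (2 * m) → G) → ℝ} (hF : Sp τ F) {k : ℕ} (hk : k ≤ m) :
    Dep (HQ τ) fun U : Ed d (2 * m) → G => F (tr (sv τ (k : ZMod (2 * m))) U) := by
  have hm : 0 < m := Nat.pos_of_ne_zero (NeZero.ne m)
  intro U U' h
  refine hF _ _ fun x i hx hi => ?_
  unfold tr
  refine h _ ?_
  unfold HQ
  simp only
  rw [if_neg hi]
  have h1 : (x + sv τ (k : ZMod (2 * m)) : Fin d → ZMod (2 * m)) τ = (k : ZMod (2 * m)) := by
    simp [sv, hx]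
  rw [h1, val_nat (by omega)]
  exact hk

/-- **site reflection positivity** -/
theorem site_cs (hm : 2 ≤ m) {β : ℝ} {F : (Ed d (2 * m) → G) → ℝ} (hc : Continuous F)
    (hF : Sp τ F) {j k : ℕ} (hj : j ≤ m) (hk : k ≤ m) :
    cor μ L β τ F ((j + k : ℕ) : ZMod (2 * m)) ^ 2 ≤
      cor μ L β τ F ((2 * j : ℕ) : ZMod (2 * m)) * cor μ L β τ F ((2 * k : ℕ) : ZMod (2 * m)) := by
  obtain ⟨u, hu⟩ : ∃ u : ℕ → (Ed d (2 * m) → G) → ℝ, u = fun k U =>
    F (tr (sv τ ((k : ℕ) : ZMod (2 * m))) U) * Real.exp (-(β * sS L τ U)) := ⟨_, rfl⟩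
  have huc : ∀ k, Continuous (u k) := fun k => by
    rw [hu]
    exact (hc.comp (tr_cont _)).mul (Real.continuous_exp.comp
      (continuous_const.mul (sS_cont τ)).neg)
  have hud : ∀ k, k ≤ m → Dep (fun e => PP τ e ∨ (SR hm τ).R e) (u k) := fun k hk => by
    refine Dep_HQ hm fun U U' h => ?_
    rw [hu]
    have e1 := sp_sdep hF hk U U' h
    simp only at e1 ⊢
    rw [e1, sS_dep (L := L) hm U U' h]
  have key : ∀ j k : ℕ, cor μ L β τ F ((j + k : ℕ) : ZMod (2 * m)) =
      SB μ (SR hm τ) (u j) (u k) := by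
    intro j k
    have e1 : ((j + k : ℕ) : ZMod (2 * m)) = (j : ZMod (2 * m)) - (-(k : ZMod (2 * m))) := by
      push_cast; ring
    rw [e1, ← cor_tr]
    unfold Zt SB
    refine integral_congr_ae (Filter.Eventually.of_forall fun U => ?_)
    rw [hu]
    simp only
    rw [sp_srefl hm hF, act_sS (i0 := τ) hm]
    have h2 : ∀ a b : ℝ, Real.exp (-(β * (a + b))) =
        Real.exp (-(β * a)) * Real.exp (-(β * b)) := by
      intro a b
      rw [← Real.exp_add]
      congr 1; ring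
    rw [h2]
    ring
  have a1 : 2 * j = j + j := by omega
  have a2 : 2 * k = k + k := by omega
  rw [a1, a2, key, key, key]
  rw [mul_comm (SB μ (SR hm τ) (u j) (u j)), SB_symm μ (SR hm τ) (u j) (u k)]
  refine Pool.Agent.H906R3.YM.sq_le_of_forall fun t => ?_
  exact SB_quad μ (SR hm τ) (PP τ) PP_fix PP_th (huc k) (hud k hk) (huc j) (hud j hj) t

/-- lower bound of the correlations at all distances -/
theorem corr_all (hm : 2 ≤ m) {β : ℝ} (hβ : 0 ≤ β) {F : (Ed d (2 * m) → G) → ℝ}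
    (hc : Continuous F) (hg : GI F) (hF : Sp τ F) {δ : ℝ} (hδ : 1 / 2 * δ < 1)
    (hV : 0 < Zt μ L β (fun U => F U ^ 2))
    (hd : Zt μ L β (fun U => (F (tr (eT τ) U) - F U) ^ 2) ≤ δ * Zt μ L β (fun U => F U ^ 2))
    {t : ℕ} (ht : t ≤ 2 * m) :
    (1 - 1 / 2 * δ) ^ t * Zt μ L β (fun U => F U ^ 2) ≤
      Zt μ L β (fun U => F U * F (tr (sv τ (t : ZMod (2 * m))) U)) := by
  have e0 : cor μ L β τ F ((0 : ℕ) : ZMod (2 * m)) = Zt μ L β (fun U => F U ^ 2) := by
    rw [Nat.cast_zero, cor_zero]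
  have key := logconv_all (a := fun t => cor μ L β τ F ((t : ℕ) : ZMod (2 * m))) (m := 2 * m)
    (r := 1 - 1 / 2 * δ) (by linarith) (by rw [e0]; exact hV) (fun k hk => by
      rcases Nat.even_or_odd' k with ⟨s, hs | hs⟩
      · have h3 := site_cs μ (L := L) hm (β := β) hc hF (j := s) (k := s + 1) (by omega) (by omega)
        have e1 : s + (s + 1) = k + 1 := by omega
        have e2 : 2 * (s + 1) = k + 2 := by omega
        rw [e1, e2, ← hs] at h3
        exact h3
      · have h3 := cor_cs μ (L := L) hm hβ hc hg hF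
          (H1_nat (m := m) (k := s + 1) (by omega) (by omega) hm)
          (H1_nat (m := m) (k := s + 2) (by omega) (by omega) hm)
        have e1 : (((s + 2 : ℕ) : ZMod (2 * m)) + ((s + 1 : ℕ) : ZMod (2 * m)) - 1) =
            ((k + 1 : ℕ) : ZMod (2 * m)) := by rw [hs]; push_cast; ring
        have e2 : 2 * ((s + 1 : ℕ) : ZMod (2 * m)) - 1 = ((k : ℕ) : ZMod (2 * m)) := by
          rw [hs]; push_cast; ring
        have e3 : 2 * ((s + 2 : ℕ) : ZMod (2 * m)) - 1 = ((k + 2 : ℕ) : ZMod (2 * m)) := by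
          rw [hs]; push_cast; ring
        rw [e1, e2, e3] at h3
        exact h3) (by
      rw [e0, Nat.cast_one, cor_diff μ β hc, sv_one]
      linarith) t ht
  simp only [e0] at key
  exact key

lemma exp_le_one_sub {x : ℝ} (h0 : 0 ≤ x) (h1 : x ≤ 1 / 2) : Real.exp (-(2 * x)) ≤ 1 - x := by
  have h2 := Real.add_one_le_exp (2 * x)
  rw [Real.exp_neg, inv_le_comm₀ (Real.exp_pos _) (by linarith)]
  refine le_trans ?_ h2
  rw [inv_le_iff_one_le_mul₀ (by linarith)]
  nlinarith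

/-- the truncated correlations of an observable at all times -/
theorem trunc_all {d m : ℕ} [NeZero m] (hm2 : 2 ≤ m) {β : ℝ} (hβ0 : 0 ≤ β) {τ : Fin d}
    {O : (Ed d (2 * m) → G) → ℝ} (hOc : Continuous O) (hOg : GI O) (hOs : Sp τ O)
    {κ lam : ℝ} (hκ : 0 < κ) (hlam : 0 < lam) (h9 : lam ≤ κ)
    (h1 : ∀ c : ℝ, κ * Zt μ L β (fun _ : Ed d (2 * m) → G => 1) ≤
      Zt μ L β (fun U => (O U - c) ^ 2))
    (h2 : Zt μ L β (fun U => (O (tr (eT τ) U) - O U) ^ 2) ≤
      lam * Zt μ L β (fun _ : Ed d (2 * m) → G => 1)) :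
      ∀ t : ℕ, t ≤ 2 * m →
      Real.exp (-(lam / κ * t)) *
        (Zt μ L β (fun U : Ed d (2 * m) → G => O U * O U) /
          Zt μ L β (fun _ : Ed d (2 * m) → G => 1) -
        (Zt μ L β (fun U : Ed d (2 * m) → G => O U) /
          Zt μ L β (fun _ : Ed d (2 * m) → G => 1)) ^ 2) ≤
        Zt μ L β (fun U : Ed d (2 * m) → G => O U *
          O (tr (sv τ ((t : ℕ) : ZMod (2 * m))) U)) /
          Zt μ L β (fun _ : Ed d (2 * m) → G => 1) -
        (Zt μ L β (fun U : Ed d (2 * m) → G => O U) /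
          Zt μ L β (fun _ : Ed d (2 * m) → G => 1)) ^ 2 := by
  obtain ⟨Z, hZ⟩ : ∃ Z, Z = Zt μ L β (fun _ : Ed d (2 * m) → G => 1) := ⟨_, rfl⟩
  have hZ0 : 0 < Z := by rw [hZ]; exact Zt_pos μ β
  rw [← hZ] at h1 h2 ⊢
  obtain ⟨c, hc⟩ : ∃ c, c = Zt μ L β O / Z := ⟨_, rfl⟩
  obtain ⟨F, hF⟩ : ∃ F : (Ed d (2 * m) → G) → ℝ, F = fun U => O U - c := ⟨_, rfl⟩
  have hFc : Continuous F := by rw [hF]; exact hOc.sub continuous_const
  have hFg : GI F := fun γ U => by rw [hF]; simp only [hOg γ U]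
  have hFs : Sp τ F := fun U U' h => by rw [hF]; simp only [hOs U U' h]
  have hV : κ * Z ≤ Zt μ L β (fun U => F U ^ 2) := by
    have := h1 c
    rw [hF]; exact this
  have hV0 : 0 < Zt μ L β (fun U => F U ^ 2) := lt_of_lt_of_le (by positivity) hV
  obtain ⟨δ, hδ⟩ : ∃ δ, δ = lam / κ := ⟨_, rfl⟩
  have hδ0 : 0 < δ := by rw [hδ]; positivity
  have hδ1 : δ ≤ 1 := by rw [hδ, div_le_one hκ]; exact h9
  have hd : Zt μ L β (fun U => (F (tr (eT τ) U) - F U) ^ 2) ≤
      δ * Zt μ L β (fun U => F U ^ 2) := by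
    have e1 : (fun U => (F (tr (eT τ) U) - F U) ^ 2) = fun U => (O (tr (eT τ) U) - O U) ^ 2 := by
      funext U
      rw [hF]; ring
    rw [e1]
    calc _ ≤ lam * Z := h2
      _ = δ * (κ * Z) := by rw [hδ]; field_simp
      _ ≤ _ := mul_le_mul_of_nonneg_left hV hδ0.le
  have hT : ∀ w : Fin d → ZMod (2 * m), Zt μ L β (fun U => F U * F (tr w U)) =
      Zt μ L β (fun U => O U * O (tr w U)) - c ^ 2 * Z := by
    intro w
    have e1 : (fun U => F U * F (tr w U)) =
        fun U => ((O U * O (tr w U) + (-c) * O U) + (-c) * O (tr w U)) + c ^ 2 * 1 := by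
      funext U
      rw [hF]; ring
    have c1' : Continuous fun U : Ed d (2 * m) → G => O U * O (tr w U) :=
      hOc.mul (hOc.comp (tr_cont _))
    have c2' : Continuous fun U : Ed d (2 * m) → G => (-c) * O U :=
      continuous_const.mul hOc
    have c3' : Continuous fun U : Ed d (2 * m) → G => (-c) * O (tr w U) :=
      continuous_const.mul (hOc.comp (tr_cont _))
    have c4' : Continuous fun U : Ed d (2 * m) → G => O U * O (tr w U) + (-c) * O U :=
      c1'.add c2'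
    have c5' : Continuous fun U : Ed d (2 * m) → G =>
        (O U * O (tr w U) + (-c) * O U) + (-c) * O (tr w U) := c4'.add c3'
    rw [e1, Zt_add μ c5' continuous_const, Zt_add μ c4' c3', Zt_add μ c1' c2', Zt_smul, Zt_smul,
      Zt_smul, Zt_tr μ β w O, ← hZ]
    have e2 : Zt μ L β O = c * Z := by rw [hc]; field_simp
    have e3 : Zt μ L β (fun U => O U) = c * Z := e2
    rw [e3]
    ring
  have e4 : Zt μ L β (fun U => O U) / Z = c := hc.symm
  rw [e4]
  have h8 : ∀ X : ℝ, X / Z - c ^ 2 = (X - c ^ 2 * Z) / Z := fun X => by field_simp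
  have hT0 : Zt μ L β (fun U => O U * O U) - c ^ 2 * Z = Zt μ L β (fun U => F U ^ 2) := by
    have := hT 0
    simp only [tr_zero] at this
    rw [← this]
    congr 1
    funext U
    ring
  intro t ht
  have key := corr_all μ (L := L) hm2 hβ0 hFc hFg hFs (by linarith) hV0 hd ht
  obtain ⟨w, hw⟩ : ∃ w, w = sv τ ((t : ℕ) : ZMod (2 * m)) := ⟨_, rfl⟩
  rw [← hw] at key ⊢
  rw [hT] at key
  have h5 : Real.exp (-(lam / κ * t)) ≤ (1 - 1 / 2 * δ) ^ t := by
    have h6 := exp_le_one_sub (x := 1 / 2 * δ) (by positivity) (by linarith)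
    calc Real.exp (-(lam / κ * t)) = Real.exp (-(2 * (1 / 2 * δ))) ^ t := by
          rw [← Real.exp_nat_mul]
          congr 1
          rw [hδ]; ring
      _ ≤ _ := pow_le_pow_left₀ (Real.exp_pos _).le h6 t
  rw [h8, h8, hT0, ← mul_div_assoc]
  exact div_le_div_of_nonneg_right ((mul_le_mul_of_nonneg_right h5 hV0.le).trans key) hZ0.le

end

end Pool.Agent.N899.YM
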