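import Mathlib
import Pool.Agent.R990.MG.Main
import Pool.Agent.N899.YM.Core
import Pool.Agent.N899.YM.Ex
import Pool.Agent.N899.YM.Site
import Pool.Agent.N899.YM.Defs

/-!
# The observables on the infinite lattice
-/

open MeasureTheory Matrix Filter
open scoped Matrix.Norms.Frobenius Topology

namespace Pool.Agent.N899.Channel

set_option linter.unusedSectionVars false
set_option linter.unusedVariables false

noncomputable section

open Pool.Agent Pool.Agent.H906R3 Pool.Agent.W793 Pool.Agent.TH618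
open Pool.Agent.Y14.Wilson

variable {N n : ℕ} {G : Subgroup (UU N)}

/-! ### symmetries -/

section rot

variable {D : ℕ}

lemma rotate_eq (R : ℕ) (g : PointGroup D) (V : LinkZ (D + 1) → G) :
    rotate R g V = N899.YM.rot ((R : ℤ) - 1) g.1.1 g.1.2 V := by
  funext e
  unfold rotate N899.YM.rot N899.YM.lt'
  split_ifs with h
  · rfl
  · rfl

lemma rotate_gauge (R : ℕ) (g : PointGroup D) (γ : (Fin (D + 1) → ℤ) → G)
    (V : LinkZ (D + 1) → G) : rotate R g (gauge γ V) =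
      gauge (fun x => γ (image R g x)) (rotate R g V) := by
  rw [rotate_eq, rotate_eq]
  exact N899.YM.rot_gauge γ V

lemma rotate_cont (R : ℕ) (g : PointGroup D) :
    Continuous fun V : LinkZ (D + 1) → G => rotate R g V := by
  refine continuous_pi fun e => ?_
  unfold rotate
  split_ifs
  · exact (continuous_apply _).inv
  · exact continuous_apply _

lemma rotate_lf {l : ℕ} {R a0 : ℕ} (ha : a0 + 1 = R) (g : PointGroup D)
    (U : YM.Ed (D + 1) l → G) : rotate R g (YM.lf U) =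
      YM.lf (N899.YM.rot ((a0 : ℕ) : ZMod l) g.1.1 g.1.2 U) := by
  have h0 : (((R : ℤ) - 1 : ℤ) : ZMod l) = ((a0 : ℕ) : ZMod l) := by
    rw [← ha]; push_cast; ring
  have h1 : ∀ (x : Fin (D + 1) → ℤ) (j : Fin (D + 1)), ((image R g x j : ℤ) : ZMod l) =
      N899.YM.pt ((a0 : ℕ) : ZMod l) g.1.1 g.1.2 (fun i => ((x i : ℤ) : ZMod l)) j := by
    intro x j
    unfold image N899.YM.pt
    split_ifs
    · rw [Int.cast_sub, h0]
    · rfl
  funext e
  unfold rotate YM.lf N899.YM.rot N899.YM.lt'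
  simp only
  split_ifs with h
  · congr 3
    funext j
    rw [Pi.sub_apply, Pi.sub_apply, Int.cast_sub, h1]
    congr 1
    by_cases hj : j = g.1.1 e.2
    · subst hj; simp
    · simp [hj]
  · congr 2
    funext j
    exact h1 _ _

end rot

/-! ### the observables -/

section obs

variable (B : LieBasis G n) {e : ℕ}

/-- the position -/
def zZ (q M : ℕ) (t : Fin (e + 2) → Fin M) : Fin (e + 3) → ℤ :=
  fun j => ((MG990.N899.zN q M t j : ℕ) : ℤ)

/-- the observable at a position -/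
def FP (r q M : ℕ) (κ : ℝ) (t : Fin (e + 2) → Fin M) (V : LinkZ (e + 2 + 1) → G) : ℝ :=
  κ * ‖MG990.phi (fun k => (Pi.single k 1 : Fin (e + 3) → ℤ)) (ld B) r q V (zZ q M t)‖

lemma FP_congr {r q M : ℕ} (hqr : q = 2 ^ r) (κ : ℝ) (t : Fin (e + 2) → Fin M)
    {V V' : LinkZ (e + 2 + 1) → G}
    (h : ∀ (y : Fin (e + 3) → ℕ), (∀ j, y j ≤ 7 * q) → y (Fin.last (e + 2)) = 0 →
      ∀ i, i ≠ Fin.last (e + 2) →
      V (fun j => ((MG990.N899.zN q M t j + y j : ℕ) : ℤ), i) =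
        V' (fun j => ((MG990.N899.zN q M t j + y j : ℕ) : ℤ), i)) :
    FP B r q M κ t V = FP B r q M κ t V' := by
  unfold FP
  rw [MG990.phi_congr hqr (U := V) (U' := V') fun w1 hw1 hl i hi => ?_]
  have h1 := h (fun j => w1.count j) hw1 hl i hi
  have h2 : (zZ q M t + Y14.dsp (fun k => (Pi.single k 1 : Fin (e + 3) → ℤ)) w1) =
      fun j => ((MG990.N899.zN q M t j + w1.count j : ℕ) : ℤ) := by
    funext j
    rw [Pi.add_apply, dspZ]
    unfold zZ
    push_cast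
    rfl
  rw [h2]
  exact h1

lemma FP_time {r q M : ℕ} (hqr : q = 2 ^ r) (κ : ℝ) (t : Fin (e + 2) → Fin M) :
    AtTimeZero (FP B r q M κ t) := by
  intro V V' h
  refine FP_congr B hqr κ t fun y hy hyl i hi => h _ ?_ hi
  simp only [hyl, MG990.N899.zN_last, Nat.add_zero, Nat.cast_zero]

/-- the observable in the channel `f` -/
def OZ (f : PointGroup (e + 2) → ℝ) (R r q M : ℕ) (κ : ℝ) (t : Fin (e + 2) → Fin M)
    (V : LinkZ (e + 2 + 1) → G) : ℝ :=
  ∑ g, f g * FP B r q M κ t (rotate R g V)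

/-- linear combinations -/
def Oc (f : PointGroup (e + 2) → ℝ) (R r q M : ℕ) (κ : ℝ) (α : (Fin (e + 2) → Fin M) → ℝ)
    (V : LinkZ (e + 2 + 1) → G) : ℝ :=
  ∑ t, α t * OZ B f R r q M κ t V

/-- linear combinations -/
def Fc (r q M : ℕ) (κ : ℝ) (α : (Fin (e + 2) → Fin M) → ℝ) (V : LinkZ (e + 2 + 1) → G) : ℝ :=
  ∑ t, α t * FP B r q M κ t V

lemma Oc_eq (f : PointGroup (e + 2) → ℝ) (R r q M : ℕ) (κ : ℝ)
    (α : (Fin (e + 2) → Fin M) → ℝ) (V : LinkZ (e + 2 + 1) → G) :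
    Oc B f R r q M κ α V = ∑ g, f g * Fc B r q M κ α (rotate R g V) := by
  unfold Oc OZ Fc
  simp only [Finset.mul_sum]
  rw [Finset.sum_comm]
  exact Finset.sum_congr rfl fun g _ => Finset.sum_congr rfl fun t _ => by ring

/-- the rotated links -/
lemma FP_rot_congr {r q M R : ℕ} (hq : 1 ≤ q) (hqr : q = 2 ^ r)
    (hR : 16 * q * ((e + 2) * M) + 7 * q + 2 ≤ R) (κ : ℝ)
    (t : Fin (e + 2) → Fin M) (g : PointGroup (e + 2)) {V V' : LinkZ (e + 2 + 1) → G}
    (h : ∀ (x : Fin (e + 3) → ℤ) (i : Fin (e + 3)), (∀ j, 0 ≤ x j ∧ x j < (R : ℤ)) →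
      x (Fin.last (e + 2)) = 0 → i ≠ Fin.last (e + 2) → V (x, i) = V' (x, i)) :
    FP B r q M κ t (rotate R g V) = FP B r q M κ t (rotate R g V') := by
  refine FP_congr B hqr κ t fun y hy hyl i hi => ?_
  obtain ⟨x, hx⟩ : ∃ x : Fin (e + 3) → ℤ,
    x = fun j => ((MG990.N899.zN q M t j + y j : ℕ) : ℤ) := ⟨_, rfl⟩
  rw [← hx]
  have hxj : ∀ j, 0 ≤ x j ∧ x j + 2 ≤ R := by
    intro j
    rw [hx]
    have h1 := (MG990.N899.zN_le hq t j).1
    have h2 := hy j
    simp only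
    omega
  have hxl : x (Fin.last (e + 2)) = 0 := by
    rw [hx]
    simp only [hyl, MG990.N899.zN_last, Nat.add_zero, Nat.cast_zero]
  rw [rotate_eq, rotate_eq]
  obtain ⟨f, hf⟩ : ∃ f, f = N899.YM.lt' ((R : ℤ) - 1) g.1.1 g.1.2 (x, i) := ⟨_, rfl⟩
  have hf1 : ∀ j, 0 ≤ f.1 j ∧ f.1 j < R := by
    intro j
    rw [hf, MG990.N899.lt_fst]
    have h1 := hxj (g.1.1.symm j)
    split_ifs <;> omega
  have hfl : f.1 (Fin.last (e + 2)) = 0 := by
    rw [hf, MG990.N899.lt_fst, g.2.2]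
    have h1 : g.1.1.symm (Fin.last (e + 2)) = Fin.last (e + 2) := by
      rw [Equiv.symm_apply_eq, g.2.1]
    rw [h1]
    simpa using hxl
  have hf2 : f.2 ≠ Fin.last (e + 2) := by
    rw [hf]
    intro h1
    have h2 : g.1.1 i = Fin.last (e + 2) := h1
    exact hi (g.1.1.injective (h2.trans g.2.1.symm))
  have h1 : V f = V' f := h f.1 f.2 hf1 hfl hf2
  unfold N899.YM.rot
  rw [← hf, h1]

lemma Oc_rot_congr {r q M R : ℕ} (hq : 1 ≤ q) (hqr : q = 2 ^ r)
    (hR : 16 * q * ((e + 2) * M) + 7 * q + 2 ≤ R) (κ : ℝ) (f : PointGroup (e + 2) → ℝ)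
    (α : (Fin (e + 2) → Fin M) → ℝ) {V V' : LinkZ (e + 2 + 1) → G}
    (h : ∀ (x : Fin (e + 3) → ℤ) (i : Fin (e + 3)), (∀ j, 0 ≤ x j ∧ x j < (R : ℤ)) →
      x (Fin.last (e + 2)) = 0 → i ≠ Fin.last (e + 2) → V (x, i) = V' (x, i)) :
    Oc B f R r q M κ α V = Oc B f R r q M κ α V' := by
  have key : ∀ t, OZ B f R r q M κ t V = OZ B f R r q M κ t V' := by
    intro t
    unfold OZ
    exact Finset.sum_congr rfl fun g _ => by rw [FP_rot_congr B hq hqr hR κ t g h]
  unfold Oc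
  exact Finset.sum_congr rfl fun t _ => by rw [key t]

end obs

section bridge

variable [CompactSpace G] [SecondCountableTopology G] [MeasurableSpace G] [BorelSpace G]
  (μ : Measure G) [IsProbabilityMeasure μ] [μ.IsHaarMeasure] (B : LieBasis G n) {e : ℕ}

lemma FP_inv {r q M : ℕ} (hqr : q = 2 ^ r) (κ : ℝ) (t : Fin (e + 2) → Fin M)
    (γ : (Fin (e + 2 + 1) → ℤ) → G) (V : LinkZ (e + 2 + 1) → G) :
    FP B r q M κ t (gauge γ V) = FP B r q M κ t V := by
  have h := MG990.phi_gauge (u := fun k => (Pi.single k 1 : Fin (e + 3) → ℤ)) (L := ld B) hqr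
    γ V (zZ q M t)
  have h1 : (gauge γ V : LinkZ (e + 2 + 1) → G) =
    fun f => γ f.1 * V f * (γ (f.1 + Pi.single f.2 1))⁻¹ := rfl
  unfold FP
  rw [h1, h, ← (ld B).rho_inv, YM.norm_rmul, YM.norm_lmul]

lemma FP_cont (r q M : ℕ) (κ : ℝ) (t : Fin (e + 2) → Fin M) : Continuous (FP B r q M κ t) := by
  have h0 : ∀ (w w' : List (Fin (e + 3))), Continuous fun V : LinkZ (e + 2 + 1) → G =>
      MG990.pp (fun k => (Pi.single k 1 : Fin (e + 3) → ℤ)) (ld B) V (zZ q M t)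
        (zZ q M t + (2 * q) • Pi.single 0 1) w w' := fun w w' =>
    ((ld B).cont.comp (Y14.tp_cont (zZ q M t) w)).mul
      ((YM.ctL N).continuous.comp ((ld B).cont.comp (Y14.tp_cont _ w')))
  have h1 : Continuous fun V : LinkZ (e + 2 + 1) → G => ∑ o : Y14.OO e q,
      (MG990.pp (fun k => (Pi.single k 1 : Fin (e + 3) → ℤ)) (ld B) V (zZ q M t)
        (zZ q M t + (2 * q) • Pi.single 0 1) (MG990.PA r o) (MG990.PB r o) -
      MG990.pp (fun k => (Pi.single k 1 : Fin (e + 3) → ℤ)) (ld B) V (zZ q M t)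
        (zZ q M t + (2 * q) • Pi.single 0 1) (MG990.QA r o) (MG990.QB r o)) :=
    continuous_finsetSum _ fun o _ => (h0 _ _).sub (h0 _ _)
  exact continuous_const.mul
    (h1.const_smul ((Fintype.card (Y14.OO e q) : ℝ))⁻¹).norm

lemma OZ_cont (f : PointGroup (e + 2) → ℝ) (R r q M : ℕ) (κ : ℝ) (t : Fin (e + 2) → Fin M) :
    Continuous (OZ B f R r q M κ t) :=
  continuous_finsetSum _ fun g _ => continuous_const.mul ((FP_cont B r q M κ t).comp
    (rotate_cont R g))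

lemma Oc_cont (f : PointGroup (e + 2) → ℝ) (R r q M : ℕ) (κ : ℝ)
    (α : (Fin (e + 2) → Fin M) → ℝ) : Continuous (Oc B f R r q M κ α) :=
  continuous_finsetSum _ fun t _ => continuous_const.mul (OZ_cont B f R r q M κ t)

lemma Fc_cont (r q M : ℕ) (κ : ℝ) (α : (Fin (e + 2) → Fin M) → ℝ) :
    Continuous (Fc B r q M κ α) :=
  continuous_finsetSum _ fun t _ => continuous_const.mul (FP_cont B r q M κ t)

lemma Fc_local {r q M R : ℕ} (hq : 1 ≤ q) (hqr : q = 2 ^ r)
    (hR : 16 * q * ((e + 2) * M) + 7 * q + 2 ≤ R) (κ : ℝ) (α : (Fin (e + 2) → Fin M) → ℝ) :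
    IsLocal R (Fc B r q M κ α) where
  cont := Fc_cont B r q M κ α
  inv γ V := by
    unfold Fc
    exact Finset.sum_congr rfl fun t _ => by rw [FP_inv B hqr κ t γ V]
  loc V V' h := by
    have key : ∀ t, FP B r q M κ t V = FP B r q M κ t V' := by
      intro t
      refine FP_congr B hqr κ t fun y hy hyl i hi => h _ fun j => ?_
      have h1 := (MG990.N899.zN_le hq t j).1
      have h2 := hy j
      simp only
      omega
    unfold Fc
    exact Finset.sum_congr rfl fun t _ => by rw [key t]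

lemma Fc_time {r q M : ℕ} (hqr : q = 2 ^ r) (κ : ℝ) (α : (Fin (e + 2) → Fin M) → ℝ) :
    AtTimeZero (Fc B r q M κ α) := by
  intro V V' h
  unfold Fc
  exact Finset.sum_congr rfl fun t _ => by rw [FP_time B hqr κ t V V' h]

lemma Oc_inv {r q : ℕ} (hqr : q = 2 ^ r) (f : PointGroup (e + 2) → ℝ) (R M : ℕ) (κ : ℝ)
    (α : (Fin (e + 2) → Fin M) → ℝ) (γ : (Fin (e + 2 + 1) → ℤ) → G)
    (V : LinkZ (e + 2 + 1) → G) :
    Oc B f R r q M κ α (gauge γ V) = Oc B f R r q M κ α V := by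
  have key : ∀ t, OZ B f R r q M κ t (gauge γ V) = OZ B f R r q M κ t V := by
    intro t
    unfold OZ
    exact Finset.sum_congr rfl fun g _ => by rw [rotate_gauge, FP_inv B hqr κ t]
  unfold Oc
  exact Finset.sum_congr rfl fun t _ => by rw [key t]

/-- the observables are in the channel -/
lemma Oc_channel {r q M R : ℕ} (hq : 1 ≤ q) (hqr : q = 2 ^ r)
    (hR : 16 * q * ((e + 2) * M) + 7 * q + 2 ≤ R) (κ : ℝ) (f : PointGroup (e + 2) → ℝ)
    (α : (Fin (e + 2) → Fin M) → ℝ) : InChannel f R (Oc B f R r q M κ α) where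
  isLocal :=
    { cont := Oc_cont B f R r q M κ α
      inv := fun γ V => Oc_inv B hqr f R M κ α γ V
      loc := fun V V' h => Oc_rot_congr B hq hqr hR κ f α fun x i hx _ _ => h (x, i) hx }
  time := fun V V' h => Oc_rot_congr B hq hqr hR κ f α fun x i _ hl hi => h (x, i) hl hi
  chan := ⟨Fc B r q M κ α, Fc_local B hq hqr hR κ α, Fc_time B hqr κ α,
    fun V => Oc_eq B f R r q M κ α V⟩

/-! ### the torus -/

lemma FP_lf {r q M m : ℕ} [NeZero m] (κ : ℝ) (t : Fin (e + 2) → Fin M)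
    (W : YM.Ed (e + 2 + 1) (2 * m) → G) : FP B r q M κ t (YM.lf W) =
      κ * MG990.Fq (ld B) r q (YM.tr (MG990.N899.zc m q M t) W) := by
  unfold FP
  rw [MG990.Fq_tr]
  have h := MG990.phi_map (L := ld B) (q := q) (r := r)
    (u := fun k => (Pi.single k 1 : Fin (e + 3) → ℤ))
    (u' := YM.eT) (U := YM.lf W) (U' := W) (prj (e + 3) (2 * m)) (fun i => by
      funext j
      show ((Pi.single i 1 : Fin (e + 3) → ℤ) j : ZMod (2 * m)) = YM.eT i j
      by_cases h : j = i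
      · subst h; simp [YM.eT]
      · simp [YM.eT, h]) (fun f => rfl) (zZ q M t)
  rw [h]
  have h2 : prj (e + 3) (2 * m) (zZ q M t) = MG990.N899.zc m q M t := by
    funext j
    show (((MG990.N899.zN q M t j : ℕ) : ℤ) : ZMod (2 * m)) = ((MG990.N899.zN q M t j : ℕ) : ZMod _)
    rw [Int.cast_natCast]
  rw [h2]

lemma OZ_lf {r q M m R a0 : ℕ} [NeZero m] (ha : a0 + 1 = R) (β : ℝ)
    (f : PointGroup (e + 2) → ℝ) (t : Fin (e + 2) → Fin M)
    (U : YM.Ed (e + 2 + 1) (2 * m) → G) :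
    OZ B f R r q M (Y14.nc e q β) t (YM.lf U) =
      MG990.N899.OT (ld B) β r q M ((a0 : ℕ) : ZMod (2 * m)) f t U := by
  unfold OZ MG990.N899.OT MG990.N899.AO
  refine Finset.sum_congr rfl fun g _ => ?_
  rw [rotate_lf ha, FP_lf]

omit [IsProbabilityMeasure μ] [μ.IsHaarMeasure] in
lemma shift_zero {D : ℕ} (V : LinkZ (D + 1) → G) : shift 0 V = V := by
  funext e
  unfold shift
  simp

lemma shift_lf {D l : ℕ} [NeZero l] (t : ℕ) (U : YM.Ed (D + 1) l → G) :
    shift t (YM.lf U) = YM.lf (YM.tr (YM.sv (Fin.last D) (t : ZMod l)) U) :=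
  YM.tz_lf (Fin.last D) t U

lemma lf_cont {d l : ℕ} [NeZero l] : Continuous fun U : YM.Ed d l → G => (YM.lf U : LinkZ d → G) :=
  continuous_pi fun e => continuous_apply _

lemma expect_EX {d l : ℕ} [NeZero l] (β : ℝ) (F : (LinkZ d → G) → ℝ) :
    expect l μ β F = YM.EX μ (ld B) β (fun U : YM.Ed d l → G => F (YM.lf U)) := by
  have := right_inv μ
  have := inv_inv' μ
  rw [expect_eq μ B]
  rfl

include B in
lemma ex_fin {d l : ℕ} [NeZero l] (β : ℝ) :
    N899.YM.Ex (expect l μ β : ((LinkZ d → G) → ℝ) → ℝ) := by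
  have := right_inv μ
  have := inv_inv' μ
  refine ⟨fun F H hF hH => ?_, fun c F => ?_, fun F hF => ?_, ?_⟩
  · rw [expect_EX μ B, expect_EX μ B, expect_EX μ B]
    exact YM.EX_add μ (hF.comp lf_cont) (hH.comp lf_cont)
  · rw [expect_EX μ B, expect_EX μ B]
    exact YM.EX_smul μ c _
  · rw [expect_EX μ B]
    exact YM.EX_nonneg μ fun U => hF _
  · rw [expect_EX μ B]
    exact YM.EX_one μ

lemma ex_inf {d : ℕ} (ν : Measure (LinkZ d → G)) [IsProbabilityMeasure ν] :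
    N899.YM.Ex (fun F : (LinkZ d → G) → ℝ => ∫ V, F V ∂ν) := by
  have hint : ∀ F : (LinkZ d → G) → ℝ, Continuous F → Integrable F ν := fun F hF =>
    hF.integrable_of_hasCompactSupport (HasCompactSupport.of_compactSpace _)
  refine ⟨fun F H hF hH => integral_add (hint F hF) (hint H hH), fun c F => ?_,
    fun F hF => integral_nonneg hF, ?_⟩
  · exact integral_const_mul c F
  · simp

lemma corr_zero {D l : ℕ} [NeZero l] (β : ℝ) (O : (LinkZ (D + 1) → G) → ℝ) :
    corr l μ β O 0 = expect l μ β (fun V => O V * O V) - expect l μ β O * expect l μ β O := by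
  unfold corr
  simp only [shift_zero]

lemma corrZ_zero {D : ℕ} (ν : Measure (LinkZ (D + 1) → G)) (O : (LinkZ (D + 1) → G) → ℝ) :
    corrZ ν O 0 = ∫ V, O V * O V ∂ν - (∫ V, O V ∂ν) * ∫ V, O V ∂ν := by
  unfold corrZ
  simp only [shift_zero]

include B in
/-- lower bounds of the correlations of an observable at time `0` -/
theorem truncZ {D m : ℕ} [NeZero m] (hm2 : 2 ≤ m) {β : ℝ} (hβ0 : 0 ≤ β)
    {O : (LinkZ (D + 1) → G) → ℝ} (hc : Continuous O) (hi : ∀ γ V, O (gauge γ V) = O V)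
    (ht : AtTimeZero O) {κ lam : ℝ} (hκ : 0 < κ) (hlam : 0 < lam)
    (h9 : lam ≤ κ) (h1 : κ ≤ corr (2 * m) μ β O 0)
    (h2 : expect (2 * m) μ β (fun V => (O (shift 1 V) - O V) ^ 2) ≤ lam) :
    ∀ t : ℕ, t ≤ 2 * m →
      Real.exp (-(lam / κ * t)) * corr (2 * m) μ β O 0 ≤ corr (2 * m) μ β O t := by
  have := right_inv μ
  have := inv_inv' μ
  obtain ⟨O', hO'⟩ : ∃ O' : (YM.Ed (D + 1) (2 * m) → G) → ℝ, O' = fun U => O (YM.lf U) := ⟨_, rfl⟩
  have hOc : Continuous O' := by rw [hO']; exact hc.comp lf_cont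
  have hOg : YM.GI O' := by
    intro γ U
    rw [hO']
    show O (YM.lf (YM.gt γ U)) = O (YM.lf U)
    have e1 : (YM.lf (YM.gt γ U) : LinkZ (D + 1) → G) =
        gauge (fun x => γ (fun i => ((x i : ℤ) : ZMod (2 * m)))) (YM.lf U) := by
      funext f
      unfold YM.lf YM.gt Y14.Wilson.gauge
      simp only
      congr 3
      funext j
      rw [Pi.add_apply, Pi.add_apply, Int.cast_add]
      congr 1
      by_cases hj : j = f.2
      · subst hj; simp [YM.eT]
      · simp [YM.eT, hj]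
    rw [e1, hi]
  have hOs : YM.Sp (Fin.last D) O' := by
    intro U U' h
    rw [hO']
    refine ht _ _ fun f hf hf2 => h _ _ ?_ hf2
    show ((f.1 (Fin.last D) : ℤ) : ZMod (2 * m)) = 0
    rw [hf, Int.cast_zero]
  have hZ := YM.Zt_pos μ (L := ld B) (d := D + 1) (l := 2 * m) β
  have hE := ex_fin (d := D + 1) (l := 2 * m) μ B β
  have hcor : ∀ t : ℕ, corr (2 * m) μ β O t =
      YM.Zt μ (ld B) β (fun U : YM.Ed (D + 1) (2 * m) → G => O' U *
        O' (YM.tr (YM.sv (Fin.last D) (t : ZMod (2 * m))) U)) /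
        YM.Zt μ (ld B) β (fun _ : YM.Ed (D + 1) (2 * m) → G => 1) -
      (YM.Zt μ (ld B) β (fun U : YM.Ed (D + 1) (2 * m) → G => O' U) /
        YM.Zt μ (ld B) β (fun _ : YM.Ed (D + 1) (2 * m) → G => 1)) ^ 2 := by
    intro t
    unfold corr
    rw [expect_eq μ B, expect_eq μ B, expect_eq μ B, hO']
    simp only [shift_lf]
    rw [YM.Zt_tr μ β _ (fun U : YM.Ed (D + 1) (2 * m) → G => O (YM.lf U)), pow_two]
  have hcor0 : corr (2 * m) μ β O 0 =
      YM.Zt μ (ld B) β (fun U : YM.Ed (D + 1) (2 * m) → G => O' U * O' U) /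
        YM.Zt μ (ld B) β (fun _ : YM.Ed (D + 1) (2 * m) → G => 1) -
      (YM.Zt μ (ld B) β (fun U : YM.Ed (D + 1) (2 * m) → G => O' U) /
        YM.Zt μ (ld B) β (fun _ : YM.Ed (D + 1) (2 * m) → G => 1)) ^ 2 := by
    have hs0 : YM.sv (Fin.last D) ((0 : ℕ) : ZMod (2 * m)) = 0 := by
      rw [Nat.cast_zero]
      exact Pi.single_zero _
    rw [hcor, hs0]
    simp only [YM.tr_zero]
  have k1 : ∀ c : ℝ, κ * YM.Zt μ (ld B) β (fun _ : YM.Ed (D + 1) (2 * m) → G => 1) ≤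
      YM.Zt μ (ld B) β (fun U : YM.Ed (D + 1) (2 * m) → G => (O' U - c) ^ 2) := by
    intro c
    rw [← le_div_iff₀ hZ]
    have e1 := hE.var hc c
    rw [← corr_zero, expect_eq μ B] at e1
    have e2 : (fun U : YM.Ed (D + 1) (2 * m) → G => (O' U - c) ^ 2) =
        fun U => (O (YM.lf U) - c) ^ 2 := by rw [hO']
    rw [e2, e1]
    have e3 := sq_nonneg (expect (2 * m) μ β O - c)
    linarith
  have k2 : YM.Zt μ (ld B) β (fun U : YM.Ed (D + 1) (2 * m) → G =>
      (O' (YM.tr (YM.eT (Fin.last D)) U) - O' U) ^ 2) ≤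
      lam * YM.Zt μ (ld B) β (fun _ : YM.Ed (D + 1) (2 * m) → G => 1) := by
    rw [← div_le_iff₀ hZ]
    rw [expect_eq μ B] at h2
    refine le_trans (le_of_eq ?_) h2
    congr 2
    funext U
    rw [shift_lf, hO', Nat.cast_one, YM.sv_one]
  have h3 := N899.YM.trunc_all μ (L := ld B) hm2 hβ0 hOc hOg hOs hκ hlam h9 k1 k2
  intro t ht'
  have h4 := h3 t ht'
  rw [← hcor, ← hcor0] at h4
  exact h4

end bridge

end

end Pool.Agent.N899.Channel
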