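import Mathlib
import Pool.Agent.N899.YM.ZLat

/-!
# The density of the low-lying states in every symmetry channel
-/

open MeasureTheory Matrix Filter
open scoped Matrix.Norms.Frobenius Topology

namespace Pool.Agent.N899.Channel

set_option linter.unusedSectionVars false
set_option linter.unusedVariables false

noncomputable section

open Pool.Agent Pool.Agent.H906R3 Pool.Agent.W793 Pool.Agent.TH618
open Pool.Agent.Y14.Wilson

variable {N n : ℕ} {G : Subgroup (UU N)}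

section bridge

variable [CompactSpace G] [SecondCountableTopology G] [MeasurableSpace G] [BorelSpace G]
  (μ : Measure G) [IsProbabilityMeasure μ] [μ.IsHaarMeasure] (B : LieBasis G n) {e : ℕ}

lemma Oc_single (f : PointGroup (e + 2) → ℝ) (R r q M : ℕ) (κ : ℝ) (t0 : Fin (e + 2) → Fin M) :
    Oc B f R r q M κ (Pi.single t0 1) = OZ B f R r q M κ t0 := by
  funext V
  unfold Oc
  rw [Finset.sum_eq_single t0]
  · rw [Pi.single_eq_same, one_mul]
  · intro t _ ht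
    rw [Pi.single_eq_of_ne ht, zero_mul]
  · intro h; exact absurd (Finset.mem_univ _) h

include B in
/-- the bounds in the finite volume -/
theorem bounds (hG : IsClosed (G : Set (UU N))) (hn : 1 ≤ n) (hN : 1 ≤ N) (e : ℕ) :
    ∃ c2 C3 cv : ℝ, 0 < c2 ∧ 0 < C3 ∧ 0 < cv ∧ ∀ j q : ℕ, q = 2 ^ (j + 1) → ∀ β : ℝ, 0 < β →
      c2 * ((q : ℝ) ^ MG990.kap e * ((j : ℝ) + 5) ^ MG990.nul e) ≤ β → ∀ (M R a0 : ℕ), 1 ≤ M →
      a0 + 1 = R → 32 * q * ((e + 2) * M) + 4 * q + 1 ≤ a0 → ∀ (f : PointGroup (e + 2) → ℝ)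
      (g0 : PointGroup (e + 2)), (∀ g, |f g| ≤ |f g0|) → ∀ (m : ℕ) [NeZero m], R ≤ 2 * m →
      (∀ (α : (Fin (e + 2) → Fin M) → ℝ) (t0 : Fin (e + 2) → Fin M),
        cv * f g0 ^ 2 * α t0 ^ 2 ≤
          corr (2 * m) μ β (Oc B f R (j + 1) q M (Y14.nc e q β) α) 0) ∧
      ∀ t : Fin (e + 2) → Fin M, expect (2 * m) μ β (fun V =>
        (OZ B f R (j + 1) q M (Y14.nc e q β) t (shift 1 V) -
          OZ B f R (j + 1) q M (Y14.nc e q β) t V) ^ 2) ≤
        f g0 ^ 2 * (C3 / q) := by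
  have := right_inv μ
  have := inv_inv' μ
  obtain ⟨C0, hC0, hcar⟩ := YM.cartan' (fm B) hG
  obtain ⟨c2, C3, cv, hc2, hC3, hcv, hcore⟩ := MG990.N899.core μ (L := ld B) hn hN e hC0 hcar
  obtain ⟨K, hK⟩ : ∃ K : ℝ, K = (Fintype.card (MG990.N899.PG e) : ℝ) ^ 2 := ⟨_, rfl⟩
  have hK0 : 0 < K := by
    have h1 : Nonempty (MG990.N899.PG e) := ⟨⟨(1, fun _ => false), rfl, rfl⟩⟩
    have h2 := Fintype.card_pos_iff.2 h1
    rw [hK]; positivity
  refine ⟨c2, K * C3, cv, hc2, by positivity, hcv,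
    fun j q hqr β hβ hqβ M R a0 hM haR ha f g0 hg0 m _ hRm => ?_⟩
  have hq : 1 ≤ q := by rw [hqr]; exact Nat.one_le_two_pow
  have h1 : 32 * q * (e + 2) ≤ 32 * q * ((e + 2) * M) :=
    Nat.mul_le_mul_left _ (Nat.le_mul_of_pos_right _ hM)
  have h2 : 5 * (e + 3) * q < 32 * q * (e + 2) := by nlinarith
  have h3 : 32 * q ≤ 32 * q * (e + 2) := Nat.le_mul_of_pos_right _ (by omega)
  obtain ⟨hv, hD⟩ := hcore j q hqr β hβ hqβ m (by omega) (by omega)
  refine ⟨fun α t0 => ?_, fun t => ?_⟩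
  · have hE := ex_fin (d := e + 2 + 1) (l := 2 * m) μ B β
    have hc := Oc_cont B f R (j + 1) q M (Y14.nc e q β) α
    have e1 := hE.var hc (expect (2 * m) μ β (Oc B f R (j + 1) q M (Y14.nc e q β) α))
    rw [← corr_zero, sub_self, zero_pow two_ne_zero, add_zero, expect_EX μ B] at e1
    rw [← e1]
    have e2 := MG990.N899.OT_var μ (L := ld B) (M := M) hq hβ hqr ha (by omega) hv f α
      (expect (2 * m) μ β (Oc B f R (j + 1) q M (Y14.nc e q β) α)) g0 t0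
    have e3 : (fun U : YM.Ed (e + 3) (2 * m) → G =>
        (Oc B f R (j + 1) q M (Y14.nc e q β) α (YM.lf U) -
          expect (2 * m) μ β (Oc B f R (j + 1) q M (Y14.nc e q β) α)) ^ 2) = fun U =>
        (∑ t, α t * MG990.N899.OT (ld B) β (j + 1) q M ((a0 : ℕ) : ZMod (2 * m)) f t U -
          expect (2 * m) μ β (Oc B f R (j + 1) q M (Y14.nc e q β) α)) ^ 2 := by
      funext U
      have e4 : Oc B f R (j + 1) q M (Y14.nc e q β) α (YM.lf U) =
          ∑ t, α t * MG990.N899.OT (ld B) β (j + 1) q M ((a0 : ℕ) : ZMod (2 * m)) f t U := by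
        unfold Oc
        exact Finset.sum_congr rfl fun t _ => by rw [OZ_lf B haR β]
      rw [e4]
    rw [← e3] at e2
    exact e2
  · rw [expect_EX μ B]
    have e2 := MG990.N899.OT_dif μ (L := ld B) (M := M) (a := ((a0 : ℕ) : ZMod (2 * m)))
      (r := j + 1) hq hβ hD f g0 hg0 t
    have e3 : (fun U : YM.Ed (e + 3) (2 * m) → G =>
        (OZ B f R (j + 1) q M (Y14.nc e q β) t (shift 1 (YM.lf U)) -
          OZ B f R (j + 1) q M (Y14.nc e q β) t (YM.lf U)) ^ 2) = fun U =>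
        (MG990.N899.OT (ld B) β (j + 1) q M ((a0 : ℕ) : ZMod (2 * m)) f t
          (YM.tr (YM.eT (Fin.last (e + 2))) U) -
          MG990.N899.OT (ld B) β (j + 1) q M ((a0 : ℕ) : ZMod (2 * m)) f t U) ^ 2 := by
      funext U
      rw [shift_lf, OZ_lf B haR β, OZ_lf B haR β, Nat.cast_one, YM.sv_one]
    rw [← e3, ← hK] at e2
    refine e2.trans (le_of_eq ?_)
    ring

lemma local_sqdiff {D R : ℕ} {F : (LinkZ (D + 1) → G) → ℝ} (hF : IsLocal R F) :
    IsLocal (R + 1) fun V => (F (shift 1 V) - F V) ^ 2 where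
  cont := (((local_shift hF 1).cont).sub hF.cont).pow 2
  inv γ V := by
    rw [hF.inv, (local_shift hF 1).inv γ V]
  loc V V' h := by
    have h1 := (local_shift hF 1).loc V V' h
    have h2 : F V = F V' := hF.loc V V' fun e he => h e fun i => ⟨(he i).1, by
      have := (he i).2
      push_cast
      linarith⟩
    rw [h1, h2]

/-- the limit of the correlations -/
lemma corr_lim {D R : ℕ} {β : ℝ} {ν : Measure (LinkZ (D + 1) → G)} {φ : ℕ → ℕ}
    (hlim : ∀ (R : ℕ) (F : (LinkZ (D + 1) → G) → ℝ),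
      IsLocal R F → Tendsto (fun j => expect (2 * (φ j + 1)) μ β F) atTop (𝓝 (∫ V, F V ∂ν)))
    {F : (LinkZ (D + 1) → G) → ℝ} (hF : IsLocal R F) (t : ℕ) :
    Tendsto (fun j => corr (2 * (φ j + 1)) μ β F t) atTop (𝓝 (corrZ ν F t)) :=
  (hlim _ _ (local_mul hF t)).sub ((hlim _ _ hF).mul (hlim _ _ (local_shift hF t)))

/-- the images of the subspaces -/
lemma map_W {f : PointGroup (e + 2) → ℝ} {R r q M : ℕ} {κ c : ℝ} (hc : 0 < c)
    {V : ((Fin (e + 2) → Fin M) → ℝ) → ℝ}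
    (hV : ∀ α, Oc B f R r q M κ α = 0 → V α = 0)
    (hV' : ∀ α t0, c * α t0 ^ 2 ≤ V α) (W : Submodule ℝ ((Fin (e + 2) → Fin M) → ℝ)) :
    ∃ W' : Submodule ℝ ((LinkZ (e + 2 + 1) → G) → ℝ), Module.finrank ℝ W' = Module.finrank ℝ W ∧
      ∀ O ∈ W', ∃ α ∈ W, O = Oc B f R r q M κ α := by
  obtain ⟨Λ, hΛ⟩ : ∃ Λ : ((Fin (e + 2) → Fin M) → ℝ) →ₗ[ℝ] ((LinkZ (e + 2 + 1) → G) → ℝ),
      ∀ α, Λ α = Oc B f R r q M κ α := by
    refine ⟨⟨⟨fun α => Oc B f R r q M κ α, fun α α' => ?_⟩, fun c α => ?_⟩, fun α => rfl⟩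
    · funext V
      unfold Oc
      rw [Pi.add_apply, ← Finset.sum_add_distrib]
      exact Finset.sum_congr rfl fun t _ => by rw [Pi.add_apply, add_mul]
    · funext V
      unfold Oc
      rw [RingHom.id_apply, Pi.smul_apply, smul_eq_mul, Finset.mul_sum]
      exact Finset.sum_congr rfl fun t _ => by rw [Pi.smul_apply, smul_eq_mul, mul_assoc]
  have hinj : Function.Injective Λ := by
    rw [injective_iff_map_eq_zero]
    intro α hα
    rw [hΛ] at hα
    have h1 := hV α hα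
    funext t0
    have h2 := hV' α t0
    rw [h1] at h2
    have h3 : α t0 ^ 2 ≤ 0 := by
      by_contra h
      push Not at h
      have := mul_pos hc h
      linarith
    have h4 : α t0 ^ 2 = 0 := le_antisymm h3 (sq_nonneg _)
    exact pow_eq_zero_iff two_ne_zero |>.1 h4
  refine ⟨W.map Λ, (LinearEquiv.finrank_eq (Submodule.equivMapOfInjective Λ hinj W)).symm,
    fun O hO => ?_⟩
  obtain ⟨α, hα, rfl⟩ := Submodule.mem_map.1 hO
  exact ⟨α, hα, hΛ α⟩

include B in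
/-- the decay of the correlations of one observable -/
lemma concl {D m R : ℕ} [NeZero m] (hm2 : 2 ≤ m) {β : ℝ} (hβ0 : 0 ≤ β) {f : PointGroup D → ℝ}
    {O : (LinkZ (D + 1) → G) → ℝ} (hO : InChannel f R O) {A q c b s x : ℝ} (hq : 0 < q)
    (hc : 0 < c) (hb : 0 < b) (hs : 0 < s) (hbc : 64 * b * q / c = A) (hAq : A ≤ q)
    (hAx : A / q ≤ x) (h1 : c / 8 * s ≤ corr (2 * m) μ β O 0)
    (h2 : expect (2 * m) μ β (fun V => (O (shift 1 V) - O V) ^ 2) ≤ 8 * b * s) :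
    0 < corr (2 * m) μ β O 0 ∧ ∀ t : ℕ, t ≤ 2 * m →
      Real.exp (-(x * t)) * corr (2 * m) μ β O 0 ≤ corr (2 * m) μ β O t := by
  have hκ : 0 < c / 8 * s := by positivity
  have e1 : 8 * b * s / (c / 8 * s) = A / q := by
    rw [← hbc]
    field_simp
    ring
  have h3 := truncZ μ B hm2 hβ0 hO.isLocal.cont hO.isLocal.inv hO.time hκ
    (lam := 8 * b * s) (by positivity) (by
      have h4 : 8 * b * s / (c / 8 * s) ≤ 1 := by
        rw [e1, div_le_one hq]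
        exact hAq
      rwa [div_le_one hκ] at h4) h1 h2
  rw [e1] at h3
  refine ⟨lt_of_lt_of_le hκ h1, fun t ht => ?_⟩
  refine le_trans (mul_le_mul_of_nonneg_right (Real.exp_le_exp.2 (neg_le_neg ?_))
    (hκ.le.trans h1)) (h3 t ht)
  exact mul_le_mul_of_nonneg_right hAx (Nat.cast_nonneg t)

/-- the choice of the scale, for all energies -/
lemma scale3 {c2 C4 : ℝ} (hc2 : 0 < c2) (hC4 : 0 < C4) {κ ν : ℕ} (hκ : 1 ≤ κ) :
    ∃ β₀ C5 : ℝ, 3 ≤ β₀ ∧ 1 ≤ C5 ∧ ∀ β : ℝ, β₀ ≤ β → ∀ x : ℝ, 0 < x →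
      x ^ κ = Real.log β ^ ν / β → ∀ E : ℝ, x ≤ E → E ≤ 1 → ∃ j : ℕ, C4 ≤ (2 : ℝ) ^ (j + 1) ∧
      c2 * (((2 : ℝ) ^ (j + 1)) ^ κ * ((j : ℝ) + 5) ^ ν) ≤ β ∧ (2 : ℝ) ^ (j + 1) * E ≤ C5 ∧
      C4 / 2 ^ (j + 1) ≤ C5 * E := by
  classical
  obtain ⟨β₀, C5, hβ₀, hC5, hsc⟩ := MG990.scale2 hc2 hC4 (κ := κ) (ν := ν) hκ
  obtain ⟨T, hT⟩ : ∃ T : ℝ, T = C5 + 2 * C4 + 2 := ⟨_, rfl⟩
  refine ⟨β₀, T, hβ₀, by rw [hT]; linarith, fun β hβ x hx hxp E hxE hE1 => ?_⟩
  obtain ⟨j0, h1, h2, h3, h4⟩ := hsc β hβ x hx hxp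
  have hE0 : 0 < E := hx.trans_le hxE
  obtain ⟨j, hj⟩ : ∃ j, j = Nat.findGreatest (fun j => (2 : ℝ) ^ (j + 1) * E ≤ T) j0 := ⟨_, rfl⟩
  have hP : (2 : ℝ) ^ (j + 1) * E ≤ T := by
    rw [hj]
    exact Nat.findGreatest_spec (P := fun j => (2 : ℝ) ^ (j + 1) * E ≤ T) (Nat.zero_le j0) (by
      show (2 : ℝ) ^ (0 + 1) * E ≤ T
      rw [hT]
      norm_num
      linarith)
  have hjj : j ≤ j0 := by rw [hj]; exact Nat.findGreatest_le _
  have hmon : c2 * (((2 : ℝ) ^ (j + 1)) ^ κ * ((j : ℝ) + 5) ^ ν) ≤ β := by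
    refine le_trans ?_ h2
    have e1 : (j : ℝ) ≤ j0 := by exact_mod_cast hjj
    have e0 : (0 : ℝ) ≤ j := Nat.cast_nonneg j
    have e2 : ((2 : ℝ) ^ (j + 1)) ^ κ ≤ ((2 : ℝ) ^ (j0 + 1)) ^ κ :=
      pow_le_pow_left₀ (by positivity) (pow_le_pow_right₀ (by norm_num) (by omega)) κ
    have e3 : ((j : ℝ) + 5) ^ ν ≤ ((j0 : ℝ) + 5) ^ ν :=
      pow_le_pow_left₀ (by positivity) (by linarith) ν
    exact mul_le_mul_of_nonneg_left (mul_le_mul e2 e3 (by positivity) (by positivity)) hc2.le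
  rcases Nat.lt_or_ge j j0 with hlt | hge
  · have hn : ¬ (2 : ℝ) ^ (j + 1 + 1) * E ≤ T := by
      have h5 := Nat.findGreatest_is_greatest (P := fun j => (2 : ℝ) ^ (j + 1) * E ≤ T) (n := j0)
        (k := j + 1) (by rw [← hj]; omega) (by omega)
      exact h5
    push Not at hn
    have h2q : (2 : ℝ) ^ (j + 1 + 1) = 2 * 2 ^ (j + 1) := by ring
    rw [h2q] at hn
    have hq0 : (0 : ℝ) < 2 ^ (j + 1) := by positivity
    have hqE : C4 ≤ 2 ^ (j + 1) * E := by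
      have : 2 * C4 ≤ T := by rw [hT]; linarith
      linarith
    refine ⟨j, ?_, hmon, hP, ?_⟩
    · refine hqE.trans ?_
      calc (2 : ℝ) ^ (j + 1) * E ≤ 2 ^ (j + 1) * 1 := mul_le_mul_of_nonneg_left hE1 hq0.le
        _ = _ := mul_one _
    · rw [div_le_iff₀ hq0]
      have h6 : 1 ≤ T := by rw [hT]; linarith
      have h7 : 0 ≤ 2 ^ (j + 1) * E := by positivity
      calc C4 ≤ 1 * (2 ^ (j + 1) * E) := by rw [one_mul]; exact hqE
        _ ≤ T * (2 ^ (j + 1) * E) := mul_le_mul_of_nonneg_right h6 h7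
        _ = _ := by ring
  · have hjeq : j = j0 := le_antisymm hjj hge
    refine ⟨j, by rw [hjeq]; exact h1, hmon, hP, ?_⟩
    rw [hjeq]
    refine h4.trans ?_
    exact mul_le_mul (by rw [hT]; linarith) hxE hx.le (by rw [hT]; linarith)

include B in
theorem main_e (hG : IsClosed (G : Set (UU N))) (hn : 1 ≤ n) (hN : 1 ≤ N) (e : ℕ) :
    ∃ C c β₀ : ℝ, 0 < C ∧ 0 < c ∧ 3 ≤ β₀ ∧ ∀ β : ℝ, β₀ ≤ β → ∀ E : ℝ,
      MG990.rate (e + 2) β ≤ E → E ≤ 1 → ∀ f : PointGroup (e + 2) → ℝ, f ≠ 0 →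
      (∀ R : ℕ, C ≤ E * R →
        (∀ (l : ℕ) [NeZero l], Even l → R < l →
          ∃ W : Submodule ℝ ((LinkZ (e + 2 + 1) → G) → ℝ),
            c * (E * R) ^ (e + 2) ≤ Module.finrank ℝ W ∧ ∀ O ∈ W, InChannel f R O ∧ (O ≠ 0 →
              0 < corr l μ β O 0 ∧ ∀ t : ℕ, t ≤ l →
                Real.exp (-(C * E * t)) * corr l μ β O 0 ≤ corr l μ β O t)) ∧
        ∀ ν : Measure (LinkZ (e + 2 + 1) → G), IsInfVol μ β ν →
          ∃ W : Submodule ℝ ((LinkZ (e + 2 + 1) → G) → ℝ),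
            c * (E * R) ^ (e + 2) ≤ Module.finrank ℝ W ∧ ∀ O ∈ W, InChannel f R O ∧ (O ≠ 0 →
              0 < corrZ ν O 0 ∧ ∀ t : ℕ,
                Real.exp (-(C * E * t)) * corrZ ν O 0 ≤ corrZ ν O t)) ∧
      ∃ (R : ℕ) (O : (LinkZ (e + 2 + 1) → G) → ℝ) (c' : ℝ), InChannel f R O ∧ 0 < c' ∧
        ∀ (l : ℕ) [NeZero l], Even l → R < l → c' ≤ corr l μ β O 0 ∧ ∀ t : ℕ, t ≤ l →
          Real.exp (-(C * E * t)) * corr l μ β O 0 ≤ corr l μ β O t := by
  obtain ⟨c2, C3, cv, hc2, hC3, hcv, hbd⟩ := bounds μ B hG hn hN e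
  obtain ⟨A, hA⟩ : ∃ A : ℝ, A = 64 * C3 / cv := ⟨_, rfl⟩
  have hA0 : 0 < A := by rw [hA]; positivity
  obtain ⟨β₀, C5, hβ₀, hC5, hsc⟩ := scale3 hc2 hA0 (κ := MG990.kap e) (ν := MG990.nul e)
    (by unfold MG990.kap; omega)
  have he0 : (0 : ℝ) ≤ e := Nat.cast_nonneg e
  have hC50 : 0 < C5 := by linarith
  obtain ⟨C, hC⟩ : ∃ C : ℝ, C = 64 * (e + 2) * C5 := ⟨_, rfl⟩
  have hC55 : C5 ≤ C := by rw [hC]; nlinarith
  refine ⟨C, 1 / (2 * (128 * (e + 2) * C5) ^ (e + 2)), β₀, by linarith, by positivity, hβ₀,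
    fun β hβ E hE hE1 f hf => ?_⟩
  have hβ3 : 3 ≤ β := hβ₀.trans hβ
  have hβ0 : 0 < β := by linarith
  obtain ⟨hx, hxp⟩ := MG990.rate_pow (e := e) hβ3
  obtain ⟨j, hq2, hq3, hq4, hq5⟩ := hsc β hβ _ hx hxp E hE hE1
  have hE0 : 0 < E := hx.trans_le hE
  obtain ⟨q, hq⟩ : ∃ q : ℕ, q = 2 ^ (j + 1) := ⟨_, rfl⟩
  have hqR : ((2 : ℝ) ^ (j + 1)) = q := by rw [hq]; push_cast; ring
  rw [hqR] at hq2 hq3 hq4 hq5
  have hq1 : 1 ≤ q := by rw [hq]; exact Nat.one_le_two_pow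
  have hq1' : (1 : ℝ) ≤ q := by exact_mod_cast hq1
  have hq0 : (0 : ℝ) < q := by linarith
  -- the largest coefficient
  have hne : Nonempty (PointGroup (e + 2)) := ⟨⟨(1, fun _ => false), rfl, rfl⟩⟩
  obtain ⟨g0, hg0⟩ := Finite.exists_max (fun g => |f g|)
  have hfg : f g0 ≠ 0 := by
    intro h
    refine hf (funext fun g => ?_)
    have h1 := hg0 g
    simp only [h, abs_zero] at h1
    exact abs_nonpos_iff.1 h1
  obtain ⟨c, hc⟩ : ∃ c : ℝ, c = cv * f g0 ^ 2 := ⟨_, rfl⟩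
  obtain ⟨b, hb⟩ : ∃ b : ℝ, b = f g0 ^ 2 * (C3 / q) := ⟨_, rfl⟩
  have hf2 : 0 < f g0 ^ 2 := by positivity
  have hc0 : 0 < c := by rw [hc]; positivity
  have hb0 : 0 < b := by rw [hb]; positivity
  have hbc : 64 * b * q / c = A := by
    rw [hb, hc, hA]
    field_simp
  have hAx : A / q ≤ C * E := hq5.trans (mul_le_mul_of_nonneg_right hC55 hE0.le)
  obtain ⟨κ, hκ⟩ : ∃ κ, κ = Y14.nc e q β := ⟨_, rfl⟩
  have hbd' : ∀ (M R a0 : ℕ), 1 ≤ M → a0 + 1 = R → 32 * q * ((e + 2) * M) + 4 * q + 1 ≤ a0 →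
      ∀ (m : ℕ) [NeZero m], R ≤ 2 * m →
      (∀ (α : (Fin (e + 2) → Fin M) → ℝ) (t0 : Fin (e + 2) → Fin M),
        c * α t0 ^ 2 ≤ corr (2 * m) μ β (Oc B f R (j + 1) q M κ α) 0) ∧
      ∀ t : Fin (e + 2) → Fin M, expect (2 * m) μ β (fun V =>
        (OZ B f R (j + 1) q M κ t (shift 1 V) - OZ B f R (j + 1) q M κ t V) ^ 2) ≤ b := by
    intro M R a0 hM haR ha m _ hRm
    have h := hbd j q hq β hβ0 hq3 M R a0 hM haR ha f g0 hg0 m hRm
    rw [← hc, ← hb, ← hκ] at h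
    exact h
  refine ⟨fun R hR => ?_, ?_⟩
  · -- the density of states
    have h64 : 64 * q * (e + 2) ≤ R := by
      have h1 : (64 * (e + 2) * q : ℝ) * C5 ≤ R * C5 := by
        calc (64 * (e + 2) * q : ℝ) * C5 = q * C := by rw [hC]; ring
          _ ≤ q * (E * R) := mul_le_mul_of_nonneg_left hR hq0.le
          _ = (q * E) * R := by ring
          _ ≤ C5 * R := mul_le_mul_of_nonneg_right hq4 (Nat.cast_nonneg R)
          _ = R * C5 := mul_comm _ _
      have h2 := le_of_mul_le_mul_right h1 hC50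
      have h3 : ((64 * q * (e + 2) : ℕ) : ℝ) ≤ R := by
        push_cast
        linarith
      exact_mod_cast h3
    obtain ⟨M, hM⟩ : ∃ M : ℕ, M = R / (64 * q * (e + 2)) := ⟨_, rfl⟩
    have hpos : 0 < 64 * q * (e + 2) := by positivity
    have hM1 : 1 ≤ M := by rw [hM]; exact (Nat.one_le_div_iff hpos).2 h64
    have hMR : 64 * q * (e + 2) * M ≤ R := by rw [hM]; exact Nat.mul_div_le _ _
    have hMR' : R ≤ 128 * q * (e + 2) * M := by
      have h1 : R < 64 * q * (e + 2) * (M + 1) := by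
        rw [hM]; exact Nat.lt_mul_div_succ R hpos
      have h2 : 64 * q * (e + 2) * (M + 1) ≤ 128 * q * (e + 2) * M := by
        have h3 : 64 * q * (e + 2) ≤ 64 * q * (e + 2) * M := Nat.le_mul_of_pos_right _ hM1
        calc 64 * q * (e + 2) * (M + 1) = 64 * q * (e + 2) * M + 64 * q * (e + 2) := by ring
          _ ≤ 64 * q * (e + 2) * M + 64 * q * (e + 2) * M := by omega
          _ = _ := by ring
      omega
    have h128 : 128 * q ≤ R := by
      have h1 : 128 * q ≤ 64 * q * (e + 2) := by nlinarith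
      omega
    have hS : 2 * (32 * q * ((e + 2) * M)) ≤ R := by
      calc 2 * (32 * q * ((e + 2) * M)) = 64 * q * (e + 2) * M := by ring
        _ ≤ R := hMR
    have hS' : 2 * (16 * q * ((e + 2) * M)) = 32 * q * ((e + 2) * M) := by ring
    obtain ⟨a0, ha0⟩ : ∃ a0, a0 + 1 = R := ⟨R - 1, by omega⟩
    have ha : 32 * q * ((e + 2) * M) + 4 * q + 1 ≤ a0 := by omega
    have hR16 : 16 * q * ((e + 2) * M) + 7 * q + 2 ≤ R := by omega
    have hch : ∀ α, InChannel f R (Oc B f R (j + 1) q M κ α) := fun α =>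
      Oc_channel B hq1 hq hR16 κ f α
    have hcard : Fintype.card (Fin (e + 2) → Fin M) = M ^ (e + 2) := by simp
    have hdim : ∀ k : ℕ, Fintype.card (Fin (e + 2) → Fin M) ≤ 2 * k →
        1 / (2 * (128 * (e + 2) * C5) ^ (e + 2)) * (E * R) ^ (e + 2) ≤ (k : ℝ) := by
      intro k hk
      rw [hcard] at hk
      have h1 : (M : ℝ) ^ (e + 2) ≤ 2 * k := by exact_mod_cast hk
      have h2 : E * R ≤ (128 * (e + 2) * C5) * M := by
        have h3 : (R : ℝ) ≤ 128 * q * (e + 2) * M := by exact_mod_cast hMR'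
        calc E * R ≤ E * (128 * q * (e + 2) * M) := mul_le_mul_of_nonneg_left h3 hE0.le
          _ = 128 * (e + 2) * M * (q * E) := by ring
          _ ≤ 128 * (e + 2) * M * C5 := mul_le_mul_of_nonneg_left hq4 (by positivity)
          _ = _ := by ring
      have h3 : (E * R) ^ (e + 2) ≤ (128 * (e + 2) * C5) ^ (e + 2) * (2 * k) := by
        calc (E * R) ^ (e + 2) ≤ ((128 * (e + 2) * C5) * M) ^ (e + 2) :=
              pow_le_pow_left₀ (by positivity) h2 _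
          _ = (128 * (e + 2) * C5) ^ (e + 2) * M ^ (e + 2) := mul_pow _ _ _
          _ ≤ _ := mul_le_mul_of_nonneg_left h1 (by positivity)
      rw [one_div, inv_mul_le_iff₀ (by positivity)]
      linarith
    have hOcE : ∀ α, Oc B f R (j + 1) q M κ α = fun V => ∑ t, α t * OZ B f R (j + 1) q M κ t V :=
      fun α => rfl
    have hs : ∀ α : (Fin (e + 2) → Fin M) → ℝ, Oc B f R (j + 1) q M κ α ≠ 0 →
        0 < ∑ i, α i ^ 2 := by
      intro α hα
      by_contra h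
      have h1 : ∑ i, α i ^ 2 = 0 :=
        le_antisymm (not_lt.1 h) (Finset.sum_nonneg fun _ _ => sq_nonneg _)
      have h2 : ∀ i, α i = 0 := by
        intro i
        have := (Finset.sum_eq_zero_iff_of_nonneg fun i _ => sq_nonneg (α i)).1 h1 i
          (Finset.mem_univ i)
        exact pow_eq_zero_iff two_ne_zero |>.1 this
      refine hα (funext fun V => ?_)
      rw [hOcE]
      simp [h2]
    refine ⟨fun l _ hl hRl => ?_, fun ν hν => ?_⟩
    · obtain ⟨m, rfl⟩ := even_iff_two_dvd.1 hl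
      have hm0 : NeZero m := ⟨by rintro rfl; omega⟩
      obtain ⟨P1, P2⟩ := hbd' M R a0 hM1 ha0 ha m hRl.le
      have hEx := ex_fin (d := e + 2 + 1) (l := 2 * m) μ B β
      obtain ⟨W0, hW1, hW2⟩ := hEx.sub_space (O := OZ B f R (j + 1) q M κ)
        (fun t => OZ_cont B f R (j + 1) q M κ t) (S := shift 1)
        (continuous_pi fun e => continuous_apply _) hc0 hb0 (fun α t0 => by
          have h := P1 α t0
          rw [corr_zero, hOcE] at h
          exact h) P2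
      obtain ⟨W, hWf, hWO⟩ := map_W (B := B) (f := f) (R := R) (r := j + 1) (q := q) (M := M)
        (κ := κ) hc0 (V := fun α => corr (2 * m) μ β (Oc B f R (j + 1) q M κ α) 0)
        (fun α hα => by
          rw [hα, corr_zero]
          have h1 := hEx.const 0
          have h2 : (fun V : LinkZ (e + 2 + 1) → G => (0 : (LinkZ (e + 2 + 1) → G) → ℝ) V *
            (0 : (LinkZ (e + 2 + 1) → G) → ℝ) V) = fun _ => 0 := by funext V; simp
          rw [h2, h1]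
          have h3 : (0 : (LinkZ (e + 2 + 1) → G) → ℝ) = fun _ => 0 := rfl
          rw [h3, h1]
          ring) P1 W0
      refine ⟨W, by rw [hWf]; exact hdim _ hW1, fun O hO => ?_⟩
      obtain ⟨α, hα, rfl⟩ := hWO O hO
      refine ⟨hch α, fun hO0 => ?_⟩
      obtain ⟨w1, w2⟩ := hW2 α hα
      have hs0 := hs α hO0
      refine concl μ B (by omega) hβ0.le (hch α) hq0 hc0 hb0 hs0 hbc hq2 hAx ?_ ?_
      · rw [corr_zero, hOcE]
        refine le_trans ?_ w1
        have := mul_pos hc0 hs0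
        linarith
      · refine le_trans (le_of_eq ?_) (w2.trans ?_)
        · rfl
        · have := mul_pos hb0 hs0
          linarith
    · have := hν.prob
      obtain ⟨φ, hφ, hlim⟩ := hν.lim
      have hEx := ex_inf (d := e + 2 + 1) ν
      have hloc : ∀ α, IsLocal R (Oc B f R (j + 1) q M κ α) := fun α => (hch α).isLocal
      have P1 : ∀ (α : (Fin (e + 2) → Fin M) → ℝ) (t0 : Fin (e + 2) → Fin M),
          c * α t0 ^ 2 ≤ corrZ ν (Oc B f R (j + 1) q M κ α) 0 := by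
        intro α t0
        refine ge_of_tendsto (corr_lim μ hlim (hloc α) 0) ?_
        filter_upwards [hφ.eventually_ge_atTop R] with i hi
        exact (hbd' M R a0 hM1 ha0 ha (φ i + 1) (by omega)).1 α t0
      have P2 : ∀ t : Fin (e + 2) → Fin M, ∫ V, (OZ B f R (j + 1) q M κ t (shift 1 V) -
          OZ B f R (j + 1) q M κ t V) ^ 2 ∂ν ≤ b := by
        intro t
        have h1 : IsLocal R (OZ B f R (j + 1) q M κ t) := by
          rw [← Oc_single]
          exact hloc _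
        refine le_of_tendsto (hlim _ _ (local_sqdiff h1)) ?_
        filter_upwards [hφ.eventually_ge_atTop R] with i hi
        exact (hbd' M R a0 hM1 ha0 ha (φ i + 1) (by omega)).2 t
      obtain ⟨W0, hW1, hW2⟩ := hEx.sub_space (O := OZ B f R (j + 1) q M κ)
        (fun t => OZ_cont B f R (j + 1) q M κ t) (S := shift 1)
        (continuous_pi fun e => continuous_apply _) hc0 hb0 (fun α t0 => by
          have h := P1 α t0
          rw [corrZ_zero, hOcE] at h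
          exact h) P2
      obtain ⟨W, hWf, hWO⟩ := map_W (B := B) (f := f) (R := R) (r := j + 1) (q := q) (M := M)
        (κ := κ) hc0 (V := fun α => corrZ ν (Oc B f R (j + 1) q M κ α) 0)
        (fun α hα => by
          rw [hα, corrZ_zero]
          simp) P1 W0
      refine ⟨W, by rw [hWf]; exact hdim _ hW1, fun O hO => ?_⟩
      obtain ⟨α, hα, rfl⟩ := hWO O hO
      refine ⟨hch α, fun hO0 => ?_⟩
      obtain ⟨w1, w2⟩ := hW2 α hα
      have hs0 := hs α hO0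
      have hcs := mul_pos hc0 hs0
      have hbs := mul_pos hb0 hs0
      have w1' : c / 4 * ∑ i, α i ^ 2 ≤ corrZ ν (Oc B f R (j + 1) q M κ α) 0 := by
        rw [corrZ_zero, hOcE]
        exact w1
      refine ⟨lt_of_lt_of_le (by linarith) w1', fun t => ?_⟩
      refine le_of_tendsto_of_tendsto ((corr_lim μ hlim (hloc α) 0).const_mul _)
        (corr_lim μ hlim (hloc α) t) ?_
      have ev1 := (corr_lim μ hlim (hloc α) 0).eventually_const_lt
        (show c / 8 * ∑ i, α i ^ 2 < corrZ ν (Oc B f R (j + 1) q M κ α) 0 by linarith)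
      have ev2 := (hlim _ _ (local_sqdiff (hloc α))).eventually_lt_const
        (show ∫ V, (Oc B f R (j + 1) q M κ α (shift 1 V) - Oc B f R (j + 1) q M κ α V) ^ 2 ∂ν <
          8 * b * ∑ i, α i ^ 2 by
            refine lt_of_le_of_lt (le_trans (le_of_eq ?_) w2) (by linarith)
            rfl)
      filter_upwards [ev1, ev2, hφ.eventually_ge_atTop (R + t)] with i h1 h2 h3
      exact (concl μ B (by omega) hβ0.le (hch α) hq0 hc0 hb0 hs0 hbc hq2 hAx h1.le h2.le).2 t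
        (by omega)
  · -- one observable
    obtain ⟨R, hR⟩ : ∃ R : ℕ, R = 64 * q * (e + 2) := ⟨_, rfl⟩
    have h1 : 128 * q ≤ R := by rw [hR]; nlinarith
    have h2 : 2 * (32 * q * ((e + 2) * 1)) = R := by rw [hR]; ring
    have h3 : 2 * (16 * q * ((e + 2) * 1)) = 32 * q * ((e + 2) * 1) := by ring
    obtain ⟨a0, ha0⟩ : ∃ a0, a0 + 1 = R := ⟨R - 1, by omega⟩
    have ha : 32 * q * ((e + 2) * 1) + 4 * q + 1 ≤ a0 := by omega
    have hR16 : 16 * q * ((e + 2) * 1) + 7 * q + 2 ≤ R := by omega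
    obtain ⟨t0, ht0⟩ : ∃ t0 : Fin (e + 2) → Fin 1, t0 = fun _ => 0 := ⟨_, rfl⟩
    have hch := Oc_channel B hq1 hq hR16 κ f (Pi.single t0 1)
    refine ⟨R, Oc B f R (j + 1) q 1 κ (Pi.single t0 1), c, hch, hc0, fun l _ hl hRl => ?_⟩
    obtain ⟨m, rfl⟩ := even_iff_two_dvd.1 hl
    have hm0 : NeZero m := ⟨by rintro rfl; omega⟩
    obtain ⟨P1, P2⟩ := hbd' 1 R a0 le_rfl ha0 ha m hRl.le
    have h4 := P1 (Pi.single t0 1) t0
    rw [Pi.single_eq_same, one_pow, mul_one] at h4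
    have h5 := P2 t0
    rw [← Oc_single] at h5
    refine ⟨h4, (concl μ B (by omega) hβ0.le hch hq0 hc0 hb0 one_pos hbc hq2 hAx ?_ ?_).2⟩
    · linarith
    · linarith

end bridge

lemma rate_le_one {D : ℕ} (hD : 2 ≤ D) {β : ℝ} (hβ : 3 ≤ β) : MG990.rate D β ≤ 1 := by
  have hβ0 : 0 < β := by linarith
  have hlog : 0 < Real.log β := Real.log_pos (by linarith)
  unfold MG990.rate
  split_ifs with h
  · rw [div_le_one (Real.sqrt_pos.2 hβ0)]
    obtain ⟨y, hy⟩ : ∃ y, y = Real.sqrt (Real.sqrt β) := ⟨_, rfl⟩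
    have hy0 : 0 < y := by rw [hy]; exact Real.sqrt_pos.2 (Real.sqrt_pos.2 hβ0)
    have h1 : y ^ 2 = Real.sqrt β := by rw [hy]; exact Real.sq_sqrt (Real.sqrt_nonneg _)
    have h2 : β = y ^ 4 := by
      have h3 : y ^ 4 = (y ^ 2) ^ 2 := by ring
      rw [h3, h1, Real.sq_sqrt hβ0.le]
    have h3 : Real.log β = 4 * Real.log y := by
      rw [h2, Real.log_pow]; norm_num
    have h4 := Real.log_le_sub_one_of_pos hy0
    rw [h3, ← h1]
    nlinarith [sq_nonneg (y - 2)]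
  · refine Real.rpow_le_one (by positivity) ?_ ?_
    · rw [div_le_one hβ0]
      have := Real.log_le_sub_one_of_pos hβ0
      linarith
    · have : (2 : ℝ) ≤ D := by exact_mod_cast hD
      exact div_nonneg zero_le_one (by linarith)

theorem main {N n D : ℕ} (G : Subgroup (UU N)) (hG : IsClosed (G : Set (UU N)))
    [MeasurableSpace G] [BorelSpace G] (μ : Measure G) [IsProbabilityMeasure μ] [μ.IsHaarMeasure]
    (B : LieBasis G n) (hn : 1 ≤ n) (hD : 2 ≤ D) :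
    ∃ C c β₀ : ℝ, 0 < C ∧ 0 < c ∧ 1 < β₀ ∧ ∀ β : ℝ, β₀ ≤ β →
      (∀ E : ℝ, MG990.rate D β ≤ E → E ≤ 1 → ∀ f : PointGroup D → ℝ, f ≠ 0 →
        ∀ R : ℕ, C ≤ E * R →
        (∀ (l : ℕ) [NeZero l], Even l → R < l →
          ∃ W : Submodule ℝ ((LinkZ (D + 1) → G) → ℝ),
            c * (E * R) ^ D ≤ Module.finrank ℝ W ∧ ∀ O ∈ W, InChannel f R O ∧ (O ≠ 0 →
              0 < corr l μ β O 0 ∧ ∀ t : ℕ, t ≤ l →
                Real.exp (-(C * E * t)) * corr l μ β O 0 ≤ corr l μ β O t)) ∧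
        ∀ ν : Measure (LinkZ (D + 1) → G), IsInfVol μ β ν →
          ∃ W : Submodule ℝ ((LinkZ (D + 1) → G) → ℝ),
            c * (E * R) ^ D ≤ Module.finrank ℝ W ∧ ∀ O ∈ W, InChannel f R O ∧ (O ≠ 0 →
              0 < corrZ ν O 0 ∧ ∀ t : ℕ,
                Real.exp (-(C * E * t)) * corrZ ν O 0 ≤ corrZ ν O t)) ∧
      (∀ f : PointGroup D → ℝ, f ≠ 0 →
        (∀ M : ℝ, Clusters f μ β M → M ≤ C * MG990.rate D β) ∧
        ∀ ν : Measure (LinkZ (D + 1) → G), IsInfVol μ β ν → ∀ M : ℝ, ClustersZ f ν M →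
          M ≤ C * MG990.rate D β) ∧
      ∃ ν : Measure (LinkZ (D + 1) → G), IsInfVol μ β ν := by
  have : CompactSpace G := by
    have h1 : IsCompact (G : Set (UU N)) := hG.isCompact
    exact isCompact_iff_compactSpace.1 h1
  have h00 : SecondCountableTopology (UU N) := TopologicalSpace.Subtype.secondCountableTopology _
  have : SecondCountableTopology G := TopologicalSpace.Subtype.secondCountableTopology _
  obtain ⟨e, rfl⟩ : ∃ e, D = e + 2 := ⟨D - 2, by omega⟩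
  have hN : 1 ≤ N := by
    rcases Nat.eq_zero_or_pos N with h | h
    · subst h
      have h1 := B.orth ⟨0, hn⟩ ⟨0, hn⟩
      rw [if_pos rfl] at h1
      have h2 : trace ((B.X ⟨0, hn⟩)ᴴ * B.X ⟨0, hn⟩) = 0 := by
        unfold Matrix.trace
        exact Finset.sum_empty
      rw [h2] at h1
      norm_num at h1
    · exact h
  obtain ⟨C, c, β₀, hC, hc, hβ₀, hmain⟩ := main_e μ B hG hn hN e
  refine ⟨C, c, β₀, hC, hc, by linarith, fun β hβ => ?_⟩
  have hβ3 : 3 ≤ β := hβ₀.trans hβ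
  have hr1 := rate_le_one (D := e + 2) (by omega) hβ3
  have hr0 := (MG990.rate_pow (e := e) hβ3).1
  refine ⟨fun E hE hE1 f hf R hR => (hmain β hβ E hE hE1 f hf).1 R hR, fun f hf => ?_,
    exists_infVol μ B β⟩
  obtain ⟨h1, R, O, c', hO, hc', h2⟩ := hmain β hβ _ le_rfl hr1 f hf
  refine ⟨fun M hM => ?_, fun ν hν M hM => ?_⟩
  · obtain ⟨K, l₀, hK⟩ := hM R O hO
    refine Y14.Wilson.rate (K := K) hc' fun t ht => ?_
    obtain ⟨l, hl⟩ : ∃ l, l = 2 * (l₀ + R + t + 1) := ⟨_, rfl⟩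
    have : NeZero l := ⟨by omega⟩
    have h3 : Even l := by rw [hl]; exact even_two_mul _
    obtain ⟨h4, h5⟩ := h2 l h3 (by omega)
    refine le_trans ?_ ((h5 t (by omega)).trans ((le_abs_self _).trans (hK l h3 (by omega) t
      (by omega))))
    rw [mul_comm]
    exact mul_le_mul_of_nonneg_left h4 (Real.exp_pos _).le
  · obtain ⟨R', hR'⟩ : ∃ R' : ℕ, R' = ⌈C / MG990.rate (e + 2) β⌉₊ := ⟨_, rfl⟩
    have hCR : C ≤ MG990.rate (e + 2) β * R' := by
      have h3 := Nat.le_ceil (C / MG990.rate (e + 2) β)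
      rw [← hR', div_le_iff₀ hr0] at h3
      linarith
    obtain ⟨W, hW, hWO⟩ := (h1 R' hCR).2 ν hν
    have hW0 : 0 < Module.finrank ℝ W := by
      have h3 : (0 : ℝ) < Module.finrank ℝ W := by
        refine lt_of_lt_of_le ?_ hW
        have : 0 < MG990.rate (e + 2) β * R' := lt_of_lt_of_le hC hCR
        positivity
      exact_mod_cast h3
    have hnt : Nontrivial W := Module.nontrivial_of_finrank_pos hW0
    obtain ⟨⟨O', hO'⟩, hne⟩ := exists_ne (0 : W)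
    have hne' : O' ≠ 0 := fun h => hne (Subtype.ext h)
    obtain ⟨hch, h3⟩ := hWO O' hO'
    obtain ⟨h4, h5⟩ := h3 hne'
    obtain ⟨K, hK⟩ := hM R' O' hch
    refine Y14.Wilson.rate (K := K) h4 fun t ht => ?_
    rw [mul_comm]
    exact (h5 t).trans ((le_abs_self _).trans (hK t))

end

end Pool.Agent.N899.Channel
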