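import Mathlib
import Pool.Agent.R990.MG.Var2
import Pool.Agent.N899.YM.CVar

/-!
# The phase of the observable is not determined by functions which are not affected by the shift
-/

open MeasureTheory Matrix Filter
open scoped Matrix.Norms.Frobenius Topology
open Pool.Agent.H906R3.YM hiding Pl
open Pool.Agent.W793.YM Pool.Agent.TH618.YM Pool.Agent.Y14 Pool.Agent.MG990

namespace Pool.Agent.MG990.N899

set_option linter.unusedSectionVars false
set_option linter.unusedVariables false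

noncomputable section

variable {G : Type*} [Group G] [TopologicalSpace G] [IsTopologicalGroup G] [CompactSpace G]
  [SecondCountableTopology G] [MeasurableSpace G] [BorelSpace G] (μ : Measure G)
  [IsProbabilityMeasure μ] [μ.IsMulLeftInvariant] [μ.IsMulRightInvariant] [μ.IsInvInvariant]
  {N n : ℕ} {L : LD G N n}

section un

variable {e m : ℕ} [NeZero m] {q : ℕ} {β : ℝ} {r : ℕ}

variable (L) in
/-- the squared distance of the phase and of `(Y₁, Y₂)` -/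
def HY (r q : ℕ) (ω : ℝ) (Y1 Y2 : (Ed (e + 3) (2 * m) → G) → ℝ) (U : Ed (e + 3) (2 * m) → G) : ℝ :=
  (Real.cos (ω * ‖psi L r q U‖) - Y1 U) ^ 2 + (Real.sin (ω * ‖psi L r q U‖) - Y2 U) ^ 2

lemma HY_cont {Y1 Y2 : (Ed (e + 3) (2 * m) → G) → ℝ} (h1 : Continuous Y1) (h2 : Continuous Y2)
    (ω : ℝ) : Continuous fun U : Ed (e + 3) (2 * m) → G => HY L r q ω Y1 Y2 U := by
  have h0 : Continuous fun U : Ed (e + 3) (2 * m) → G => ω * ‖psi L r q U‖ :=
    continuous_const.mul psi_cont.norm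
  exact (((Real.continuous_cos.comp h0).sub h1).pow 2).add
    (((Real.continuous_sin.comp h0).sub h2).pow 2)

lemma HY_nonneg {Y1 Y2 : (Ed (e + 3) (2 * m) → G) → ℝ} (ω : ℝ) (U : Ed (e + 3) (2 * m) → G) :
    0 ≤ HY L r q ω Y1 Y2 U := add_nonneg (sq_nonneg _) (sq_nonneg _)

lemma nrm_move (P P' X : Mat N) {x y : ℝ} (h1 : ‖P' - P - X‖ ≤ x) (h2 : ‖X‖ = y) :
    |‖P'‖ - ‖P‖| ≤ y + x := by
  have k4 : |‖P'‖ - ‖P‖| ≤ ‖P' - P‖ := abs_norm_sub_norm_le _ _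
  have k5 : ‖P' - P‖ ≤ ‖P' - P - X‖ + ‖X‖ := by
    have := norm_add_le (P' - P - X) X
    rwa [sub_add_cancel] at this
  linarith

lemma hdiff_l (hq : 1 ≤ q) (hqr : q = 2 ^ r) (hqm : 5 * q < 2 * m)
    {s : ℝ} (hs : 0 < s) {y : ℝ} (hy : y = s * Kb e q m) (a : Fin n) {s' : ℝ}
    (hs' : |s'| = s) (U : Ed (e + 3) (2 * m) → G) :
    |‖psi L r q (Ps L q a s' U)‖ - ‖psi L r q U‖| ≤ y + s * Er L r q s U := by
  have k1 := psi_resp (L := L) hq hqr hqm a s' U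
  have k2 : Er L r q s' U = Er L r q s U := by
    unfold Er
    rw [hs', abs_of_pos hs]
  have k3 : ‖(s' * Kb e q m) • L.X a‖ = y := by
    rw [norm_smul, norm_X, mul_one, Real.norm_eq_abs, abs_mul, hs', hy]
    have : 0 ≤ Kb e q m := by
      have h5 := Kb_ge (e := e) (m := m) hq hqm
      exact le_trans (by positivity) h5
    rw [abs_of_nonneg this]
  rw [k2, hs'] at k1
  exact nrm_move _ _ _ k1 k3

/-- the pointwise comparison, real numbers -/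
lemma phase_real {n : ℝ} (hn0 : 1 ≤ n) {A A' y t ρ ω Y1 Y2 : ℝ} (hy0 : 0 < y)
    (ht : t = 1 / (16 * n) * y) (hω : ω = 1 / (2 * y)) (hρ0 : 0 ≤ ρ)
    (hdiff : |A' - A| ≤ y + t * ρ) :
    min 1 (((A' - A) / t) ^ 2) ≤
      2560 * n ^ 2 * (2 * ((Real.cos (ω * A) - Y1) ^ 2 + (Real.sin (ω * A) - Y2) ^ 2) +
        2 * ((Real.cos (ω * A') - Y1) ^ 2 + (Real.sin (ω * A') - Y2) ^ 2)) + ρ ^ 2 := by
  have ht0 : 0 < t := by rw [ht]; positivity
  have hω0 : 0 < ω := by rw [hω]; positivity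
  by_cases hρ1 : ρ ≤ 1
  · -- the phase moves by less than `π`
    obtain ⟨x, hx⟩ : ∃ x, x = ω * A' - ω * A := ⟨_, rfl⟩
    have hxA : (A' - A) / t = 32 * n * x := by
      rw [hx, ht, hω]
      field_simp
      ring
    have hxπ : |x| ≤ Real.pi := by
      have k1 : |x| = ω * |A' - A| := by
        rw [hx, ← mul_sub, abs_mul, abs_of_pos hω0]
      have k2 : ω * (y + t * ρ) ≤ 1 := by
        have k3 : t * ρ ≤ y := by
          calc t * ρ ≤ t * 1 := mul_le_mul_of_nonneg_left hρ1 ht0.le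
            _ = t := mul_one _
            _ ≤ 1 * y := by
                rw [ht]
                refine mul_le_mul_of_nonneg_right ?_ hy0.le
                rw [div_le_one (by positivity)]
                linarith
            _ = y := one_mul _
        calc ω * (y + t * ρ) ≤ ω * (y + y) := mul_le_mul_of_nonneg_left (by linarith) hω0.le
          _ = 1 := by rw [hω]; field_simp; norm_num
      rw [k1]
      have k4 := Real.pi_gt_three
      have k5 := mul_le_mul_of_nonneg_left hdiff hω0.le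
      linarith
    have hcos := Real.cos_le_one_sub_mul_cos_sq hxπ
    have hπ : Real.pi ^ 2 ≤ 10 := by
      have := Real.pi_lt_d2
      have := Real.pi_pos
      nlinarith
    have hπ0 : 0 < Real.pi ^ 2 := by positivity
    have hx2 : x ^ 2 ≤ 5 / 2 * (2 - 2 * Real.cos x) := by
      have k1 : 2 / Real.pi ^ 2 * x ^ 2 ≤ 1 - Real.cos x := by linarith
      have k2 : x ^ 2 * 2 ≤ (1 - Real.cos x) * Real.pi ^ 2 := by
        rw [div_mul_eq_mul_div, div_le_iff₀ hπ0] at k1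
        linarith
      have k3 : 0 ≤ 1 - Real.cos x := by
        have := Real.cos_le_one x; linarith
      nlinarith
    have hc2 : 2 - 2 * Real.cos x = (Real.cos (ω * A') - Real.cos (ω * A)) ^ 2 +
        (Real.sin (ω * A') - Real.sin (ω * A)) ^ 2 := by
      rw [hx, Real.cos_sub]
      nlinarith [Real.sin_sq_add_cos_sq (ω * A), Real.sin_sq_add_cos_sq (ω * A')]
    have hH : 2 - 2 * Real.cos x ≤ 2 * ((Real.cos (ω * A) - Y1) ^ 2 +
        (Real.sin (ω * A) - Y2) ^ 2) + 2 * ((Real.cos (ω * A') - Y1) ^ 2 +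
        (Real.sin (ω * A') - Y2) ^ 2) := by
      rw [hc2]
      nlinarith [sq_nonneg ((Real.cos (ω * A') - Y1) + (Real.cos (ω * A) - Y1)),
        sq_nonneg ((Real.sin (ω * A') - Y2) + (Real.sin (ω * A) - Y2))]
    refine (min_le_right _ _).trans ?_
    rw [hxA]
    have k1 : (32 * n * x) ^ 2 = 1024 * n ^ 2 * x ^ 2 := by ring
    rw [k1]
    have k2 := mul_le_mul_of_nonneg_left (hx2.trans (mul_le_mul_of_nonneg_left hH
      (by norm_num))) (show 0 ≤ 1024 * n ^ 2 by positivity)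
    have k3 := sq_nonneg ρ
    nlinarith
  · push Not at hρ1
    refine (min_le_left _ _).trans ?_
    have k1 : 0 ≤ 2560 * n ^ 2 * (2 * ((Real.cos (ω * A) - Y1) ^ 2 +
        (Real.sin (ω * A) - Y2) ^ 2) + 2 * ((Real.cos (ω * A') - Y1) ^ 2 +
        (Real.sin (ω * A') - Y2) ^ 2)) := by positivity
    nlinarith

/-- the pointwise comparison -/
lemma phase_pt (hq : 1 ≤ q) (hqr : q = 2 ^ r) (hqm : 5 * q < 2 * m) (hn : 1 ≤ n)
    {s : ℝ} (hs : 0 < s) {y : ℝ} (hy : y = s * Kb e q m) (hy0 : 0 < y) {t : ℝ}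
    (ht : t = 1 / (16 * n) * y) {ω : ℝ} (hω : ω = 1 / (2 * y)) (a : Fin n) {s' : ℝ}
    (hs' : |s'| = s) (U : Ed (e + 3) (2 * m) → G) {Y1 Y2 : (Ed (e + 3) (2 * m) → G) → ℝ}
    (h1 : Y1 (Ps L q a s' U) = Y1 U) (h2 : Y2 (Ps L q a s' U) = Y2 U) :
    min 1 (Wd L r q ‖psi L r q U‖ t (Ps L q a s' U)) ≤
      2560 * n ^ 2 * (2 * HY L r q ω Y1 Y2 U + 2 * HY L r q ω Y1 Y2 (Ps L q a s' U)) +
        (s / t * Er L r q s U) ^ 2 := by
  have hn0 : (1 : ℝ) ≤ n := by exact_mod_cast hn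
  have ht0 : 0 < t := by rw [ht]; positivity
  have hρ0 : 0 ≤ s / t * Er L r q s U := mul_nonneg (by positivity) (Er_nonneg _ _)
  have k6 : t * (s / t * Er L r q s U) = s * Er L r q s U := by
    rw [← mul_assoc, mul_div_cancel₀ _ ht0.ne']
  have hdiff : |‖psi L r q (Ps L q a s' U)‖ - ‖psi L r q U‖| ≤
      y + t * (s / t * Er L r q s U) :=
    (hdiff_l hq hqr hqm hs hy a hs' U).trans (le_of_eq (by rw [k6]))
  have key := phase_real (Y1 := Y1 U) (Y2 := Y2 U) hn0 hy0 ht hω hρ0 hdiff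
  unfold HY Wd
  rw [h1, h2]
  exact key

/-- the averaged union bound for the phase -/
lemma union_H {Y1 Y2 : (Ed (e + 3) (2 * m) → G) → ℝ} (hY1 : Continuous Y1) (hY2 : Continuous Y2)
    (hb1 : ∀ U, |Y1 U| ≤ 1) (hb2 : ∀ U, |Y2 U| ≤ 1)
    (hs1 : ∀ (a : Fin n) (s : ℝ) (U : Ed (e + 3) (2 * m) → G), Y1 (Ps L q a s U) = Y1 U)
    (hs2 : ∀ (a : Fin n) (s : ℝ) (U : Ed (e + 3) (2 * m) → G), Y2 (Ps L q a s U) = Y2 U)
    (hn : 1 ≤ n) (hq : 1 ≤ q) (hqr : q = 2 ^ r) (hqm : 5 * q < 2 * m) {C0 : ℝ} (hC0 : 0 ≤ C0)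
    (hcar : ∀ g : G, dv L g ^ 2 ≤ ∑ a, fi L a g ^ 2 + C0 * dv L g ^ 4) {s : ℝ} (hs : 0 < s)
    {y : ℝ} (hy : y = s * Kb e q m) (hy0 : 0 < y) {t : ℝ} (ht : t = 1 / (16 * n) * y)
    {ω : ℝ} (hω : ω = 1 / (2 * y))
    {X : ℝ} (hX : ∀ a : Fin n, EX μ L β (fun U : Ed (e + 3) (2 * m) → G => XX L β q a s U) ≤ X)
    (hX' : ∀ a : Fin n, EX μ L β (fun U : Ed (e + 3) (2 * m) → G => XX L β q a (-s) U) ≤ X) :
    1 ≤ 40960 * n ^ 3 * EX μ L β (fun U : Ed (e + 3) (2 * m) → G => HY L r q ω Y1 Y2 U) +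
      245760 * n ^ 3 * X +
      (1 + 2 * n) * (s / t * en μ L β (fun U : Ed (e + 3) (2 * m) → G => Er L r q s U)) ^ 2 +
      1 / y * EX μ L β (fun U : Ed (e + 3) (2 * m) → G => Nr L C0 r q U) := by
  have hn0 : (1 : ℝ) ≤ n := by exact_mod_cast hn
  have cH := HY_cont (L := L) (r := r) (q := q) hY1 hY2 ω
  have cHs : ∀ (a : Fin n) (s : ℝ), Continuous fun U : Ed (e + 3) (2 * m) → G =>
      HY L r q ω Y1 Y2 (Ps L q a s U) := fun a s => cH.comp (Ps_cont a s)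
  have c0 : ∀ (a : Fin n) (s : ℝ), Continuous fun U : Ed (e + 3) (2 * m) → G =>
      2 * HY L r q ω Y1 Y2 U + 2 * HY L r q ω Y1 Y2 (Ps L q a s U) := fun a s =>
    (continuous_const.mul cH).add (continuous_const.mul (cHs a s))
  have cE : Continuous fun U : Ed (e + 3) (2 * m) → G => (s / t * Er L r q s U) ^ 2 :=
    (continuous_const.mul (Er_cont s)).pow 2
  have cE' : Continuous fun U : Ed (e + 3) (2 * m) → G =>
      (1 + 2 * (n : ℝ)) * (s / t * Er L r q s U) ^ 2 := continuous_const.mul cE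
  have cN : Continuous fun U : Ed (e + 3) (2 * m) → G => 1 / y * Nr L C0 r q U :=
    continuous_const.mul Nr_cont
  have cS1 : ∀ a : Fin n, Continuous fun U : Ed (e + 3) (2 * m) → G =>
      (2 * HY L r q ω Y1 Y2 U + 2 * HY L r q ω Y1 Y2 (Ps L q a s U)) +
      (2 * HY L r q ω Y1 Y2 U + 2 * HY L r q ω Y1 Y2 (Ps L q a (-s) U)) := fun a =>
    (c0 a s).add (c0 a (-s))
  have cS : Continuous fun U : Ed (e + 3) (2 * m) → G =>
      ∑ a : Fin n, ((2 * HY L r q ω Y1 Y2 U + 2 * HY L r q ω Y1 Y2 (Ps L q a s U)) +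
      (2 * HY L r q ω Y1 Y2 U + 2 * HY L r q ω Y1 Y2 (Ps L q a (-s) U))) :=
    continuous_finsetSum _ fun a _ => cS1 a
  have cS' : Continuous fun U : Ed (e + 3) (2 * m) → G => (2560 * (n : ℝ) ^ 2) *
      ∑ a : Fin n, ((2 * HY L r q ω Y1 Y2 U + 2 * HY L r q ω Y1 Y2 (Ps L q a s U)) +
      (2 * HY L r q ω Y1 Y2 U + 2 * HY L r q ω Y1 Y2 (Ps L q a (-s) U))) :=
    continuous_const.mul cS
  have c2 : Continuous fun U : Ed (e + 3) (2 * m) → G => (2560 * (n : ℝ) ^ 2) *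
      ∑ a : Fin n, ((2 * HY L r q ω Y1 Y2 U + 2 * HY L r q ω Y1 Y2 (Ps L q a s U)) +
      (2 * HY L r q ω Y1 Y2 U + 2 * HY L r q ω Y1 Y2 (Ps L q a (-s) U))) +
      (1 + 2 * (n : ℝ)) * (s / t * Er L r q s U) ^ 2 := cS'.add cE'
  have c3 : Continuous fun U : Ed (e + 3) (2 * m) → G => (2560 * (n : ℝ) ^ 2) *
      ∑ a : Fin n, ((2 * HY L r q ω Y1 Y2 U + 2 * HY L r q ω Y1 Y2 (Ps L q a s U)) +
      (2 * HY L r q ω Y1 Y2 U + 2 * HY L r q ω Y1 Y2 (Ps L q a (-s) U))) +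
      (1 + 2 * (n : ℝ)) * (s / t * Er L r q s U) ^ 2 + 1 / y * Nr L C0 r q U := c2.add cN
  have h := EX_mono μ (L := L) (β := β) (continuous_const (y := (1 : ℝ))) c3
    (fun U => by
      have h := union_pt hn hq hqr hqm hC0 hcar hs hy hy0 ‖psi L r q U‖ ht U
      have e0 : Wd L r q ‖psi L r q U‖ t U = 0 := by
        unfold Wd
        rw [sub_self, zero_div, zero_pow two_ne_zero]
      rw [e0, zero_add] at h
      refine h.trans ?_
      have k1 : ∑ a : Fin n, (min 1 (Wd L r q ‖psi L r q U‖ t (Ps L q a s U)) +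
          min 1 (Wd L r q ‖psi L r q U‖ t (Ps L q a (-s) U))) ≤
          ∑ a : Fin n, ((2560 * (n : ℝ) ^ 2) *
            ((2 * HY L r q ω Y1 Y2 U + 2 * HY L r q ω Y1 Y2 (Ps L q a s U)) +
            (2 * HY L r q ω Y1 Y2 U + 2 * HY L r q ω Y1 Y2 (Ps L q a (-s) U))) +
            2 * (s / t * Er L r q s U) ^ 2) := by
        refine Finset.sum_le_sum fun a _ => ?_
        have k2 := phase_pt (L := L) hq hqr hqm hn hs hy hy0 ht hω a (s' := s) (abs_of_pos hs) U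
          (hs1 a s U) (hs2 a s U)
        have k3 := phase_pt (L := L) hq hqr hqm hn hs hy hy0 ht hω a (s' := -s)
          (by rw [abs_neg, abs_of_pos hs]) U (hs1 a (-s) U) (hs2 a (-s) U)
        linarith
      have k9 : ∑ a : Fin n, ((2560 * (n : ℝ) ^ 2) *
            ((2 * HY L r q ω Y1 Y2 U + 2 * HY L r q ω Y1 Y2 (Ps L q a s U)) +
            (2 * HY L r q ω Y1 Y2 U + 2 * HY L r q ω Y1 Y2 (Ps L q a (-s) U))) +
            2 * (s / t * Er L r q s U) ^ 2) = (2560 * (n : ℝ) ^ 2) * ∑ a : Fin n,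
            ((2 * HY L r q ω Y1 Y2 U + 2 * HY L r q ω Y1 Y2 (Ps L q a s U)) +
            (2 * HY L r q ω Y1 Y2 U + 2 * HY L r q ω Y1 Y2 (Ps L q a (-s) U))) +
            n * (2 * (s / t * Er L r q s U) ^ 2) := by
        rw [Finset.sum_add_distrib, ← Finset.mul_sum, Finset.sum_const, Finset.card_univ,
          Fintype.card_fin, nsmul_eq_mul]
      rw [k9] at k1
      linarith)
  rw [EX_one, EX_add μ c2 cN, EX_add μ cS' cE', EX_smul, EX_smul, EX_smul, EX_fsum μ _ cS1] at h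
  obtain ⟨EH, hEH⟩ : ∃ EH, EH = EX μ L β (fun U : Ed (e + 3) (2 * m) → G =>
    HY L r q ω Y1 Y2 U) := ⟨_, rfl⟩
  have hHle : ∀ U : Ed (e + 3) (2 * m) → G, HY L r q ω Y1 Y2 U ≤ 8 := by
    intro U
    unfold HY
    have k1 := abs_le.1 (hb1 U)
    have k2 := abs_le.1 (hb2 U)
    have k3 := Real.cos_le_one (ω * ‖psi L r q U‖)
    have k4 := Real.neg_one_le_cos (ω * ‖psi L r q U‖)
    have k5 := Real.sin_le_one (ω * ‖psi L r q U‖)
    have k6 := Real.neg_one_le_sin (ω * ‖psi L r q U‖)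
    have k7 : (Real.cos (ω * ‖psi L r q U‖) - Y1 U) ^ 2 ≤ 2 ^ 2 :=
      sq_le_sq' (by linarith) (by linarith)
    have k8 : (Real.sin (ω * ‖psi L r q U‖) - Y2 U) ^ 2 ≤ 2 ^ 2 :=
      sq_le_sq' (by linarith) (by linarith)
    linarith
  have hsh : ∀ (a : Fin n) (s' : ℝ), EX μ L β (fun U : Ed (e + 3) (2 * m) → G =>
      XX L β q a s' U) ≤ X → EX μ L β (fun U : Ed (e + 3) (2 * m) → G =>
      HY L r q ω Y1 Y2 (Ps L q a s' U)) ≤ 3 * EH + 24 * X := by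
    intro a s' hX0
    have cg : Continuous fun U : Ed (e + 3) (2 * m) → G => 1 / 8 * HY L r q ω Y1 Y2 U :=
      continuous_const.mul cH
    have k1 := tilt μ (L := L) (β := β) hq a s' cg
      (fun U => mul_nonneg (by norm_num) (HY_nonneg ω U)) (fun U => by
        have := hHle U; linarith)
    rw [EX_smul, EX_smul, ← hEH] at k1
    linarith
  have h1 : ∀ a : Fin n, EX μ L β (fun U : Ed (e + 3) (2 * m) → G =>
      (2 * HY L r q ω Y1 Y2 U + 2 * HY L r q ω Y1 Y2 (Ps L q a s U)) +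
      (2 * HY L r q ω Y1 Y2 U + 2 * HY L r q ω Y1 Y2 (Ps L q a (-s) U))) ≤
      16 * EH + 96 * X := by
    intro a
    have d1 : Continuous fun U : Ed (e + 3) (2 * m) → G => 2 * HY L r q ω Y1 Y2 U :=
      continuous_const.mul cH
    have d2 : ∀ s' : ℝ, Continuous fun U : Ed (e + 3) (2 * m) → G =>
        2 * HY L r q ω Y1 Y2 (Ps L q a s' U) := fun s' => continuous_const.mul (cHs a s')
    rw [EX_add μ (c0 a s) (c0 a (-s)), EX_add μ d1 (d2 s), EX_add μ d1 (d2 (-s)), EX_smul,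
      EX_smul, EX_smul, ← hEH]
    have k1 := hsh a s (hX a)
    have k2 := hsh a (-s) (hX' a)
    linarith
  have h2 : ∑ a : Fin n, EX μ L β (fun U : Ed (e + 3) (2 * m) → G =>
      (2 * HY L r q ω Y1 Y2 U + 2 * HY L r q ω Y1 Y2 (Ps L q a s U)) +
      (2 * HY L r q ω Y1 Y2 U + 2 * HY L r q ω Y1 Y2 (Ps L q a (-s) U))) ≤
      n * (16 * EH + 96 * X) := by
    calc _ ≤ ∑ _a : Fin n, (16 * EH + 96 * X) := Finset.sum_le_sum fun a _ => h1 a
      _ = _ := by rw [Finset.sum_const, Finset.card_univ, Fintype.card_fin, nsmul_eq_mul]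
  have h3 : EX μ L β (fun U : Ed (e + 3) (2 * m) → G => (s / t * Er L r q s U) ^ 2) =
      (s / t * en μ L β (fun U : Ed (e + 3) (2 * m) → G => Er L r q s U)) ^ 2 := by
    have e1 : (fun U : Ed (e + 3) (2 * m) → G => (s / t * Er L r q s U) ^ 2) =
        fun U => (s / t) ^ 2 * Er L r q s U ^ 2 := by funext U; ring
    rw [e1, EX_smul, mul_pow, en_sq]
  rw [h3] at h
  rw [← hEH]
  have h4 := mul_le_mul_of_nonneg_left h2 (show (0 : ℝ) ≤ 2560 * (n : ℝ) ^ 2 by positivity)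
  have h5 : 2560 * (n : ℝ) ^ 2 * (n * (16 * EH + 96 * X)) =
      40960 * n ^ 3 * EH + 245760 * n ^ 3 * X := by ring
  linarith

end un

/-- **the phase is not determined by functions which are not affected by the shift** -/
theorem var_H (hn : 1 ≤ n) (hN : 1 ≤ N) (e : ℕ) {C0 : ℝ} (hC0 : 0 < C0)
    (hcar : ∀ g : G, dv L g ^ 2 ≤ ∑ a, fi L a g ^ 2 + C0 * dv L g ^ 4) {A : ℝ} (hA : 1 ≤ A) :
    ∃ c1 c0 Cw : ℝ, 0 < c1 ∧ c1 ≤ 1 ∧ 0 < c0 ∧ 0 < Cw ∧ ∀ (r q : ℕ) (β lam a0 : ℝ),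
      q = 2 ^ r → 0 < β →
      1 ≤ lam → 0 ≤ a0 → a0 ^ 2 ≤ A * lam / β → (q : ℝ) ^ 2 * ((r + 3 : ℕ) * lam) ≤ c1 * β →
      (q : ℝ) ^ (e + 1) * lam ^ 2 ≤ c1 * β → ∀ (m : ℕ) [NeZero m], 5 * q < 2 * m →
      SB μ L (e + 3) m β (fun k => a0 * Real.sqrt (2 ^ k)) (r + 3) →
      ∃ ω : ℝ, ω ^ 2 * ((q : ℝ) ^ 2 / (β * (q : ℝ) ^ (e + 1))) ≤ Cw ∧
      ∀ Y1 Y2 : (Ed (e + 3) (2 * m) → G) → ℝ, Continuous Y1 → Continuous Y2 →
      (∀ U, |Y1 U| ≤ 1) → (∀ U, |Y2 U| ≤ 1) →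
      (∀ (a : Fin n) (s : ℝ) (U : Ed (e + 3) (2 * m) → G), Y1 (Ps L q a s U) = Y1 U) →
      (∀ (a : Fin n) (s : ℝ) (U : Ed (e + 3) (2 * m) → G), Y2 (Ps L q a s U) = Y2 U) →
      c0 ≤ EX μ L β (fun U : Ed (e + 3) (2 * m) → G => HY L r q ω Y1 Y2 U) := by
  have hn0 : (1 : ℝ) ≤ n := by exact_mod_cast hn
  have hN0 : (1 : ℝ) ≤ N := by exact_mod_cast hN
  have hA0' : 0 < A := by linarith
  have hCE := CE_ge e N hA0'.le
  obtain ⟨A0, hA0⟩ : ∃ A0 : ℝ, A0 = 10 * ((e : ℝ) + 3) ^ 2 := ⟨_, rfl⟩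
  have hA0p : 0 < A0 := by rw [hA0]; positivity
  obtain ⟨B1, hB1⟩ : ∃ B1 : ℝ, B1 = 2 ^ (e + 2) * (16 * n) * (34 * A0 + 1) :=
    ⟨_, rfl⟩
  obtain ⟨B2, hB2⟩ : ∃ B2 : ℝ, B2 = 2 ^ (e + 2) * (2 * Real.sqrt C0 *
    (18 * A0) ^ 2) := ⟨_, rfl⟩
  have hB1p : 0 < B1 := by rw [hB1]; positivity
  have hB2p : 0 < B2 := by
    have : 0 < Real.sqrt C0 := Real.sqrt_pos.2 hC0
    rw [hB2]; positivity
  obtain ⟨K1, hK1⟩ : ∃ K1 : ℝ, K1 = 983040 * n ^ 3 * CE e N A := ⟨_, rfl⟩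
  have hK1p : 0 < K1 := by rw [hK1]; positivity
  have hK11 : 1 ≤ K1 := by
    rw [hK1]
    have h3 : (1 : ℝ) ≤ (n : ℝ) ^ 3 := one_le_pow₀ hn0
    have h4 : (1 : ℝ) ≤ 983040 * (n : ℝ) ^ 3 := by linarith
    exact one_le_mul_of_one_le_of_one_le h4 hCE
  obtain ⟨Y, hY⟩ : ∃ Y : ℝ, Y = (4 * (1 + 2 * n) * B1 ^ 2 + 16 * K1 * B2 ^ 2 + 1) * A ^ 2 := ⟨_, rfl⟩
  have hYp : 0 < Y := by rw [hY]; positivity
  have hA2 : A ≤ A ^ 2 := by nlinarith
  have hA1 : 1 ≤ A ^ 2 := by nlinarith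
  have hBB : 0 ≤ 4 * (1 + 2 * (n : ℝ)) * B1 ^ 2 + 16 * K1 * B2 ^ 2 := by positivity
  have hY1 : 1 ≤ Y := by
    rw [hY]
    nlinarith
  refine ⟨1 / Y, 1 / (163840 * n ^ 3), 4 ^ (e + 1) * K1, by positivity,
    ?_, by positivity, by positivity, fun r q β lam a0 hqr hβ0 hlam ha0 haA hq1β hq2β m _ hqm hS => ?_⟩
  · rw [div_le_one hYp]
    exact hY1
  have hq : 1 ≤ q := by rw [hqr]; exact Nat.one_le_two_pow
  have hq1 : (1 : ℝ) ≤ q := by exact_mod_cast hq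
  have hq0 : (0 : ℝ) < q := by linarith
  have hlam0 : 0 < lam := by linarith
  have hq1β' : (q : ℝ) ^ 2 * ((r + 3 : ℕ) * lam) * Y ≤ β := by
    rw [one_div, inv_mul_eq_div, le_div_iff₀ hYp] at hq1β
    exact hq1β
  have hq2β' : (q : ℝ) ^ (e + 1) * lam ^ 2 * Y ≤ β := by
    rw [one_div, inv_mul_eq_div, le_div_iff₀ hYp] at hq2β
    exact hq2β
  have hr3 : (1 : ℝ) ≤ ((r + 3 : ℕ) : ℝ) := by exact_mod_cast (by omega : 1 ≤ r + 3)
  have hrl : 1 ≤ ((r + 3 : ℕ) : ℝ) * lam := one_le_mul_of_one_le_of_one_le hr3 hlam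
  have hb2 : (q : ℝ) ^ 2 * ((r + 3 : ℕ) * lam) ≤ β :=
    le_trans (le_mul_of_one_le_right (by positivity) hY1) hq1β'
  have hb1 : (q : ℝ) ^ 2 ≤ β := le_trans (le_mul_of_one_le_right (by positivity) hrl) hb2
  have hm2 : 2 ≤ m := by omega
  obtain ⟨Q, hQ⟩ : ∃ Q : ℝ, Q = (q : ℝ) ^ (e + 1) := ⟨_, rfl⟩
  have hQ1 : 1 ≤ Q := by rw [hQ]; exact one_le_pow₀ hq1
  have hQp : 0 < Q := by linarith
  have hQq' : (q : ℝ) ≤ Q := by
    rw [hQ]
    calc (q : ℝ) = (q : ℝ) ^ 1 := (pow_one _).symm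
      _ ≤ _ := pow_le_pow_right₀ hq1 (by omega)
  rw [← hQ] at hq2β'
  obtain ⟨R, hR⟩ : ∃ R, R = Real.sqrt (A * lam * q / β) := ⟨_, rfl⟩
  have hR0 : 0 < R := by rw [hR]; exact Real.sqrt_pos.2 (by positivity)
  have hR2 : R ^ 2 = A * lam * q / β := by rw [hR, Real.sq_sqrt (by positivity)]
  -- the size of the shift
  obtain ⟨s, hs⟩ : ∃ s, s = 1 / Real.sqrt (K1 * β * Q) := ⟨_, rfl⟩
  have hKQ : 0 < K1 * β * Q := by positivity
  have hs0 : 0 < s := by rw [hs]; positivity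
  have hs2 : s ^ 2 = 1 / (K1 * β * Q) := by
    rw [hs, div_pow, one_pow, Real.sq_sqrt hKQ.le]
  have hsr : s * q ≤ R := by
    have h1 : (s * q) ^ 2 ≤ R ^ 2 := by
      rw [mul_pow, hs2, hR2, one_div, inv_mul_eq_div, div_le_div_iff₀ hKQ hβ0]
      calc (q : ℝ) ^ 2 * β = q * β * q := by ring
        _ ≤ q * β * Q := mul_le_mul_of_nonneg_left hQq' (by positivity)
        _ = 1 * 1 * q * (1 * β * Q) := by ring
        _ ≤ A * lam * q * (K1 * β * Q) := by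
            refine mul_le_mul (mul_le_mul_of_nonneg_right (mul_le_mul hA hlam zero_le_one
              hA0'.le) hq0.le) (mul_le_mul_of_nonneg_right
              (mul_le_mul_of_nonneg_right hK11 hβ0.le) hQp.le) (by positivity) (by positivity)
    exact (pow_le_pow_iff_left₀ (by positivity) hR0.le two_ne_zero).1 h1
  obtain ⟨K, hK⟩ : ∃ K, K = Kb e q m := ⟨_, rfl⟩
  have hKl : (1 / 2 : ℝ) ^ (e + 2) * q ≤ K := by rw [hK]; exact Kb_ge hq hqm
  have hK0 : 0 < K := lt_of_lt_of_le (by positivity) hKl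
  obtain ⟨y, hy⟩ : ∃ y, y = s * K := ⟨_, rfl⟩
  have hy0 : 0 < y := by rw [hy]; positivity
  obtain ⟨t, ht⟩ : ∃ t, t = 1 / (16 * (n : ℝ)) * y := ⟨_, rfl⟩
  have ht0 : 0 < t := by rw [ht]; positivity
  have hX : ∀ (a : Fin n) (s' : ℝ), s' ^ 2 = s ^ 2 →
      EX μ L β (fun U : Ed (e + 3) (2 * m) → G => XX L β q a s' U) ≤
        CE e N A * (s ^ 2 * β * (q : ℝ) ^ (e + 1)) := fun a s' h => by
    rw [← h]
    exact XX_bound μ hm2 hN hβ0 ha0 hA0'.le hlam0.le haA hS hqr (by omega) hb1 hb2 a s'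
  have key := fun (Y1 Y2 : (Ed (e + 3) (2 * m) → G) → ℝ) (hYc1 : Continuous Y1)
    (hYc2 : Continuous Y2) (hb1 : ∀ U, |Y1 U| ≤ 1) (hb2 : ∀ U, |Y2 U| ≤ 1)
    (hYs1 : ∀ (a : Fin n) (s : ℝ) (U : Ed (e + 3) (2 * m) → G), Y1 (Ps L q a s U) = Y1 U)
    (hYs2 : ∀ (a : Fin n) (s : ℝ) (U : Ed (e + 3) (2 * m) → G), Y2 (Ps L q a s U) = Y2 U) =>
    union_H μ (L := L) (β := β) hYc1 hYc2 hb1 hb2 hYs1 hYs2 hn hq hqr hqm hC0.le hcar hs0 (y := y)
    (by rw [hy, hK]) hy0 ht (ω := 1 / (2 * y)) rfl (fun a => hX a s rfl)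
    (fun a => hX a (-s) (by ring))
  obtain ⟨S, hSS⟩ : ∃ S : ℕ → ℝ, S = fun k => a0 * Real.sqrt (2 ^ k) := ⟨_, rfl⟩
  have hu : un e S r ≤ A0 * R := by
    rw [hSS]
    refine (un_le hqr ha0).trans ?_
    rw [hA0]
    refine mul_le_mul_of_nonneg_left ?_ (by positivity)
    have h1 : (a0 * Real.sqrt q) ^ 2 ≤ R ^ 2 := by
      rw [mul_pow, Real.sq_sqrt hq0.le, hR2]
      calc a0 ^ 2 * (q : ℝ) ≤ A * lam / β * q := mul_le_mul_of_nonneg_right haA hq0.le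
        _ = _ := by ring
    exact (pow_le_pow_iff_left₀ (by positivity) hR0.le two_ne_zero).1 h1
  rw [← hSS] at hS
  have hu0 := un_nonneg (e := e) (r := r) hS.nn
  have hYr : (4 * (1 + 2 * (n : ℝ)) * B1 ^ 2) * R ^ 2 ≤ 1 := by
    rw [hR2, ← mul_div_assoc, div_le_one hβ0]
    have h1 : (4 * (1 + 2 * (n : ℝ)) * B1 ^ 2) * A ≤ Y := by
      rw [hY]
      have h3 : 4 * (1 + 2 * (n : ℝ)) * B1 ^ 2 ≤
          4 * (1 + 2 * (n : ℝ)) * B1 ^ 2 + 16 * K1 * B2 ^ 2 + 1 := by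
        have : 0 ≤ 16 * K1 * B2 ^ 2 := by positivity
        linarith
      exact mul_le_mul h3 hA2 hA0'.le (by positivity)
    have h2 : lam * q ≤ (q : ℝ) ^ 2 * ((r + 3 : ℕ) * lam) := by
      have h3 : (q : ℝ) ≤ (q : ℝ) ^ 2 * ((r + 3 : ℕ) : ℝ) := by
        calc (q : ℝ) = q * 1 * 1 := by ring
          _ ≤ q * q * ((r + 3 : ℕ) : ℝ) :=
            mul_le_mul (mul_le_mul_of_nonneg_left hq1 hq0.le) hr3 zero_le_one (by positivity)
          _ = _ := by ring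
      calc lam * q ≤ lam * ((q : ℝ) ^ 2 * ((r + 3 : ℕ) : ℝ)) :=
            mul_le_mul_of_nonneg_left h3 hlam0.le
        _ = _ := by ring
    calc 4 * (1 + 2 * (n : ℝ)) * B1 ^ 2 * (A * lam * q) =
          (4 * (1 + 2 * (n : ℝ)) * B1 ^ 2 * A) * (lam * q) := by ring
      _ ≤ Y * ((q : ℝ) ^ 2 * ((r + 3 : ℕ) * lam)) := mul_le_mul h1 h2 (by positivity) hYp.le
      _ = (q : ℝ) ^ 2 * ((r + 3 : ℕ) * lam) * Y := by ring
      _ ≤ _ := hq1β'
  have h2p : (1 / 2 : ℝ) ^ (e + 2) * 2 ^ (e + 2) = 1 := by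
    rw [← mul_pow]; norm_num
  have hp0 : (0 : ℝ) < 2 ^ (e + 2) := by positivity
  -- the first term
  have t1 : 245760 * n ^ 3 * (CE e N A * (s ^ 2 * β * (q : ℝ) ^ (e + 1))) = 1 / 4 := by
    rw [hs2, ← hQ, hK1]
    field_simp
    norm_num
  -- the second term
  have t2 : (1 + 2 * (n : ℝ)) * (s / t * en μ L β (fun U : Ed (e + 3) (2 * m) → G =>
      Er L r q s U)) ^ 2 ≤ 1 / 4 := by
    have k1 := Er_en μ (L := L) (e := e) hS hq hqr hqm s
    rw [abs_of_pos hs0] at k1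
    have k2 : s / t * en μ L β (fun U : Ed (e + 3) (2 * m) → G => Er L r q s U) ≤ B1 * R := by
      have k3 : s / t ≤ 2 ^ (e + 2) * (16 * n) / q := by
        rw [ht, hy, div_le_div_iff₀ (by positivity) hq0]
        have k4 : (1 : ℝ) * q ≤ 2 ^ (e + 2) * K := by
          calc (1 : ℝ) * q = 2 ^ (e + 2) * ((1 / 2 : ℝ) ^ (e + 2) * q) := by
                rw [← mul_assoc, mul_comm (2 ^ (e + 2) : ℝ), h2p]
            _ ≤ _ := mul_le_mul_of_nonneg_left hKl hp0.le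
        calc s * q = s * (1 * q) := by ring
          _ ≤ s * (2 ^ (e + 2) * K) := mul_le_mul_of_nonneg_left k4 hs0.le
          _ = 2 ^ (e + 2) * (16 * n) * (1 / (16 * n) * (s * K)) := by field_simp
      have k5 : 34 * un e S r + s * q ≤ (34 * A0 + 1) * R := by linarith
      calc _ ≤ 2 ^ (e + 2) * (16 * n) / q * (q * (34 * un e S r + s * q)) :=
            mul_le_mul k3 k1 (en_nonneg μ _) (by positivity)
        _ = 2 ^ (e + 2) * (16 * n) * (34 * un e S r + s * q) := by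
            field_simp
        _ ≤ 2 ^ (e + 2) * (16 * n) * ((34 * A0 + 1) * R) :=
            mul_le_mul_of_nonneg_left k5 (by positivity)
        _ = B1 * R := by rw [hB1]; ring
    have k0 : 0 ≤ s / t * en μ L β (fun U : Ed (e + 3) (2 * m) → G => Er L r q s U) :=
      mul_nonneg (by positivity) (en_nonneg μ _)
    have k7 := pow_le_pow_left₀ k0 k2 2
    have k8 : (1 + 2 * (n : ℝ)) * (B1 * R) ^ 2 ≤ 1 / 4 := by
      rw [mul_pow]
      linarith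
    exact (mul_le_mul_of_nonneg_left k7 (by positivity)).trans k8
  -- the third term
  have t3 : 1 / y * EX μ L β (fun U : Ed (e + 3) (2 * m) → G => Nr L C0 r q U) ≤ 1 / 4 := by
    have k1 := EX_Nr μ (L := L) (e := e) hS hq hqr hqm hC0.le
    have k2 : (18 * un e S r) ^ 2 ≤ (18 * A0) ^ 2 * R ^ 2 := by
      rw [← mul_pow]
      refine pow_le_pow_left₀ (by positivity) ?_ 2
      linarith
    have k3 : EX μ L β (fun U : Ed (e + 3) (2 * m) → G => Nr L C0 r q U) ≤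
        2 * Real.sqrt C0 * ((18 * A0) ^ 2 * R ^ 2) :=
      k1.trans (mul_le_mul_of_nonneg_left k2 (by positivity))
    have k4 : s * q ≤ 2 ^ (e + 2) * y := by
      rw [hy]
      calc s * q = s * (2 ^ (e + 2) * ((1 / 2 : ℝ) ^ (e + 2) * q)) := by
            rw [← mul_assoc (2 ^ (e + 2) : ℝ), mul_comm (2 ^ (e + 2) : ℝ), h2p, one_mul]
        _ ≤ s * (2 ^ (e + 2) * K) :=
            mul_le_mul_of_nonneg_left (mul_le_mul_of_nonneg_left hKl hp0.le) hs0.le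
        _ = _ := by ring
    have k5 : 1 / y * EX μ L β (fun U : Ed (e + 3) (2 * m) → G => Nr L C0 r q U) ≤
        B2 * R ^ 2 / (s * q) := by
      rw [one_div, inv_mul_le_iff₀ hy0]
      refine k3.trans ?_
      rw [← mul_div_assoc, le_div_iff₀ (by positivity)]
      calc 2 * Real.sqrt C0 * ((18 * A0) ^ 2 * R ^ 2) * (s * q) ≤
          2 * Real.sqrt C0 * ((18 * A0) ^ 2 * R ^ 2) * (2 ^ (e + 2) * y) :=
            mul_le_mul_of_nonneg_left k4 (by positivity)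
        _ = _ := by rw [hB2]; ring
    refine k5.trans ?_
    rw [div_le_iff₀ (by positivity)]
    have k6 : (B2 * R ^ 2) ^ 2 ≤ (1 / 4 * (s * q)) ^ 2 := by
      have e1 : (1 / 4 * (s * q)) ^ 2 = (q : ℝ) ^ 2 / (16 * K1 * Q * β) := by
        rw [mul_pow, mul_pow, hs2]
        field_simp
        norm_num
      have e2 : (B2 * R ^ 2) ^ 2 = (q : ℝ) ^ 2 * (B2 ^ 2 * A ^ 2 * lam ^ 2) / β ^ 2 := by
        rw [hR2]
        field_simp
      rw [e1, e2, div_le_div_iff₀ (by positivity) (by positivity)]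
      have e3 : (B2 ^ 2 * A ^ 2 * lam ^ 2) * (16 * K1 * Q) ≤ β := by
        have k7 : 16 * K1 * B2 ^ 2 * A ^ 2 ≤ Y := by
          rw [hY]
          refine mul_le_mul_of_nonneg_right ?_ (by positivity)
          have : 0 ≤ 4 * (1 + 2 * (n : ℝ)) * B1 ^ 2 := by positivity
          linarith
        calc (B2 ^ 2 * A ^ 2 * lam ^ 2) * (16 * K1 * Q) =
              (Q * lam ^ 2) * (16 * K1 * B2 ^ 2 * A ^ 2) := by ring
          _ ≤ (Q * lam ^ 2) * Y := mul_le_mul_of_nonneg_left k7 (by positivity)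
          _ ≤ _ := hq2β'
      calc (q : ℝ) ^ 2 * (B2 ^ 2 * A ^ 2 * lam ^ 2) * (16 * K1 * Q * β) =
            ((q : ℝ) ^ 2 * β) * ((B2 ^ 2 * A ^ 2 * lam ^ 2) * (16 * K1 * Q)) := by ring
        _ ≤ ((q : ℝ) ^ 2 * β) * β := mul_le_mul_of_nonneg_left e3 (by positivity)
        _ = _ := by ring
    exact (pow_le_pow_iff_left₀ (by positivity) (by positivity) two_ne_zero).1 k6
  -- conclusion
  refine ⟨1 / (2 * y), ?_, fun Y1 Y2 hYc1 hYc2 hb1 hb2 hYs1 hYs2 => ?_⟩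
  · have h1 : (s * q) ^ 2 ≤ 4 ^ (e + 2) * y ^ 2 := by
      have h2 : s * q ≤ 2 ^ (e + 2) * y := by
        rw [hy]
        calc s * q = s * (2 ^ (e + 2) * ((1 / 2 : ℝ) ^ (e + 2) * q)) := by
              rw [← mul_assoc (2 ^ (e + 2) : ℝ), mul_comm (2 ^ (e + 2) : ℝ), h2p, one_mul]
          _ ≤ s * (2 ^ (e + 2) * K) :=
              mul_le_mul_of_nonneg_left (mul_le_mul_of_nonneg_left hKl hp0.le) hs0.le
          _ = _ := by ring
      have h3 := pow_le_pow_left₀ (by positivity) h2 2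
      have h4 : (2 ^ (e + 2) * y) ^ 2 = 4 ^ (e + 2) * y ^ 2 := by
        rw [mul_pow, ← pow_mul, mul_comm (e + 2) 2, pow_mul]
        norm_num
      rw [h4] at h3
      exact h3
    rw [mul_pow, hs2, one_div, inv_mul_eq_div, div_le_iff₀ hKQ] at h1
    rw [← hQ, one_div, inv_pow, mul_pow, inv_mul_eq_div, div_div, div_le_iff₀ (by positivity)]
    calc (q : ℝ) ^ 2 ≤ 4 ^ (e + 2) * y ^ 2 * (K1 * β * Q) := h1
      _ = 4 ^ (e + 1) * K1 * (β * Q * (2 ^ 2 * y ^ 2)) := by rw [pow_succ (4 : ℝ) (e + 1)]; ring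
  · have h1 := key Y1 Y2 hYc1 hYc2 hb1 hb2 hYs1 hYs2
    rw [div_le_iff₀ (by positivity)]
    linarith

end

end Pool.Agent.MG990.N899
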