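import Mathlib
import Pool.Agent.N899.YM.Core
import Pool.Agent.N899.YM.SB5

/-!
# The phase of the observable and the variation
-/

open MeasureTheory Matrix Filter
open scoped Matrix.Norms.Frobenius Topology
open Pool.Agent.H906R3.YM hiding Pl
open Pool.Agent.W793.YM Pool.Agent.TH618.YM Pool.Agent.Y14
open Pool.Agent.N899.YM

namespace Pool.Agent.MG990.N899

set_option linter.unusedSectionVars false
set_option linter.unusedVariables false

noncomputable section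

/-- clipping to the interval `[-1, 1]` -/
def clip (x : ℝ) : ℝ := max (-1) (min 1 x)

lemma clip_abs (x : ℝ) : |clip x| ≤ 1 := by
  unfold clip
  rw [abs_le]
  exact ⟨le_max_left _ _, max_le (by norm_num) (min_le_left _ _)⟩

lemma clip_cont : Continuous clip := continuous_const.max (continuous_const.min continuous_id)

lemma clip_sq {c : ℝ} (h : |c| ≤ 1) (x : ℝ) : (c - clip x) ^ 2 ≤ (c - x) ^ 2 := by
  obtain ⟨h1, h2⟩ := abs_le.1 h
  unfold clip
  rcases le_total x 1 with hx | hx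
  · rw [min_eq_right hx]
    rcases le_total (-1) x with hy | hy
    · rw [max_eq_right hy]
    · rw [max_eq_left hy]
      nlinarith
  · rw [min_eq_left hx, max_eq_right (by norm_num)]
    nlinarith

/-- a phase function: cosine or sine -/
structure PhF (φ : ℝ → ℝ) : Prop where
  cont : Continuous φ
  abs_le : ∀ x, |φ x| ≤ 1
  lip : ∀ x y, |φ x - φ y| ≤ |x - y|

lemma PhF.cos : PhF Real.cos := by
  refine ⟨Real.continuous_cos, Real.abs_cos_le_one, fun x y => ?_⟩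
  have h := Real.lipschitzWith_cos.dist_le_mul x y
  rw [Real.dist_eq, Real.dist_eq, NNReal.coe_one, one_mul] at h
  exact h

lemma PhF.sin : PhF Real.sin := by
  refine ⟨Real.continuous_sin, Real.abs_sin_le_one, fun x y => ?_⟩
  have h := Real.lipschitzWith_sin.dist_le_mul x y
  rw [Real.dist_eq, Real.dist_eq, NNReal.coe_one, one_mul] at h
  exact h

variable {G : Type*} [Group G] [TopologicalSpace G] [IsTopologicalGroup G] [CompactSpace G]
  [SecondCountableTopology G] [MeasurableSpace G] [BorelSpace G] (μ : Measure G)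
  [IsProbabilityMeasure μ] [μ.IsMulLeftInvariant] [μ.IsMulRightInvariant] [μ.IsInvInvariant]
  {N n : ℕ} {L : LD G N n}

/-- from the two phases to one of them -/
lemma one_phase {e m : ℕ} [NeZero m] {q r : ℕ} {β ω c0 : ℝ}
    (h : ∀ Y1 Y2 : (Ed (e + 3) (2 * m) → G) → ℝ, Continuous Y1 → Continuous Y2 →
      (∀ U, |Y1 U| ≤ 1) → (∀ U, |Y2 U| ≤ 1) →
      (∀ (a : Fin n) (s : ℝ) (U : Ed (e + 3) (2 * m) → G), Y1 (Ps L q a s U) = Y1 U) →
      (∀ (a : Fin n) (s : ℝ) (U : Ed (e + 3) (2 * m) → G), Y2 (Ps L q a s U) = Y2 U) →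
      c0 ≤ EX μ L β (fun U : Ed (e + 3) (2 * m) → G => HY L r q ω Y1 Y2 U)) :
    ∃ φ : ℝ → ℝ, PhF φ ∧ ∀ Y : (Ed (e + 3) (2 * m) → G) → ℝ, Continuous Y →
      (∀ (a : Fin n) (s : ℝ) (U : Ed (e + 3) (2 * m) → G), Y (Ps L q a s U) = Y U) →
      c0 / 32 ≤ EX μ L β (fun U : Ed (e + 3) (2 * m) → G =>
        (1 / 2 + 1 / 4 * φ (ω * ‖psi L r q U‖) - Y U) ^ 2) := by
  by_contra hcon
  push Not at hcon
  obtain ⟨Y1, hc1, hi1, hl1⟩ := hcon _ PhF.cos
  obtain ⟨Y2, hc2, hi2, hl2⟩ := hcon _ PhF.sin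
  have hk : ∀ {Y : (Ed (e + 3) (2 * m) → G) → ℝ}, Continuous Y → Continuous fun U =>
      clip (4 * (Y U - 1 / 2)) := fun hY =>
    clip_cont.comp (continuous_const.mul (hY.sub continuous_const))
  have h1 := h (fun U => clip (4 * (Y1 U - 1 / 2))) (fun U => clip (4 * (Y2 U - 1 / 2)))
    (hk hc1) (hk hc2) (fun U => clip_abs _) (fun U => clip_abs _)
    (fun a s U => by show clip _ = clip _; rw [hi1]) (fun a s U => by show clip _ = clip _; rw [hi2])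
  have hp : Continuous fun U : Ed (e + 3) (2 * m) → G => ω * ‖psi L r q U‖ :=
    continuous_const.mul psi_cont.norm
  have cw : ∀ {φ : ℝ → ℝ} {Y : (Ed (e + 3) (2 * m) → G) → ℝ}, Continuous φ → Continuous Y →
      Continuous fun U : Ed (e + 3) (2 * m) → G =>
        (1 / 2 + 1 / 4 * φ (ω * ‖psi L r q U‖) - Y U) ^ 2 := fun hφ hY =>
    ((continuous_const.add (continuous_const.mul (hφ.comp hp))).sub hY).pow 2
  have c1 := cw Real.continuous_cos hc1
  have c2 := cw Real.continuous_sin hc2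
  have c1' : Continuous fun U : Ed (e + 3) (2 * m) → G =>
      16 * (1 / 2 + 1 / 4 * Real.cos (ω * ‖psi L r q U‖) - Y1 U) ^ 2 := continuous_const.mul c1
  have c2' : Continuous fun U : Ed (e + 3) (2 * m) → G =>
      16 * (1 / 2 + 1 / 4 * Real.sin (ω * ‖psi L r q U‖) - Y2 U) ^ 2 := continuous_const.mul c2
  have c3 : Continuous fun U : Ed (e + 3) (2 * m) → G =>
      16 * (1 / 2 + 1 / 4 * Real.cos (ω * ‖psi L r q U‖) - Y1 U) ^ 2 +
      16 * (1 / 2 + 1 / 4 * Real.sin (ω * ‖psi L r q U‖) - Y2 U) ^ 2 := c1'.add c2'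
  have h2 := EX_mono μ (L := L) (β := β)
    (HY_cont (L := L) (r := r) (q := q) (hk hc1) (hk hc2) ω) c3 (fun U => by
      have k1 := clip_sq (Real.abs_cos_le_one (ω * ‖psi L r q U‖)) (4 * (Y1 U - 1 / 2))
      have k2 := clip_sq (Real.abs_sin_le_one (ω * ‖psi L r q U‖)) (4 * (Y2 U - 1 / 2))
      have e1 : ∀ x y : ℝ, (x - 4 * (y - 1 / 2)) ^ 2 = 16 * (1 / 2 + 1 / 4 * x - y) ^ 2 :=
        fun x y => by ring
      rw [e1] at k1 k2
      exact add_le_add k1 k2)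
  rw [EX_add μ c1' c2', EX_smul, EX_smul] at h2
  linarith

/-- the bounds for the phase of one observable -/
theorem coreH (hn : 1 ≤ n) (hN : 1 ≤ N) (e : ℕ) {C0 : ℝ} (hC0 : 0 < C0)
    (hcar : ∀ g : G, dv L g ^ 2 ≤ ∑ a, fi L a g ^ 2 + C0 * dv L g ^ 4) :
    ∃ c2 C3 c0 Cw : ℝ, 0 < c2 ∧ 0 < C3 ∧ 0 < c0 ∧ 0 < Cw ∧
    ∀ j q : ℕ, q = 2 ^ (j + 1) → ∀ β : ℝ, 0 < β →
      c2 * ((q : ℝ) ^ kap e * ((j : ℝ) + 5) ^ nul e) ≤ β → ∀ (m : ℕ) [NeZero m],
      5 * (e + 3) * q < 2 * m → 32 * q ≤ 2 * m →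
      (∃ ω : ℝ, ω ^ 2 * ((q : ℝ) ^ 2 / (β * (q : ℝ) ^ (e + 1))) ≤ Cw ∧
        ∃ φ : ℝ → ℝ, PhF φ ∧ ∀ Y : (Ed (e + 3) (2 * m) → G) → ℝ, Continuous Y →
        (∀ (a : Fin n) (s : ℝ) (U : Ed (e + 3) (2 * m) → G), Y (Ps L q a s U) = Y U) →
        c0 ≤ EX μ L β (fun U : Ed (e + 3) (2 * m) → G =>
          (1 / 2 + 1 / 4 * φ (ω * ‖psi L (j + 1) q U‖) - Y U) ^ 2)) ∧
      EX μ L β (fun U : Ed (e + 3) (2 * m) → G =>
        (Fq L (j + 1) q (tr (eT (Fin.last (e + 2))) U) - Fq L (j + 1) q U) ^ 2) ≤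
        C3 * (q / (β * (q : ℝ) ^ (e + 1))) := by
  have hN1 : (1 : ℝ) ≤ N := by exact_mod_cast hN
  obtain ⟨A, hA⟩ : ∃ A : ℝ, A = (30000 * N) ^ 2 := ⟨_, rfl⟩
  have hA1 : 1 ≤ A := by rw [hA]; nlinarith
  obtain ⟨c1, c0, Cw, hc1, hc11, hc0, hCw, hvar⟩ := var_H μ (L := L) hn hN e hC0 hcar hA1
  have hCD := CD_pos (e := e) hA1 hN
  refine ⟨1 / c1 + 20 * N * (e + 3), CD e N A, c0 / 32, Cw, by positivity, by positivity,
    by positivity, hCw, fun j q hqr β hβ0 hqβ m _ hm hm32 => ?_⟩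
  have hq : 1 ≤ q := by rw [hqr]; exact Nat.one_le_two_pow
  have hq1 : (1 : ℝ) ≤ q := by exact_mod_cast hq
  have hq0 : (0 : ℝ) < q := by linarith
  have hm5 : 5 * q < 2 * m := by nlinarith
  have hm2 : 2 ≤ m := by omega
  have hj0 : (0 : ℝ) ≤ j := Nat.cast_nonneg j
  have he0 : (0 : ℝ) ≤ e := Nat.cast_nonneg e
  obtain ⟨lam, hlam⟩ : ∃ lam : ℝ, lam = lm e (j + 1) := ⟨_, rfl⟩
  have hlam1 : 1 ≤ lam := by rw [hlam]; exact lm_ge _ _
  obtain ⟨a0, ha0⟩ : ∃ a0 : ℝ, a0 = 30000 * N * Real.sqrt lam / Real.sqrt β := ⟨_, rfl⟩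
  have ha00 : 0 ≤ a0 := by rw [ha0]; positivity
  have haA : a0 ^ 2 ≤ A * lam / β := by
    rw [ha0, div_pow, mul_pow, Real.sq_sqrt (by linarith), Real.sq_sqrt hβ0.le, hA]
  have hS : SB μ L (e + 3) m β (fun k => a0 * Real.sqrt (2 ^ k)) (j + 1 + 3) := by
    rw [ha0, hlam]
    exact SB_all μ hN hβ0 (by rw [← hqr]; exact hm32)
  obtain ⟨Q, hQ⟩ : ∃ Q : ℝ, Q = (q : ℝ) ^ kap e * ((j : ℝ) + 5) ^ nul e := ⟨_, rfl⟩
  rw [← hQ] at hqβ
  -- the powers
  have hk2 : (q : ℝ) ^ 2 ≤ (q : ℝ) ^ kap e := pow_le_pow_right₀ hq1 (le_max_left _ _)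
  have hke : (q : ℝ) ^ (e + 1) ≤ (q : ℝ) ^ kap e := pow_le_pow_right₀ hq1 (le_max_right _ _)
  have hkq : (q : ℝ) ≤ (q : ℝ) ^ kap e := by
    calc (q : ℝ) = q ^ 1 := (pow_one _).symm
      _ ≤ q ^ kap e := pow_le_pow_right₀ hq1 (by unfold kap; omega)
  have hQ0 : 0 < Q := by rw [hQ]; positivity
  have l1 : ((j : ℝ) + 5) * lam ≤ ((j : ℝ) + 5) ^ nul e := by
    rw [hlam]
    unfold lm nul
    split_ifs with h
    · push_cast
      nlinarith
    · rw [pow_one, mul_one]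
  have l2 : lam ^ 2 ≤ ((j : ℝ) + 5) ^ nul e := by
    rw [hlam]
    unfold lm nul
    split_ifs with h
    · push_cast
      nlinarith
    · rw [pow_one, one_pow]
      linarith
  have l0 : 1 ≤ ((j : ℝ) + 5) ^ nul e := one_le_pow₀ (by linarith)
  have b1 : (q : ℝ) ^ 2 * ((j + 1 + 3 : ℕ) * lam) ≤ Q := by
    rw [hQ]
    refine mul_le_mul hk2 (le_trans ?_ l1) (by positivity) (by positivity)
    refine mul_le_mul_of_nonneg_right ?_ (by linarith)
    push_cast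
    linarith
  have b2 : (q : ℝ) ^ (e + 1) * lam ^ 2 ≤ Q := by
    rw [hQ]
    exact mul_le_mul hke l2 (by positivity) (by positivity)
  have b3 : (q : ℝ) ^ (e + 1) * ((j + 2 : ℕ) * lam) ≤ Q := by
    rw [hQ]
    refine mul_le_mul hke (le_trans ?_ l1) (by positivity) (by positivity)
    refine mul_le_mul_of_nonneg_right ?_ (by linarith)
    push_cast
    linarith
  have b4 : (q : ℝ) ≤ Q := by
    rw [hQ]
    calc (q : ℝ) = q * 1 := (mul_one _).symm
      _ ≤ _ := mul_le_mul hkq l0 (by norm_num) (by positivity)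
  have hc1Q : Q ≤ c1 * β := by
    have h1 : 1 / c1 * Q ≤ β := by
      refine le_trans (mul_le_mul_of_nonneg_right ?_ hQ0.le) hqβ
      have : (0 : ℝ) ≤ 20 * N * (e + 3) := by positivity
      linarith
    have h2 := mul_le_mul_of_nonneg_left h1 hc1.le
    rw [← mul_assoc, mul_one_div_cancel hc1.ne', one_mul] at h2
    exact h2
  have hQβ : Q ≤ β := by
    refine hc1Q.trans ?_
    calc c1 * β ≤ 1 * β := mul_le_mul_of_nonneg_right hc11 hβ0.le
      _ = β := one_mul _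
  have hNQ : 20 * N * (e + 3) * q ≤ β := by
    refine le_trans ?_ hqβ
    refine mul_le_mul ?_ b4 (by positivity) (by positivity)
    have : 0 < 1 / c1 := by positivity
    linarith
  refine ⟨?_, dif_bound μ (L := L) (n := n) (e := e) hm2 hN hβ0 hqr hm hA1 hlam1 haA hS
    (b3.trans hQβ) hNQ⟩
  obtain ⟨ω, hω, hY⟩ := hvar (j + 1) q β lam a0 hqr hβ0 hlam1 ha00 haA (b1.trans hc1Q)
    (b2.trans hc1Q) m hm5 hS
  exact ⟨ω, hω, one_phase μ hY⟩

end

end Pool.Agent.MG990.N899
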