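import Mathlib
import Pool.Agent.N899.YM.SB6
import Pool.Agent.N899.YM.Site
import Pool.Agent.N899.SB.Stm

/-!
# The variation over many time steps, and the symmetric torus
-/

open MeasureTheory Matrix Filter
open scoped Matrix.Norms.Frobenius Topology
open Pool.Agent.H906R3.YM hiding Pl
open Pool.Agent.W793.YM Pool.Agent.TH618.YM Pool.Agent.Y14
open Pool.Agent.N899.YM

namespace Pool.Agent.MG990.N899

set_option linter.unusedSectionVars false
set_option linter.unusedVariables false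

noncomputable section

variable {G : Type*} [Group G] [TopologicalSpace G] [IsTopologicalGroup G] [CompactSpace G]
  [SecondCountableTopology G] [MeasurableSpace G] [BorelSpace G] (μ : Measure G)
  [IsProbabilityMeasure μ] [μ.IsMulLeftInvariant] [μ.IsMulRightInvariant] [μ.IsInvInvariant]
  {N n : ℕ} {L : LD G N n}

/-- **the variation over `t` time steps is at most `t` times the one over one time step** -/
theorem step_all {d m : ℕ} [NeZero m] {τ : Fin d} (hm : 2 ≤ m) {β : ℝ} (hβ : 0 ≤ β)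
    {F : (Ed d (2 * m) → G) → ℝ} (hc : Continuous F) (hg : GI F) (hF : Sp τ F)
    {t : ℕ} (ht : t ≤ 2 * m) :
    EX μ L β (fun U => (F (tr (sv τ (t : ZMod (2 * m))) U) - F U) ^ 2) ≤
      t * EX μ L β (fun U => (F (tr (eT τ) U) - F U) ^ 2) := by
  obtain ⟨Z, hZ⟩ : ∃ Z, Z = Zt μ L β (fun _ : Ed d (2 * m) → G => 1) := ⟨_, rfl⟩
  have hZ0 : 0 < Z := by rw [hZ]; exact Zt_pos μ β
  obtain ⟨S, hS⟩ : ∃ S, S = Zt μ L β (fun U : Ed d (2 * m) → G => (F (tr (eT τ) U) - F U) ^ 2) :=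
    ⟨_, rfl⟩
  have hS0 : 0 ≤ S := by rw [hS]; exact Zt_nonneg μ fun U => sq_nonneg _
  -- a bound of `F`
  obtain ⟨B, hB⟩ : ∃ B : ℝ, ∀ U, |F U| ≤ B := by
    obtain ⟨B, hB⟩ := (isCompact_univ.image hc).isBounded.exists_norm_le
    exact ⟨B, fun U => hB _ ⟨U, trivial, rfl⟩⟩
  obtain ⟨K, hK⟩ : ∃ K : ℝ, K = |B| + 1 + S / Z := ⟨_, rfl⟩
  have hK1 : ∀ U, 1 + S / Z ≤ F U + K := fun U => by
    have h1 := (abs_le.1 (hB U)).1
    have h2 := le_abs_self B
    rw [hK]; linarith
  obtain ⟨H, hH⟩ : ∃ H : (Ed d (2 * m) → G) → ℝ, H = fun U => F U + K := ⟨_, rfl⟩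
  have hHc : Continuous H := by rw [hH]; exact hc.add continuous_const
  have hHg : GI H := by
    intro γ U
    rw [hH]
    show F _ + K = F U + K
    rw [hg γ U]
  have hHs : Sp τ H := by
    intro U U' h
    rw [hH]
    show F U + K = F U' + K
    rw [hF U U' h]
  have hHd : ∀ z, (fun U : Ed d (2 * m) → G => (H (tr z U) - H U) ^ 2) =
      fun U => (F (tr z U) - F U) ^ 2 := by
    intro z
    funext U
    rw [hH]
    show (F (tr z U) + K - (F U + K)) ^ 2 = _
    congr 1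
    ring
  obtain ⟨V, hV⟩ : ∃ V, V = Zt μ L β (fun U : Ed d (2 * m) → G => H U ^ 2) := ⟨_, rfl⟩
  have hSZ : 0 ≤ S / Z := div_nonneg hS0 hZ0.le
  have hVS : S < V := by
    have h1 := Zt_mono μ (L := L) (β := β)
      (F := fun _ : Ed d (2 * m) → G => (1 + S / Z) * 1) (H := fun U => H U ^ 2)
      continuous_const (hHc.pow 2) (fun U => by
        have h2 := hK1 U
        rw [hH]
        show (1 + S / Z) * 1 ≤ (F U + K) ^ 2
        nlinarith)
    rw [Zt_smul, ← hZ, ← hV, add_mul, one_mul, div_mul_cancel₀ _ hZ0.ne'] at h1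
    linarith
  have hV0 : 0 < V := lt_of_le_of_lt hS0 hVS
  have hδ : S / V < 1 := (div_lt_one hV0).2 hVS
  have h1 := corr_all μ (L := L) hm hβ hHc hHg hHs (δ := S / V) (by linarith)
    (by rw [← hV]; exact hV0) (by
      rw [hHd, ← hS, ← hV, div_mul_cancel₀ _ hV0.ne']) ht
  rw [← hV] at h1
  have h2 : 1 - t * (1 / 2 * (S / V)) ≤ (1 - 1 / 2 * (S / V)) ^ t := by
    have h3 := one_add_mul_le_pow (a := -(1 / 2 * (S / V))) (by
      have : 0 ≤ S / V := div_nonneg hS0 hV0.le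
      linarith) t
    rw [← sub_eq_add_neg] at h3
    linarith
  have h3 : V - t * (1 / 2 * S) ≤ Zt μ L β (fun U => H U * H (tr (sv τ (t : ZMod (2 * m))) U)) := by
    refine le_trans ?_ h1
    have h4 := mul_le_mul_of_nonneg_right h2 hV0.le
    have h5 : (1 - t * (1 / 2 * (S / V))) * V = V - t * (1 / 2 * S) := by
      field_simp
    rw [h5] at h4
    exact h4
  have h4 : Zt μ L β (fun U => H U * H (tr (sv τ (t : ZMod (2 * m))) U)) = V - 1 / 2 *
      Zt μ L β (fun U : Ed d (2 * m) → G => (F (tr (sv τ (t : ZMod (2 * m))) U) - F U) ^ 2) := by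
    have h5 := hHd (sv τ (t : ZMod (2 * m)))
    rw [← h5]
    have c1 : Continuous fun U : Ed d (2 * m) → G => H (tr (sv τ (t : ZMod (2 * m))) U) ^ 2 :=
      (hHc.comp (tr_cont _)).pow 2
    have c2 : Continuous fun U : Ed d (2 * m) → G => H U ^ 2 := hHc.pow 2
    have c3 : Continuous fun U : Ed d (2 * m) → G =>
        (-2) * (H U * H (tr (sv τ (t : ZMod (2 * m))) U)) :=
      continuous_const.mul (hHc.mul (hHc.comp (tr_cont _)))
    have e1 : (fun U : Ed d (2 * m) → G => (H (tr (sv τ (t : ZMod (2 * m))) U) - H U) ^ 2) =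
        fun U => (H (tr (sv τ (t : ZMod (2 * m))) U) ^ 2 + H U ^ 2) +
          (-2) * (H U * H (tr (sv τ (t : ZMod (2 * m))) U)) := by
      funext U; ring
    have c12 : Continuous fun U : Ed d (2 * m) → G =>
        H (tr (sv τ (t : ZMod (2 * m))) U) ^ 2 + H U ^ 2 := c1.add c2
    rw [e1, Zt_add μ c12 c3, Zt_add μ c1 c2, Zt_smul]
    have e2 := Zt_tr μ (L := L) β (sv τ (t : ZMod (2 * m))) (fun U : Ed d (2 * m) → G => H U ^ 2)
    rw [e2, ← hV]
    ring
  rw [h4] at h3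
  have h5 : Zt μ L β (fun U : Ed d (2 * m) → G =>
      (F (tr (sv τ (t : ZMod (2 * m))) U) - F U) ^ 2) ≤ t * S := by linarith
  unfold EX
  rw [← hZ, ← hS, ← mul_div_assoc]
  exact div_le_div_of_nonneg_right h5 hZ0.le

end

end Pool.Agent.MG990.N899
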