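import Mathlib
import Pool.Agent.N899.YM.SB7
import Pool.Agent.N899.SB.Stm
import Pool.Agent.N899.SB.Ring
import Pool.Agent.N899.SB.Slice

/-!
# The symmetric torus: expectations of functions of two time slices
-/

open MeasureTheory Matrix Filter
open scoped Matrix.Norms.Frobenius Topology
open Pool.Agent.H906R3.YM hiding Pl
open Pool.Agent.W793.YM Pool.Agent.TH618.YM Pool.Agent.Y14
open Pool.Agent.N899.YM Pool.Agent.N899.SB

namespace Pool.Agent.MG990.N899

set_option linter.unusedSectionVars false
set_option linter.unusedVariables false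

noncomputable section

/-- the sites of the symmetric torus -/
def siE (D l : ℕ) : (Fin (D + 1) → ZMod l) ≃ St D l l where
  toFun x := (fun i => x i.castSucc, x (Fin.last D))
  invFun y := Fin.snoc (α := fun _ => ZMod l) y.1 y.2
  left_inv x := by
    funext i
    refine Fin.lastCases ?_ (fun i => ?_) i
    · simp
    · simp
  right_inv y := by
    refine Prod.ext (funext fun i => ?_) ?_
    · simp
    · simp

lemma siE_add {D l : ℕ} (x : Fin (D + 1) → ZMod l) (i : Fin (D + 1)) :
    siE D l (x + eT i) = siE D l x + ev D l l i := by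
  refine Fin.lastCases ?_ (fun k => ?_) i
  · refine Prod.ext (funext fun j => ?_) ?_
    · show (x + eT (Fin.last D) : Fin (D + 1) → ZMod l) j.castSucc = (siE D l x + ev D l l (Fin.last D)).1 j
      have h : j.castSucc ≠ Fin.last D := (Fin.castSucc_lt_last j).ne
      simp [siE, ev, eT, h]
    · simp [siE, ev, eT]
  · refine Prod.ext (funext fun j => ?_) ?_
    · show (x + eT k.castSucc : Fin (D + 1) → ZMod l) j.castSucc = (siE D l x + ev D l l k.castSucc).1 j
      by_cases hj : j = k
      · subst hj
        simp [siE, ev, eT]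
      · have h : j.castSucc ≠ k.castSucc := fun h => hj (Fin.castSucc_injective D h)
        simp [siE, ev, eT, h, hj]
    · have h : Fin.last D ≠ k.castSucc := (Fin.castSucc_lt_last k).ne'
      simp [siE, ev, eT, h]

variable {G : Type} [Group G] [TopologicalSpace G] [IsTopologicalGroup G] [CompactSpace G]
  [SecondCountableTopology G] [MeasurableSpace G] [BorelSpace G] (μ : Measure G)
  [IsProbabilityMeasure μ] [μ.IsMulLeftInvariant] [μ.IsMulRightInvariant] [μ.IsInvInvariant]
  {N n : ℕ} {L : LD G N n} {D l : ℕ} [NeZero l]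

/-- the configurations of the symmetric torus -/
def trs (U : St D l l × Fin (D + 1) → G) : Ed (D + 1) l → G := fun e => U (siE D l e.1, e.2)

/-- the time slices -/
def slT (U : Ed (D + 1) l → G) (τ : ZMod l) : Sl D l G :=
  fun p => U ((siE D l).symm (p.1, τ), p.2.castSucc)

omit [NeZero l] in
lemma slT_trs (U : St D l l × Fin (D + 1) → G) : slT (trs U) = slice U := by
  funext τ p
  unfold slT trs slice
  rw [Equiv.apply_symm_apply]

lemma act_trs (U : St D l l × Fin (D + 1) → G) :
    act L (trs U) = ac (we L) (ev D l l) U := by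
  unfold act ac
  rw [← Equiv.sum_comp (siE D l)]
  refine Finset.sum_congr rfl fun x _ => Finset.sum_congr rfl fun i _ =>
    Finset.sum_congr rfl fun j _ => ?_
  have h : plqT (trs U) x i j = pq (ev D l l) U (siE D l x) i j := by
    unfold plqT pq trs
    simp only [siE_add]
  rw [h]

/-- the links -/
def lkE (D l : ℕ) : St D l l × Fin (D + 1) ≃ Ed (D + 1) l :=
  Equiv.prodCongr (siE D l).symm (Equiv.refl _)

lemma Zt_trs (β : ℝ) (F : (Ed (D + 1) l → G) → ℝ) :
    Zt μ L β F = ∫ U : St D l l × Fin (D + 1) → G,
      F (trs U) * Real.exp (-(β * ac (we L) (ev D l l) U)) ∂(Measure.pi fun _ => μ) := by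
  unfold Zt
  have h1 := measurePreserving_piCongrLeft (fun _ : Ed (D + 1) l => μ) (lkE D l)
  have h1' : ∀ (U : St D l l × Fin (D + 1) → G),
      (MeasurableEquiv.piCongrLeft (fun _ : Ed (D + 1) l => G) (lkE D l)) U = trs U := by
    intro U
    funext e
    have h6 : e = lkE D l (siE D l e.1, e.2) := by
      refine Prod.ext ?_ rfl
      show e.1 = (siE D l).symm (siE D l e.1)
      rw [Equiv.symm_apply_apply]
    conv_lhs => rw [h6]
    exact Equiv.piCongrLeft_apply_apply (fun _ : Ed (D + 1) l => G) (lkE D l) U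
      (siE D l e.1, e.2)
  have h3 := h1.integral_comp (MeasurableEquiv.measurableEmbedding _)
    (fun U : Ed (D + 1) l → G => F U * Real.exp (-(β * act L U)))
  rw [← h3]
  refine integral_congr_ae (Filter.Eventually.of_forall fun U => ?_)
  simp only
  rw [h1', act_trs]

/-- **functions of the time slices** -/
theorem Zt_slices (β : ℝ) {Φ : (ZMod l → Sl D l G) → ℝ} (hΦ : Continuous Φ) :
    Zt μ L β (fun U : Ed (D + 1) l → G => Φ (slT U)) =
    ∫ V : ZMod l → Sl D l G, Φ V * ∏ τ, ker μ (we L) β (V τ) (V (τ + 1))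
      ∂(Measure.pi fun _ => Measure.pi fun _ => μ) := by
  rw [Zt_trs]
  simp only [slT_trs]
  exact Slice.t_SLICE G μ (we L) we_cont D l l β Φ hΦ

end

end Pool.Agent.MG990.N899
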