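import Mathlib
import Pool.Agent.N899.YM.SB8
import Pool.Agent.N899.SB.Ker
import Pool.Agent.N899.SB.Kit
import Pool.Agent.N899.SB.Chain
import Pool.Agent.N899.SB.Entropic

/-!
# Functions of one time slice, expectations of functions of two time slices
-/

open MeasureTheory Matrix Filter
open scoped Matrix.Norms.Frobenius Topology
open Pool.Agent.H906R3.YM hiding Pl
open Pool.Agent.W793.YM Pool.Agent.TH618.YM Pool.Agent.Y14
open Pool.Agent.N899.YM Pool.Agent.N899.SB

namespace Pool.Agent.MG990.N899

set_option linter.unusedSectionVars false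
set_option linter.unusedVariables false

noncomputable section

variable {G : Type} [Group G] [TopologicalSpace G] [IsTopologicalGroup G] [CompactSpace G]
  [SecondCountableTopology G] [MeasurableSpace G] [BorelSpace G] (μ : Measure G)
  [IsProbabilityMeasure μ] [μ.IsMulLeftInvariant] [μ.IsMulRightInvariant] [μ.IsInvInvariant]
  {N n : ℕ} {L : LD G N n}

section slice

variable {D l : ℕ} [NeZero l]

omit [NeZero l] in
lemma slT_cont : Continuous (slT : (Ed (D + 1) l → G) → ZMod l → Sl D l G) :=
  continuous_pi fun τ => continuous_pi fun p => continuous_apply _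

/-- the extension of a time slice to a configuration -/
def exS (u : Sl D l G) : Ed (D + 1) l → G := fun e =>
  Fin.lastCases (motive := fun _ => G) 1 (fun i => u (fun k => e.1 k.castSucc, i)) e.2

omit [NeZero l] in
lemma exS_cont : Continuous (exS : Sl D l G → Ed (D + 1) l → G) := by
  refine continuous_pi fun e => ?_
  obtain ⟨x, i⟩ := e
  refine Fin.lastCases ?_ (fun k => ?_) i
  · simp only [exS, Fin.lastCases_last]
    exact continuous_const
  · simp only [exS, Fin.lastCases_castSucc]
    exact continuous_apply _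

omit [NeZero l] in
lemma siE_symm_castSucc (y : St D l l) (k : Fin D) :
    (siE D l).symm y k.castSucc = y.1 k := by simp [siE]

omit [NeZero l] in
lemma siE_symm_last (y : St D l l) : (siE D l).symm y (Fin.last D) = y.2 := by simp [siE]

omit [NeZero l] in
/-- a function of the spatial links at time zero -/
lemma Sp_slice {F : (Ed (D + 1) l → G) → ℝ} (hF : Sp (Fin.last D) F) (U : Ed (D + 1) l → G) :
    F (exS (slT U 0)) = F U := by
  refine hF _ _ fun x i hx hi => ?_
  obtain ⟨k, rfl⟩ := Fin.exists_castSucc_eq.2 hi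
  simp only [exS, Fin.lastCases_castSucc, slT]
  congr 2
  funext j
  refine Fin.lastCases ?_ (fun j => ?_) j
  · rw [siE_symm_last, hx]
  · rw [siE_symm_castSucc]

omit [NeZero l] in
lemma slT_tr (U : Ed (D + 1) l → G) (s : ZMod l) :
    slT (tr (sv (Fin.last D) s) U) 0 = slT U s := by
  funext p
  unfold slT tr
  congr 2
  funext j
  refine Fin.lastCases ?_ (fun j => ?_) j
  · rw [siE_symm_last, Pi.add_apply]
    simp only
    rw [siE_symm_last]
    simp [sv]
  · rw [siE_symm_castSucc, Pi.add_apply]
    simp only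
    rw [siE_symm_castSucc]
    have h : j.castSucc ≠ Fin.last D := (Fin.castSucc_lt_last j).ne
    simp [sv, h]

omit [NeZero l] in
lemma Sp_slice' {F : (Ed (D + 1) l → G) → ℝ} (hF : Sp (Fin.last D) F) (U : Ed (D + 1) l → G)
    (s : ZMod l) : F (exS (slT U s)) = F (tr (sv (Fin.last D) s) U) := by
  rw [← slT_tr, Sp_slice hF]

/-- the transfer matrix -/
def kr (L : LD G N n) (β : ℝ) (D l : ℕ) [NeZero l] : Sl D l G → Sl D l G → ℝ :=
  fun u v => ker μ (we L) β u v

lemma kr_good (β : ℝ) : Continuous (fun p : Sl D l G × Sl D l G => kr μ L β D l p.1 p.2) ∧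
    (∀ u v : Sl D l G, 0 < kr μ L β D l u v) ∧
    ∀ u v : Sl D l G, kr μ L β D l u v = kr μ L β D l v u :=
  Ker.t_KER G μ (we L) we_cont we_inv (fun g h => we_conj h g) D l β

variable (D l) in
/-- the reference measure of the time slices -/
abbrev MS : Measure (Sl D l G) := Measure.pi fun _ => μ

/-- **expectations of functions of two time slices** -/
theorem Zt_two (β : ℝ) {n' s' : ℕ} (hl : l = n' + 2) (hs : s' ≤ n')
    {H : Sl D l G → Sl D l G → ℝ} (hH : Continuous fun p : Sl D l G × Sl D l G => H p.1 p.2) :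
    Zt μ L β (fun U : Ed (D + 1) l → G => H (slT U 0) (slT U ((s' + 1 : ℕ) : ZMod l))) =
      ∫ u, ∫ v, H u v * (kit (MS μ D l) (kr μ L β D l) s' u v *
        kit (MS μ D l) (kr μ L β D l) (n' - s') v u) ∂(MS μ D l) ∂(MS μ D l) := by
  subst hl
  have hΦ : Continuous fun V : ZMod (n' + 2) → Sl D (n' + 2) G =>
      H (V 0) (V ((s' + 1 : ℕ) : ZMod (n' + 2))) := by
    have h0 : Continuous fun V : ZMod (n' + 2) → Sl D (n' + 2) G =>
        (V 0, V ((s' + 1 : ℕ) : ZMod (n' + 2))) :=
      (continuous_apply (0 : ZMod (n' + 2))).prodMk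
        (continuous_apply ((s' + 1 : ℕ) : ZMod (n' + 2)))
    exact hH.comp h0
  have h1 := Zt_slices μ (L := L) (D := D) (l := n' + 2) β hΦ
  have h2 := (Ring.t_RING (Sl D (n' + 2) G) (MS μ D (n' + 2)) (kr μ L β D (n' + 2))
    (kr_good μ β).1).2 n' s' hs H hH
  exact h1.trans h2

end slice

end

end Pool.Agent.MG990.N899
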