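import Mathlib
import Pool.Agent.N899.YM.SB9
import Pool.Agent.N899.SB.Mutual

/-!
# The mutual information of two time slices of the torus
-/

open MeasureTheory Matrix Filter
open scoped Matrix.Norms.Frobenius Topology
open Pool.Agent.H906R3.YM hiding Pl
open Pool.Agent.W793.YM Pool.Agent.TH618.YM Pool.Agent.Y14
open Pool.Agent.N899.YM Pool.Agent.N899.SB

namespace Pool.Agent.MG990.N899

set_option linter.unusedSectionVars false
set_option linter.unusedVariables false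

noncomputable section

variable {G : Type} [Group G] [TopologicalSpace G] [IsTopologicalGroup G] [CompactSpace G]
  [SecondCountableTopology G] [MeasurableSpace G] [BorelSpace G] (μ : Measure G)
  [IsProbabilityMeasure μ] [μ.IsMulLeftInvariant] [μ.IsMulRightInvariant] [μ.IsInvInvariant]
  {N n : ℕ} {L : LD G N n}

/-- expectations of functions of two time slices -/
lemma EX_two {D l : ℕ} [NeZero l] (β : ℝ) {a b : ℕ} (hl : l = 2 * a + 2 + (2 * b + 2))
    {H : Sl D l G → Sl D l G → ℝ} (hH : Continuous fun p : Sl D l G × Sl D l G => H p.1 p.2) :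
    (∫ u, ∫ v, H u v * (kit (MS μ D l) (kr μ L β D l) (2 * a + 1) u v *
        kit (MS μ D l) (kr μ L β D l) (2 * b + 1) v u) ∂(MS μ D l) ∂(MS μ D l)) /
      trk (MS μ D l) (kr μ L β D l) (2 * a + 1 + (2 * b + 1) + 1) =
    EX μ L β (fun U : Ed (D + 1) l → G => H (slT U 0) (slT U ((2 * a + 1 + 1 : ℕ) : ZMod l))) := by
  have h1 := Zt_two μ (L := L) (D := D) (l := l) β (n' := 2 * a + 2 + 2 * b) (s' := 2 * a + 1)
    (by omega) (by omega) hH
  have h2 := Zt_two μ (L := L) (D := D) (l := l) β (n' := 2 * a + 2 + 2 * b) (s' := 2 * a + 1)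
    (by omega) (by omega) (H := fun _ _ => 1) continuous_const
  have e1 : 2 * a + 2 + 2 * b - (2 * a + 1) = 2 * b + 1 := by omega
  rw [e1] at h1 h2
  unfold EX
  rw [h1, h2]
  congr 1
  obtain ⟨kc, k0, ks, kcomp, -⟩ := Kit.t_KIT (Sl D l G) (MS μ D l) (kr μ L β D l)
    (kr_good μ β).1 (kr_good μ β).2.1 (kr_good μ β).2.2
  unfold trk
  refine integral_congr_ae (Filter.Eventually.of_forall fun u => ?_)
  simp only [one_mul]
  exact (kcomp _ _ u u).symm

variable {e m : ℕ} [NeZero m] {q r M : ℕ} {β : ℝ}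

/-- **the mutual information of two time slices** -/
theorem cells (hm : 2 ≤ m) (hβ : 0 ≤ β) (hq : 1 ≤ q) (hqr : q = 2 ^ r) {a0 : ℕ}
    (ha : 32 * q * ((e + 2) * M) + 4 * q + 1 ≤ a0) (ham : a0 < 2 * m) {ω c0 Δ : ℝ}
    {φ : ℝ → ℝ} (hφ : PhF φ)
    (hvar : ∀ Y : (Ed (e + 3) (2 * m) → G) → ℝ, Continuous Y →
        (∀ (a : Fin n) (s : ℝ) (U : Ed (e + 3) (2 * m) → G), Y (Ps L q a s U) = Y U) →
        c0 ≤ EX μ L β (fun U : Ed (e + 3) (2 * m) → G =>
          (1 / 2 + 1 / 4 * φ (ω * ‖psi L r q U‖) - Y U) ^ 2))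
    (hdif : EX μ L β (fun U : Ed (e + 3) (2 * m) → G =>
        (Fq L r q (tr (eT (Fin.last (e + 2))) U) - Fq L r q U) ^ 2) ≤ Δ)
    {a b : ℕ} (hab : 2 * m = 2 * a + 2 + (2 * b + 2)) :
    (Fintype.card (PG e × (Fin (e + 2) → Fin M)) : ℝ) *
      (2 * c0 - 16 / 3 * ((1 / 4 * ω) ^ 2 * ((2 * a + 1 + 1 : ℕ) * Δ))) ≤
    Real.log (trk (MS μ (e + 2) (2 * m)) (kr μ L β (e + 2) (2 * m)) (2 * a + 1)) +
      Real.log (trk (MS μ (e + 2) (2 * m)) (kr μ L β (e + 2) (2 * m)) (2 * b + 1)) -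
      Real.log (trk (MS μ (e + 2) (2 * m)) (kr μ L β (e + 2) (2 * m))
        (2 * a + 1 + (2 * b + 1) + 1)) := by
  classical
  obtain ⟨A, hA⟩ : ∃ A : PG e × (Fin (e + 2) → Fin M) → (Ed (e + 3) (2 * m) → G) → ℝ,
    A = fun x => AO L r q M (a0 : ZMod (2 * m)) x := ⟨_, rfl⟩
  have hAc : ∀ x, Continuous (A x) := fun x => by rw [hA]; exact AO_cont x
  have hAg : ∀ x, GI (A x) := fun x => by rw [hA]; exact AO_GI hqr x
  have hAs : ∀ x, Sp (Fin.last (e + 2)) (A x) := fun x => by rw [hA]; exact AO_Sp hqr x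
  obtain ⟨w, hw⟩ : ∃ w : PG e × (Fin (e + 2) → Fin M) → Sl (e + 2) (2 * m) G → ℝ,
    w = fun x u => 1 / 2 + 1 / 4 * φ (ω * A x (exS u)) := ⟨_, rfl⟩
  have hwc : ∀ x, Continuous (w x) := fun x => by
    rw [hw]
    exact continuous_const.add (continuous_const.mul (hφ.cont.comp
      (continuous_const.mul ((hAc x).comp exS_cont))))
  have hw1 : ∀ x u, 1 / 4 ≤ w x u ∧ w x u ≤ 3 / 4 := fun x u => by
    obtain ⟨h1, h2⟩ := abs_le.1 (hφ.abs_le (ω * A x (exS u)))
    rw [hw]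
    constructor
    · show 1 / 4 ≤ 1 / 2 + 1 / 4 * φ (ω * A x (exS u))
      linarith
    · show 1 / 2 + 1 / 4 * φ (ω * A x (exS u)) ≤ 3 / 4
      linarith
  have hw0 : ∀ x U, w x (slT U 0) = 1 / 2 + 1 / 4 * φ (ω * A x U) := fun x U => by
    rw [hw]
    show 1 / 2 + 1 / 4 * φ (ω * A x (exS (slT U 0))) = _
    rw [Sp_slice (hAs x)]
  have hws : ∀ x U (s : ZMod (2 * m)), w x (slT U s) =
      1 / 2 + 1 / 4 * φ (ω * A x (tr (sv (Fin.last (e + 2)) s) U)) := fun x U s => by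
    rw [hw]
    show 1 / 2 + 1 / 4 * φ (ω * A x (exS (slT U s))) = _
    rw [Sp_slice' (hAs x)]
  have key := mutual_info (MS μ (e + 2) (2 * m)) (kr_good μ (L := L) β).1
    (kr_good μ (L := L) β).2.1 (kr_good μ (L := L) β).2.2 a b
    (Finset.univ : Finset (PG e × (Fin (e + 2) → Fin M))) hwc hw1 (v0 := c0)
    (δ := (1 / 4 * ω) ^ 2 * ((2 * a + 1 + 1 : ℕ) * Δ)) (E := fun F =>
      (∫ u, ∫ v, F u v * (kit (MS μ (e + 2) (2 * m)) (kr μ L β (e + 2) (2 * m)) (2 * a + 1) u v *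
        kit (MS μ (e + 2) (2 * m)) (kr μ L β (e + 2) (2 * m)) (2 * b + 1) v u)
          ∂(MS μ (e + 2) (2 * m)) ∂(MS μ (e + 2) (2 * m))) /
      trk (MS μ (e + 2) (2 * m)) (kr μ L β (e + 2) (2 * m)) (2 * a + 1 + (2 * b + 1) + 1))
    (fun F => rfl) (fun x0 _ γ hγ hγ' => ?_) (fun x _ => ?_)
  · rw [Finset.card_univ] at key
    exact key
  · -- the lower bound
    have hwγ : Continuous fun u : Sl (e + 2) (2 * m) G => γ (fun x => w x u) :=
      hγ.comp (continuous_pi fun x => hwc x)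
    have h1 := EX_two μ (L := L) (D := e + 2) (l := 2 * m) β hab
      (H := fun u _ => (w x0 u - γ (fun x => w x u)) ^ 2)
      ((((hwc x0).comp continuous_fst).sub (hwγ.comp continuous_fst)).pow 2)
    refine le_trans ?_ (le_of_eq h1.symm)
    simp only [hw0]
    have h2 := EX_Phi μ (L := L) (β := β) (r := r) (q := q) (a := (a0 : ZMod (2 * m))) x0
      (fun U : Ed (e + 3) (2 * m) → G => (1 / 2 + 1 / 4 * φ (ω * A x0 U) -
        γ (fun x => 1 / 2 + 1 / 4 * φ (ω * A x U))) ^ 2)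
    refine le_trans ?_ (le_of_eq h2)
    have h3 : ∀ W : Ed (e + 3) (2 * m) → G,
        A x0 (Phi r q M (a0 : ZMod (2 * m)) x0 W) = ‖psi L r q W‖ := fun W => by
      rw [hA]
      exact AO_Phi x0 W
    simp only [h3]
    refine hvar (fun W => γ (fun x => 1 / 2 + 1 / 4 *
      φ (ω * A x (Phi r q M (a0 : ZMod (2 * m)) x0 W)))) ?_ (fun bb s W => ?_)
    · exact hγ.comp (continuous_pi fun x => continuous_const.add (continuous_const.mul
        (hφ.cont.comp (continuous_const.mul ((hAc x).comp (Phi_cont x0))))))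
    · refine hγ' _ _ fun x hx => ?_
      have h4 : A x (Phi r q M (a0 : ZMod (2 * m)) x0 (Ps L q bb s W)) =
          A x (Phi r q M (a0 : ZMod (2 * m)) x0 W) := by
        rw [hA]
        exact AO_inv hq hqr ha ham hx bb s W
      show 1 / 2 + 1 / 4 * φ (ω * A x (Phi r q M (a0 : ZMod (2 * m)) x0 (Ps L q bb s W))) = _
      rw [h4]
  · -- the variation
    have h1 := EX_two μ (L := L) (D := e + 2) (l := 2 * m) β hab
      (H := fun u v => (w x u - w x v) ^ 2)
      ((((hwc x).comp continuous_fst).sub ((hwc x).comp continuous_snd)).pow 2)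
    refine le_trans (le_of_eq h1) ?_
    simp only [hw0, hws]
    obtain ⟨s, hs⟩ : ∃ s : ℕ, s = 2 * a + 1 + 1 := ⟨_, rfl⟩
    rw [← hs]
    have hcA : Continuous fun U : Ed (e + 3) (2 * m) → G =>
        A x (tr (sv (Fin.last (e + 2)) (s : ZMod (2 * m))) U) := (hAc x).comp (tr_cont _)
    have c1 : Continuous fun U : Ed (e + 3) (2 * m) → G =>
        (1 / 2 + 1 / 4 * φ (ω * A x U) - (1 / 2 + 1 / 4 *
          φ (ω * A x (tr (sv (Fin.last (e + 2)) (s : ZMod (2 * m))) U)))) ^ 2 :=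
      ((continuous_const.add (continuous_const.mul (hφ.cont.comp
        (continuous_const.mul (hAc x))))).sub (continuous_const.add (continuous_const.mul
          (hφ.cont.comp (continuous_const.mul hcA))))).pow 2
    have c2 : Continuous fun U : Ed (e + 3) (2 * m) → G =>
        (1 / 4 * ω) ^ 2 * (A x (tr (sv (Fin.last (e + 2)) (s : ZMod (2 * m))) U) - A x U) ^ 2 :=
      continuous_const.mul ((hcA.sub (hAc x)).pow 2)
    refine (EX_mono μ (L := L) (β := β) c1 c2 fun U => ?_).trans ?_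
    · obtain ⟨y, hy⟩ : ∃ y, y = A x U := ⟨_, rfl⟩
      obtain ⟨z, hz⟩ : ∃ z, z = A x (tr (sv (Fin.last (e + 2)) (s : ZMod (2 * m))) U) := ⟨_, rfl⟩
      rw [← hy, ← hz]
      have h2 := hφ.lip (ω * y) (ω * z)
      have h3 : (φ (ω * y) - φ (ω * z)) ^ 2 ≤ (ω * y - ω * z) ^ 2 := sq_le_sq.2 h2
      have e1 : (1 / 2 + 1 / 4 * φ (ω * y) - (1 / 2 + 1 / 4 * φ (ω * z))) ^ 2 =
          (1 / 4) ^ 2 * (φ (ω * y) - φ (ω * z)) ^ 2 := by ring
      have e2 : (1 / 4 * ω) ^ 2 * (z - y) ^ 2 = (1 / 4) ^ 2 * (ω * y - ω * z) ^ 2 := by ring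
      rw [e1, e2]
      exact mul_le_mul_of_nonneg_left h3 (by positivity)
    · rw [EX_smul]
      refine mul_le_mul_of_nonneg_left ?_ (sq_nonneg _)
      have h2 := step_all μ (L := L) (τ := Fin.last (e + 2)) hm hβ (hAc x) (hAg x) (hAs x)
        (t := s) (by omega)
      refine h2.trans (mul_le_mul_of_nonneg_left ?_ (Nat.cast_nonneg s))
      have h3 := AO_dif μ (L := L) (β := β) (r := r) (q := q) (M := M)
        (a := (a0 : ZMod (2 * m))) x
      rw [hA]
      exact (le_of_eq h3).trans hdif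

end

end Pool.Agent.MG990.N899
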