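import Mathlib
import Pool.Agent.Y14.Defs

/-!
# Lattice Yang-Mills theory: the partition function at positive temperature
-/

open MeasureTheory Matrix
open scoped Matrix.Norms.Frobenius
open Pool.Agent.Y14.Wilson

namespace Pool.Agent.N899.Thermo

noncomputable section

/-- The sites of the lattice `(ℤ/l)^D × ℤ/s`: a point of space and a (euclidean) time. -/
abbrev Site (D l s : ℕ) := (Fin D → ZMod l) × ZMod s

/-- The unit vectors of the lattice `(ℤ/l)^D × ℤ/s`; the last one is the unit vector of the time. -/
def unit (D l s : ℕ) : Fin (D + 1) → Site D l s :=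
  Fin.lastCases (0, 1) fun i => (Pi.single i 1, 0)

variable {N D l s : ℕ} {G : Subgroup (UU N)}

/-- The product of the link variables around the plaquette at `x` in the directions `i`, `j`. The
variable of the link from `x` to `x + unit i` is `U (x, i)`. -/
def plaquette (U : Site D l s × Fin (D + 1) → G) (x : Site D l s) (i j : Fin (D + 1)) : G :=
  U (x, i) * U (x + unit D l s i, j) * (U (x + unit D l s j, i))⁻¹ * (U (x, j))⁻¹

/-- The Wilson action `∑_p Re tr (1 - U_p)`, the sum over the plaquettes of `(ℤ/l)^D × ℤ/s`. -/
def wilson [NeZero l] [NeZero s] (U : Site D l s × Fin (D + 1) → G) : ℝ :=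
  ∑ x : Site D l s, ∑ i, ∑ j, if i < j then (trace (1 - mt (plaquette U x i j))).re else 0

/-- The partition function of the lattice Yang-Mills theory on `(ℤ/l)^D × ℤ/s`, that is at the
temperature `1 / s` in the volume `(ℤ/l)^D`; `μ` is the Haar measure. -/
def partition (D l s : ℕ) [NeZero l] [NeZero s] [MeasurableSpace G] (μ : Measure G) (β : ℝ) : ℝ :=
  ∫ U : Site D l s × Fin (D + 1) → G, Real.exp (-(β * wilson U)) ∂(Measure.pi fun _ => μ)

end

end Pool.Agent.N899.Thermo
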