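import Mathlib
import Pool.Agent.N899.YM.SB10
import Pool.Agent.N899.YM.Main
import Pool.Agent.N899.YM.Thermo
import Pool.Agent.N899.SB.Seq2

/-!
# The Stefan-Boltzmann lower bound
-/

open MeasureTheory Matrix Filter
open scoped Matrix.Norms.Frobenius Topology
open Pool.Agent.H906R3.YM hiding Pl
open Pool.Agent.W793.YM Pool.Agent.TH618.YM Pool.Agent.Y14
open Pool.Agent.N899.YM Pool.Agent.N899.SB

namespace Pool.Agent.MG990.N899

set_option linter.unusedSectionVars false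
set_option linter.unusedVariables false

noncomputable section

variable {G : Type} [Group G] [TopologicalSpace G] [IsTopologicalGroup G] [CompactSpace G]
  [SecondCountableTopology G] [MeasurableSpace G] [BorelSpace G] (μ : Measure G)
  [IsProbabilityMeasure μ] [μ.IsMulLeftInvariant] [μ.IsMulRightInvariant] [μ.IsInvInvariant]
  {N n : ℕ} {L : LD G N n}

/-- the partition function is a trace -/
lemma prt_trk {D l : ℕ} [NeZero l] (β : ℝ) (n' : ℕ) :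
    prt (D := D) (l := l) (t := n' + 1) μ (we L) β = trk (MS μ D l) (kr μ L β D l) n' := by
  have h1 := Slice.t_SLICE G μ (we L) we_cont D l (n' + 1) β (fun _ => 1) continuous_const
  have h2 := (Ring.t_RING (Sl D l G) (MS μ D l) (kr μ L β D l) (kr_good μ β).1).1 n'
  simp only [one_mul] at h1
  exact h1.trans h2

/-- the logarithm of the partition function at the even time extents -/
def lb (L : LD G N n) (β : ℝ) (D l : ℕ) [NeZero l] (i : ℕ) : ℝ :=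
  Real.log (trk (MS μ D l) (kr μ L β D l) (2 * i - 1))

lemma lb_seq {D l : ℕ} [NeZero l] (β : ℝ) :
    (∀ i j, 1 ≤ i → 1 ≤ j → lb μ L β D l (i + j) ≤ lb μ L β D l i + lb μ L β D l j) ∧
    (∀ i, 1 ≤ i → 2 * lb μ L β D l (i + 1) ≤ lb μ L β D l i + lb μ L β D l (i + 2)) ∧
    ∃ C : ℝ, ∀ i : ℕ, 1 ≤ i → -(C * i) ≤ lb μ L β D l i := by
  obtain ⟨kc, k0, ks, kcomp, kcs, ksub, kcv, c, hc, hct⟩ := Kit.t_KIT (Sl D l G) (MS μ D l)
    (kr μ L β D l) (kr_good μ β).1 (kr_good μ β).2.1 (kr_good μ β).2.2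
  have tpos : ∀ n, 0 < trk (MS μ D l) (kr μ L β D l) n := fun n =>
    lt_of_lt_of_le (by positivity) (hct n)
  refine ⟨fun i j hi hj => ?_, fun i hi => ?_, -(2 * Real.log c), fun i hi => ?_⟩
  · obtain ⟨i', rfl⟩ : ∃ i', i = i' + 1 := ⟨i - 1, by omega⟩
    obtain ⟨j', rfl⟩ : ∃ j', j = j' + 1 := ⟨j - 1, by omega⟩
    unfold lb
    have e1 : 2 * (i' + 1 + (j' + 1)) - 1 = 2 * i' + 1 + (2 * j' + 1) + 1 := by omega
    have e2 : 2 * (i' + 1) - 1 = 2 * i' + 1 := by omega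
    have e3 : 2 * (j' + 1) - 1 = 2 * j' + 1 := by omega
    rw [e1, e2, e3, ← Real.log_mul (tpos _).ne' (tpos _).ne']
    exact Real.log_le_log (tpos _) (ksub i' j')
  · obtain ⟨i', rfl⟩ : ∃ i', i = i' + 1 := ⟨i - 1, by omega⟩
    unfold lb
    have e1 : 2 * (i' + 1 + 1) - 1 = 2 * i' + 3 := by omega
    have e2 : 2 * (i' + 1) - 1 = 2 * i' + 1 := by omega
    have e3 : 2 * (i' + 1 + 2) - 1 = 2 * i' + 5 := by omega
    rw [e1, e2, e3, ← Real.log_mul (tpos _).ne' (tpos _).ne']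
    have h1 := Real.log_le_log (pow_pos (tpos _) 2) (kcv i')
    rw [Real.log_pow] at h1
    exact_mod_cast h1
  · unfold lb
    have e1 : (2 * i - 1) + 1 = 2 * i := by omega
    have h1 := Real.log_le_log (by positivity) (hct (2 * i - 1))
    rw [e1, Real.log_pow] at h1
    refine le_trans (le_of_eq ?_) h1
    push_cast
    ring

/-- **the Stefan-Boltzmann lower bound**, at one scale -/
theorem sb_scale {e m : ℕ} [NeZero m] {q r M : ℕ} {β : ℝ} (hm : 2 ≤ m) (hβ : 0 ≤ β) (hq : 1 ≤ q)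
    (hqr : q = 2 ^ r) {a0 : ℕ}
    (ha : 32 * q * ((e + 2) * M) + 4 * q + 1 ≤ a0) (ham : a0 < 2 * m) {ω c0 Δ : ℝ} (hc0 : 0 ≤ c0)
    {φ : ℝ → ℝ} (hφ : PhF φ)
    (hvar : ∀ Y : (Ed (e + 3) (2 * m) → G) → ℝ, Continuous Y →
        (∀ (a : Fin n) (s : ℝ) (U : Ed (e + 3) (2 * m) → G), Y (Ps L q a s U) = Y U) →
        c0 ≤ EX μ L β (fun U : Ed (e + 3) (2 * m) → G =>
          (1 / 2 + 1 / 4 * φ (ω * ‖psi L r q U‖) - Y U) ^ 2))
    (hdif : EX μ L β (fun U : Ed (e + 3) (2 * m) → G =>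
        (Fq L r q (tr (eT (Fin.last (e + 2))) U) - Fq L r q U) ^ 2) ≤ Δ)
    {i : ℕ} (hi : 1 ≤ i) (him : 2 * i ≤ m)
    (hs : 16 / 3 * ((1 / 4 * ω) ^ 2 * ((2 * i : ℕ) * Δ)) ≤ c0) (t : ℕ) (ht : i ≤ t) :
    (M : ℝ) ^ (e + 2) * c0 / 2 * (1 / i - 1 / t) ≤
      lb μ L β (e + 2) (2 * m) i / i - lb μ L β (e + 2) (2 * m) t / t := by
  obtain ⟨h1, h2, C, h3⟩ := lb_seq μ (L := L) (D := e + 2) (l := 2 * m) β
  refine Seq2.t_SEQ2 (lb μ L β (e + 2) (2 * m)) C _ i m h1 h2 h3 hi him ?_ t ht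
  obtain ⟨a, rfl⟩ : ∃ a, i = a + 1 := ⟨i - 1, by omega⟩
  obtain ⟨b, hb⟩ : ∃ b, m = a + b + 2 := ⟨m - a - 2, by omega⟩
  have hab : 2 * m = 2 * a + 2 + (2 * b + 2) := by omega
  have key := cells μ (L := L) hm hβ hq hqr ha ham hφ hvar hdif hab
  unfold lb
  have e1 : 2 * (a + 1) - 1 = 2 * a + 1 := by omega
  have e2 : 2 * (m - (a + 1)) - 1 = 2 * b + 1 := by omega
  have e3 : 2 * m - 1 = 2 * a + 1 + (2 * b + 1) + 1 := by omega
  rw [e1, e2, e3]
  refine le_trans ?_ key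
  have e4 : 2 * a + 1 + 1 = 2 * (a + 1) := by omega
  rw [e4]
  have hcard : (M : ℝ) ^ (e + 2) ≤ (Fintype.card (PG e × (Fin (e + 2) → Fin M)) : ℝ) := by
    rw [Fintype.card_prod, Fintype.card_fun, Fintype.card_fin, Fintype.card_fin]
    push_cast
    have hne : Nonempty (PG e) := ⟨⟨(1, fun _ => false), rfl, rfl⟩⟩
    have h4 : (1 : ℝ) ≤ (Fintype.card (PG e) : ℝ) := by
      exact_mod_cast Nat.one_le_iff_ne_zero.2 Fintype.card_ne_zero
    calc (M : ℝ) ^ (e + 2) = 1 * (M : ℝ) ^ (e + 2) := (one_mul _).symm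
      _ ≤ _ := mul_le_mul_of_nonneg_right h4 (by positivity)
  calc (M : ℝ) ^ (e + 2) * c0 ≤ (Fintype.card (PG e × (Fin (e + 2) → Fin M)) : ℝ) * c0 :=
        mul_le_mul_of_nonneg_right hcard hc0
    _ ≤ _ := mul_le_mul_of_nonneg_left (by linarith) (Nat.cast_nonneg _)

end

end Pool.Agent.MG990.N899
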