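import Mathlib
import Pool.Agent.N899.YM.SB11

/-!
# The Stefan-Boltzmann lower bound of the pressure
-/

open MeasureTheory Matrix Filter
open scoped Matrix.Norms.Frobenius Topology

namespace Pool.Agent.N899.Thermo

set_option linter.unusedSectionVars false
set_option linter.unusedVariables false

noncomputable section

open Pool.Agent Pool.Agent.H906R3 Pool.Agent.W793 Pool.Agent.TH618
open Pool.Agent.Y14.Wilson

variable {N n : ℕ} {G : Subgroup (UU N)}

section bridge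

variable [CompactSpace G] [SecondCountableTopology G] [MeasurableSpace G] [BorelSpace G]
  (μ : Measure G) [IsProbabilityMeasure μ] [μ.IsHaarMeasure] (B : LieBasis G n) {e : ℕ}

lemma wilson_eq {D l s : ℕ} [NeZero l] [NeZero s] (U : Site D l s × Fin (D + 1) → G) :
    wilson U = SB.ac (YM.we (ld B)) (SB.ev D l s) U := rfl

lemma partition_eq {D l s : ℕ} [NeZero l] [NeZero s] (β : ℝ) :
    partition D l s μ β = SB.prt (D := D) (l := l) (t := s) μ (YM.we (ld B)) β := rfl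

/-- the partition function at even time extents -/
lemma partition_lb {D l i s : ℕ} [NeZero l] [NeZero s] (β : ℝ) (hs : s = 2 * i) :
    Real.log (partition D l s μ β) = MG990.N899.lb μ (ld B) β D l i := by
  have := right_inv μ
  have := inv_inv' μ
  obtain ⟨n', hn'⟩ : ∃ n', s = n' + 1 := ⟨s - 1, by have := NeZero.ne s; omega⟩
  subst hn'
  rw [partition_eq μ B, MG990.N899.prt_trk μ (L := ld B) β n']
  unfold MG990.N899.lb
  have e1 : 2 * i - 1 = n' := by omega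
  rw [e1]

include B in
/-- **the Stefan-Boltzmann lower bound** -/
theorem sb_e (hG : IsClosed (G : Set (UU N))) (hn : 1 ≤ n) (hN : 1 ≤ N) (e : ℕ) :
    ∃ C c β₀ : ℝ, 0 < C ∧ 0 < c ∧ 3 ≤ β₀ ∧ ∀ β : ℝ, β₀ ≤ β →
      ∀ (l s t : ℕ) [NeZero l] [NeZero s] [NeZero t], Even l → Even s → Even t →
      C * (MG990.rate (e + 2) β * s) ≤ 1 → C * s ≤ l → s ≤ t →
      c * (l / s) ^ (e + 2) * (1 / s - 1 / t) ≤
        Real.log (partition (e + 2) l s μ β) / s - Real.log (partition (e + 2) l t μ β) / t := by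
  have := right_inv μ
  have := inv_inv' μ
  obtain ⟨C0, hC0, hcar⟩ := YM.cartan' (fm B) hG
  obtain ⟨c2, C3, c0, Cw, hc2, hC3, hc0, hCw, hcore⟩ :=
    MG990.N899.coreH μ (L := ld B) hn hN e hC0 hcar
  obtain ⟨β₀, C5, hβ₀, hC5, hsc⟩ := Channel.scale3 hc2 one_pos (κ := MG990.kap e)
    (ν := MG990.nul e) (by unfold MG990.kap; omega)
  have hC50 : 0 < C5 := by linarith
  have he0 : (0 : ℝ) ≤ e := Nat.cast_nonneg e
  obtain ⟨θ, hθ⟩ : ∃ θ : ℝ, θ = 3 * c0 / (Cw * C3) := ⟨_, rfl⟩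
  have hθ0 : 0 < θ := by rw [hθ]; positivity
  obtain ⟨K, hK⟩ : ∃ K : ℝ, K = min 1 (θ / C5) := ⟨_, rfl⟩
  have hK0 : 0 < K := by rw [hK]; exact lt_min one_pos (by positivity)
  have hK1 : K ≤ 1 := by rw [hK]; exact min_le_left _ _
  have hKθ : C5 * K ≤ θ := by
    have h1 : K ≤ θ / C5 := by rw [hK]; exact min_le_right _ _
    calc C5 * K ≤ C5 * (θ / C5) := mul_le_mul_of_nonneg_left h1 hC50.le
      _ = θ := mul_div_cancel₀ _ hC50.ne'
  obtain ⟨C, hC⟩ : ∃ C : ℝ, C = 64 * (e + 2) * C5 / K := ⟨_, rfl⟩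
  have hCK : C * K = 64 * (e + 2) * C5 := by rw [hC, div_mul_cancel₀ _ hK0.ne']
  have hC0' : 0 < C := by rw [hC]; positivity
  have hCK1 : 1 / K ≤ C := by
    rw [hC]
    refine div_le_div_of_nonneg_right ?_ hK0.le
    nlinarith
  have hC2 : 2 ≤ C := by
    have h1 : C * K ≤ C := by
      calc C * K ≤ C * 1 := mul_le_mul_of_nonneg_left hK1 hC0'.le
        _ = C := mul_one C
    rw [hCK] at h1
    nlinarith
  refine ⟨C, c0 / 2 * (1 / (2 * C)) ^ (e + 2), β₀, hC0', by positivity, hβ₀,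
    fun β hβ l s t _ _ _ hl hs ht hCs hCl hst => ?_⟩
  obtain ⟨m, rfl⟩ := even_iff_two_dvd.1 hl
  obtain ⟨i, hi⟩ := even_iff_two_dvd.1 hs
  obtain ⟨t', ht'⟩ := even_iff_two_dvd.1 ht
  have hm0 : NeZero m := ⟨by
    rintro rfl
    exact (NeZero.ne (2 * 0)) (by omega)⟩
  have hs0' : s ≠ 0 := NeZero.ne s
  have hi1 : 1 ≤ i := by omega
  have hs1 : (1 : ℝ) ≤ s := by exact_mod_cast (by omega : 1 ≤ s)
  have hs0 : (0 : ℝ) < s := by linarith
  have hβ3 : 3 ≤ β := hβ₀.trans hβ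
  have hβ0 : 0 < β := by linarith
  obtain ⟨hx, hxp⟩ := MG990.rate_pow (e := e) hβ3
  obtain ⟨E, hE⟩ : ∃ E : ℝ, E = K / s := ⟨_, rfl⟩
  have hE0 : 0 < E := by rw [hE]; positivity
  have hEs : E * s = K := by rw [hE, div_mul_cancel₀ _ hs0.ne']
  have hE1 : E ≤ 1 := by rw [hE, div_le_one hs0]; linarith
  have hxE : MG990.rate (e + 2) β ≤ E := by
    rw [hE, le_div_iff₀ hs0]
    have h1 : C * (MG990.rate (e + 2) β * s) * K ≤ 1 * K := mul_le_mul_of_nonneg_right hCs hK0.le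
    have h2 : 1 ≤ C * K := by
      rw [hCK]; nlinarith
    have h3 : 0 ≤ MG990.rate (e + 2) β * s := by positivity
    have h4 : MG990.rate (e + 2) β * s ≤ C * K * (MG990.rate (e + 2) β * s) :=
      le_mul_of_one_le_left h3 h2
    linarith
  obtain ⟨j, -, hq3, hq4, hq5⟩ := hsc β hβ _ hx hxp E hxE hE1
  obtain ⟨q, hq⟩ : ∃ q : ℕ, q = 2 ^ (j + 1) := ⟨_, rfl⟩
  have hqR : ((2 : ℝ) ^ (j + 1)) = q := by rw [hq]; push_cast; ring
  rw [hqR] at hq3 hq4 hq5
  have hq1 : 1 ≤ q := by rw [hq]; exact Nat.one_le_two_pow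
  have hq1' : (1 : ℝ) ≤ q := by exact_mod_cast hq1
  have hq0 : (0 : ℝ) < q := by linarith
  -- the number of the cells
  obtain ⟨R, hR⟩ : ∃ R, R = 2 * m := ⟨_, rfl⟩
  have hCR : C * s ≤ R := by rw [hR]; exact hCl
  have hqs : q * K ≤ C5 * s := by
    calc (q : ℝ) * K = q * E * s := by rw [mul_assoc, hEs]
      _ ≤ C5 * s := mul_le_mul_of_nonneg_right hq4 hs0.le
  have h64 : 64 * q * (e + 2) ≤ R := by
    have h1 : (64 * (e + 2) * q : ℝ) * K ≤ R * K := by
      calc (64 * (e + 2) * q : ℝ) * K = 64 * (e + 2) * (q * K) := by ring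
        _ ≤ 64 * (e + 2) * (C5 * s) := mul_le_mul_of_nonneg_left hqs (by positivity)
        _ = (64 * (e + 2) * C5) * s := by ring
        _ = C * s * K := by rw [← hCK]; ring
        _ ≤ R * K := mul_le_mul_of_nonneg_right hCR hK0.le
    have h2 := le_of_mul_le_mul_right h1 hK0
    have h3 : ((64 * q * (e + 2) : ℕ) : ℝ) ≤ R := by
      push_cast
      linarith
    exact_mod_cast h3
  obtain ⟨M, hM⟩ : ∃ M : ℕ, M = R / (64 * q * (e + 2)) := ⟨_, rfl⟩
  have hpos : 0 < 64 * q * (e + 2) := by positivity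
  have hM1 : 1 ≤ M := by rw [hM]; exact (Nat.one_le_div_iff hpos).2 h64
  have hMR : 64 * q * (e + 2) * M ≤ R := by rw [hM]; exact Nat.mul_div_le _ _
  have hMR' : R ≤ 128 * q * (e + 2) * M := by
    have h1 : R < 64 * q * (e + 2) * (M + 1) := by
      rw [hM]; exact Nat.lt_mul_div_succ R hpos
    have h2 : 64 * q * (e + 2) * (M + 1) ≤ 128 * q * (e + 2) * M := by
      have h3 : 64 * q * (e + 2) ≤ 64 * q * (e + 2) * M := Nat.le_mul_of_pos_right _ hM1
      calc 64 * q * (e + 2) * (M + 1) = 64 * q * (e + 2) * M + 64 * q * (e + 2) := by ring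
        _ ≤ 64 * q * (e + 2) * M + 64 * q * (e + 2) * M := by omega
        _ = _ := by ring
    omega
  have h128 : 128 * q ≤ R := by
    have h1 : 128 * q ≤ 64 * q * (e + 2) := by nlinarith
    omega
  have hS : 2 * (32 * q * ((e + 2) * M)) ≤ R := by
    calc 2 * (32 * q * ((e + 2) * M)) = 64 * q * (e + 2) * M := by ring
      _ ≤ R := hMR
  have h5 : 5 * (e + 3) * q < R := by
    have h1 : 5 * (e + 3) * q < 64 * q * (e + 2) := by nlinarith
    omega
  obtain ⟨⟨ω, hω, φ, hφ, hvar⟩, hdif⟩ := hcore j q hq β hβ0 hq3 m (by omega) (by omega)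
  -- the smallness of the variation
  have hsm : 16 / 3 * ((1 / 4 * ω) ^ 2 * ((2 * i : ℕ) *
      (C3 * (q / (β * (q : ℝ) ^ (e + 1)))))) ≤ c0 := by
    have e1 : ((2 * i : ℕ) : ℝ) = s := by rw [← hi]
    rw [e1]
    have e2 : 16 / 3 * ((1 / 4 * ω) ^ 2 * (s * (C3 * (q / (β * (q : ℝ) ^ (e + 1)))))) =
        (ω ^ 2 * ((q : ℝ) ^ 2 / (β * (q : ℝ) ^ (e + 1)))) * (C3 / 3 * (s / q)) := by
      field_simp
      ring
    rw [e2]
    have h1 : (s : ℝ) / q ≤ θ := by
      refine le_trans ?_ hKθ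
      rw [div_eq_mul_one_div]
      calc (s : ℝ) * (1 / q) ≤ s * (C5 * E) := mul_le_mul_of_nonneg_left hq5 hs0.le
        _ = C5 * K := by rw [← hEs]; ring
    calc (ω ^ 2 * ((q : ℝ) ^ 2 / (β * (q : ℝ) ^ (e + 1)))) * (C3 / 3 * (s / q)) ≤
        Cw * (C3 / 3 * θ) :=
          mul_le_mul hω (mul_le_mul_of_nonneg_left h1 (by positivity)) (by positivity) hCw.le
      _ = c0 := by rw [hθ]; field_simp
  have him : 2 * i ≤ m := by
    have h1 : (2 : ℝ) * s ≤ R := le_trans (mul_le_mul_of_nonneg_right hC2 hs0.le) hCR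
    have h2 : 2 * s ≤ R := by exact_mod_cast h1
    omega
  have ht0' : t ≠ 0 := NeZero.ne t
  have key := MG990.N899.sb_scale μ (L := ld B) (e := e) (m := m) (q := q) (r := j + 1) (M := M)
    (β := β) (by omega) hβ0.le hq1 hq (a0 := 2 * m - 1) (by omega) (by omega) (ω := ω) hc0.le hφ
    hvar hdif hi1 him hsm t' (by omega)
  rw [partition_lb μ B β hi, partition_lb μ B β ht']
  have hst' : ((i : ℕ) : ℝ) = s / 2 := by rw [hi]; push_cast; ring
  have htt' : ((t' : ℕ) : ℝ) = t / 2 := by rw [ht']; push_cast; ring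
  have ht0 : (0 : ℝ) < t := by exact_mod_cast Nat.pos_of_ne_zero ht0'
  rw [hst', htt'] at key
  have e3 : ∀ x y : ℝ, y ≠ 0 → x / (y / 2) = 2 * (x / y) := by
    intro x y hy
    field_simp
  rw [e3 _ _ hs0.ne', e3 _ _ ht0.ne', e3 _ _ hs0.ne', e3 _ _ ht0.ne'] at key
  have hd : 0 ≤ 1 / (s : ℝ) - 1 / t := by
    have := one_div_le_one_div_of_le hs0 (show (s : ℝ) ≤ t by exact_mod_cast hst)
    linarith
  have hMs : ((2 * m : ℕ) : ℝ) / s ≤ 2 * C * M := by
    rw [← hR, div_le_iff₀ hs0]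
    have h1 : (R : ℝ) ≤ 128 * q * (e + 2) * M := by exact_mod_cast hMR'
    have h2 : (R : ℝ) * K ≤ (2 * C * M * s) * K := by
      calc (R : ℝ) * K ≤ 128 * q * (e + 2) * M * K := mul_le_mul_of_nonneg_right h1 hK0.le
        _ = 128 * (e + 2) * M * (q * K) := by ring
        _ ≤ 128 * (e + 2) * M * (C5 * s) := mul_le_mul_of_nonneg_left hqs (by positivity)
        _ = 2 * (64 * (e + 2) * C5) * M * s := by ring
        _ = 2 * (C * K) * M * s := by rw [hCK]
        _ = _ := by ring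
    exact le_of_mul_le_mul_right h2 hK0
  have hI : c0 / 2 * (1 / (2 * C)) ^ (e + 2) * (((2 * m : ℕ) : ℝ) / s) ^ (e + 2) ≤
      (M : ℝ) ^ (e + 2) * c0 / 2 := by
    have h1 : (((2 * m : ℕ) : ℝ) / s) ^ (e + 2) ≤ (2 * C * M) ^ (e + 2) :=
      pow_le_pow_left₀ (by positivity) hMs _
    calc c0 / 2 * (1 / (2 * C)) ^ (e + 2) * (((2 * m : ℕ) : ℝ) / s) ^ (e + 2) ≤
        c0 / 2 * (1 / (2 * C)) ^ (e + 2) * (2 * C * M) ^ (e + 2) :=
          mul_le_mul_of_nonneg_left h1 (by positivity)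
      _ = c0 / 2 * ((1 / (2 * C)) * (2 * C * M)) ^ (e + 2) := by rw [mul_pow (1 / (2 * C))]; ring
      _ = _ := by
        have h2 : (1 / (2 * C)) * (2 * C * M) = M := by field_simp
        rw [h2]; ring
  have h9 := mul_le_mul_of_nonneg_right hI hd
  linarith

end bridge

end

end Pool.Agent.N899.Thermo
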